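import Pool.Agent.XP.LDefs

/-!
MODULE FamA (size 2).
Proof. `α i j k l = (if 0 < lam i ∧ 0 < lam j ∧ k = i ∧ l = j then m / (sqrt (lam i) sqrt (lam j))
else 0) + (if i = j ∧ k = l ∧ 0 < lam k then (if 0 < lam i then -(lam i)⁻¹ else 1) else 0)`.
-/

open scoped ComplexConjugate
open Complex

namespace Pool.Agent.XP

theorem fam_coeff {n : ℕ} (lam : Fin n → ℝ) :
    ∃ α : Fin n → Fin n → Fin n → Fin n → ℂ,
      (∀ i j k l, conj (α i j k l) = α j i l k) ∧
      ∀ (v : Fin n → ℂ) (i j : Fin n),
        fam lam v i j = ∑ k, ∑ l, α i j k l * v k * conj (v l) := by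
  classical
  obtain ⟨e, hee, he⟩ : ∃ e : Fin n → ℂ,
      (∀ i, (if 0 < lam i then ((-(lam i)⁻¹ : ℝ) : ℂ) else 1) = e i) ∧ ∀ i, conj (e i) = e i := by
    refine ⟨fun i => if 0 < lam i then ((-(lam i)⁻¹ : ℝ) : ℂ) else 1, fun i => rfl, ?_⟩
    intro i
    dsimp only
    split_ifs
    · exact Complex.conj_ofReal _
    · exact map_one _
  refine ⟨fun i j k l =>
    (if k = i then (if l = j then (if 0 < lam i ∧ 0 < lam j then
      (msize lam : ℂ) * (((Real.sqrt (lam i) * Real.sqrt (lam j))⁻¹ : ℝ) : ℂ) else 0) else 0) else 0)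
    + (if k = l then (if i = j then (if 0 < lam k then e i else 0) else 0) else 0), ?_, ?_⟩
  · intro i j k l
    rw [map_add]
    congr 1
    · by_cases hk : k = i
      · by_cases hl : l = j
        · rw [if_pos hk, if_pos hl, if_pos hl, if_pos hk]
          by_cases h : 0 < lam i ∧ 0 < lam j
          · rw [if_pos h, if_pos h.symm, map_mul, Complex.conj_ofReal, Complex.conj_natCast,
              mul_comm (Real.sqrt (lam i))]
          · rw [if_neg h, if_neg (fun h' => h h'.symm), map_zero]
        · rw [if_pos hk, if_neg hl, if_neg hl, map_zero]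
      · rw [if_neg hk, map_zero]
        by_cases hl : l = j
        · rw [if_pos hl, if_neg hk]
        · rw [if_neg hl]
    · by_cases hkl : k = l
      · subst hkl
        rw [if_pos rfl, if_pos rfl]
        by_cases hij : i = j
        · subst hij
          rw [if_pos rfl]
          split_ifs
          · exact he i
          · exact map_zero _
        · rw [if_neg hij, if_neg (Ne.symm hij), map_zero]
      · rw [if_neg hkl, if_neg (Ne.symm hkl), map_zero]
  · intro v i j
    simp only [add_mul, Finset.sum_add_distrib, ite_mul, zero_mul, Finset.sum_ite_eq,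
      Finset.mem_univ, if_true]
    unfold fam nn
    rw [Matrix.of_apply, hee]
    have h1 : (∑ k, ∑ l, if k = i then (if l = j then (if 0 < lam i ∧ 0 < lam j then
        (msize lam : ℂ) * (((Real.sqrt (lam i) * Real.sqrt (lam j))⁻¹ : ℝ) : ℂ) * v k * conj (v l)
        else 0) else 0) else 0) = (if 0 < lam i ∧ 0 < lam j then
        (msize lam : ℂ) * (((Real.sqrt (lam i) * Real.sqrt (lam j))⁻¹ : ℝ) : ℂ) * v i * conj (v j)
        else 0) := by
      rw [Finset.sum_eq_single i, Finset.sum_eq_single j]
      · simp
      · intro b _ hb; simp [hb]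
      · intro h; exact absurd (Finset.mem_univ _) h
      · intro b _ hb; simp [hb]
      · intro h; exact absurd (Finset.mem_univ _) h
    rw [h1]
    congr 1
    · split_ifs
      · ring
      · rfl
    · by_cases hij : i = j
      · simp only [if_pos hij]
        rw [Finset.sum_mul]
        apply Finset.sum_congr rfl
        intro k _
        split_ifs
        · ring
        · ring
      · simp [if_neg hij]

end Pool.Agent.XP
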