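import Pool.Agent.F057.Tensor

/-!
MODULE Gram (size 1). Copy the proofs of `gram_contDiffAt` and `gram_posDef` from
`Pool/Agent/Results/MP_f057aa_ag/AllTensorPowers.lean`.
-/

open scoped ComplexConjugate Manifold ContDiff Bundle ComplexOrder
open Complex

namespace Pool.Agent.XP

open Pool.Agent.F057

variable {V : Type*} [NormedAddCommGroup V] [NormedSpace ℂ V]
  {X : Type*} [TopologicalSpace X] [ChartedSpace V X]
  {F : Type*} [NormedAddCommGroup F] [NormedSpace ℂ F] [FiniteDimensional ℂ F]
  {E : X → Type*} [∀ x, AddCommGroup (E x)] [∀ x, Module ℂ (E x)]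
  [∀ x, TopologicalSpace (E x)] [TopologicalSpace (Bundle.TotalSpace F E)]
  [FiberBundle F E] [VectorBundle ℂ F E]

theorem gram_contDiffAt (h : HermMetric V F E) (q : X) (i j : Fin (Module.finrank ℂ F)) :
    ContDiffAt ℝ 2 (fun z : V => gram F E h.form q z i j) (extChartAt 𝓘(ℂ, V) q q) := by
  have h1 := h.smooth q i j
  have hmem : ((extChartAt 𝓘(ℂ, V) q).target ∩
      (extChartAt 𝓘(ℂ, V) q).symm ⁻¹' (trivializationAt F E q).baseSet) ∈
      nhds (extChartAt 𝓘(ℂ, V) q q) := by
    refine Filter.inter_mem (extChartAt_target_mem_nhds q) ?_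
    refine (continuousAt_extChartAt_symm q).preimage_mem_nhds ?_
    rw [extChartAt_to_inv]
    exact (trivializationAt F E q).open_baseSet.mem_nhds (FiberBundle.mem_baseSet_trivializationAt' q)
  exact (h1.contDiffAt hmem).of_le ENat.LEInfty.out

theorem gram_posDef (h : HermMetric V F E) (q : X) :
    (gram F E h.form q (extChartAt 𝓘(ℂ, V) q q)).PosDef := by
  have hq : q ∈ (trivializationAt F E q).baseSet := FiberBundle.mem_baseSet_trivializationAt' q
  set e := trivializationAt F E q with he
  set b := Module.finBasis ℂ F with hb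
  have hg : ∀ i j, gram F E h.form q (extChartAt 𝓘(ℂ, V) q q) i j =
      h.form q (e.symm q (b i)) (e.symm q (b j)) := by
    intro i j
    simp only [gram, Matrix.of_apply]
    rw [extChartAt_to_inv]
  refine Matrix.PosDef.of_dotProduct_mulVec_pos ?_ fun x hx => ?_
  · ext i j
    rw [Matrix.conjTranspose_apply, hg, hg, h.symm q (e.symm q (b i)) (e.symm q (b j))]
    simp
  · rw [← F057.sq_eq]
    set a : E q := ∑ i, x i • e.symm q (b i) with ha
    have h1 : F057.sq (gram F E h.form q (extChartAt 𝓘(ℂ, V) q q)) x x = h.form q a a := by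
      rw [ha]
      simp only [map_sum, LinearMap.sum_apply, LinearMap.map_smulₛₗ, LinearMap.smul_apply,
        map_smul, F057.sq, hg, smul_eq_mul]
      rw [Finset.sum_comm]
      refine Finset.sum_congr rfl fun i _ => ?_
      try rw [Finset.mul_sum]
      refine Finset.sum_congr rfl fun j _ => ?_
      ring
    have ha0 : a ≠ 0 := by
      intro h0
      have h2 : a = e.symmL ℂ q (∑ i, x i • b i) := by
        rw [map_sum, ha]
        refine Finset.sum_congr rfl fun i _ => ?_
        rw [map_smul, e.symmL_apply hq]
      have h3 : (∑ i, x i • b i) = 0 := by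
        have h4 : e.continuousLinearMapAt ℂ q a = ∑ i, x i • b i := by
          rw [h2]
          exact e.continuousLinearMapAt_symmL hq _
        rw [← h4, h0, map_zero]
      have h5 := Fintype.linearIndependent_iff.1 b.linearIndependent x h3
      exact hx (funext h5)
    have h6 : (h.form q a a).im = 0 := by
      have := congrArg Complex.im (h.symm q a a)
      rw [Complex.conj_im] at this
      linarith
    rw [h1, Complex.pos_iff]
    exact ⟨h.pos q a ha0, h6.symm⟩

end Pool.Agent.XP
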