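import Pool.Agent.XP.Dens

/-!
MODULE Div (size 4).
Proof of `dens_div`. Let `p = q + 1` (for `p = 0` both sides: `wedge u c = 0` gives
`u i * c _ = 0` for all `i`, and `dens = 0`; so both sides vanish). Put
`d L = ∑ i, conj (u i) * c (Fin.cons i L)` for `L : Fin q → ι`. From
`wedge u c (Fin.cons i K) = 0`, multiplied by `conj (u i)` and summed over `i`
(`Fin.sum_univ_succ` in `wedge`; the `k = 0` term is `|u|^2 * c K`; the term `k = l.succ` is
`-(-1)^l * u (K l) * conj (u i) * c (Fin.cons i (K ∘ l.succAbove))`):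
`|u|^2 * c K = ∑ l, (-1)^l * u (K l) * d (K ∘ l.succAbove)`. Multiply by `conj (c K)`, sum over `K`
(`K = l.insertNth i L`), and use `c (l.insertNth i L) = (-1)^l * c (Fin.cons i L)` (`Anti`; cyclic
permutation `Fin.cycleRange`, `Fin.sign_cycleRange`):
`|u|^2 * nsq c = ∑ l, ∑ L, conj (d L) * d L = p * ∑ L, |d L|^2`.
On the other side `dens c i j = p * ∑ L, conj (c (Fin.cons i L)) * c (Fin.cons j L)` (same fact), so
`∑ i j, u i * conj (u j) * dens c i j = p * ∑ L, conj (d L) * d L`.
`eq_of_div`: `t |u|^2 = |u|^2 nsq c`, so `t = nsq c`; `trace_dens`: `m t = p nsq c`;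
`nsq c > 0` since `c ≠ 0`; hence `m = p`.
-/

open scoped ComplexConjugate
open Complex

namespace Pool.Agent.XP

private theorem Div_insert {ι : Type*} {q : ℕ} {c : (Fin (q + 1) → ι) → ℂ} (hc : Anti c)
    (l : Fin (q + 1)) (i : ι) (L : Fin q → ι) :
    c (l.insertNth i L) = (-1) ^ (l : ℕ) * c (Fin.cons i L) := by
  have h := hc l.cycleRange (Fin.cons i L)
  have h2 : (Fin.cons i L : Fin (q + 1) → ι) ∘ l.cycleRange = l.insertNth i L := by
    funext k
    simp only [Function.comp]
    refine Fin.succAboveCases l ?_ ?_ k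
    · rw [Fin.cycleRange_self, Fin.cons_zero, Fin.insertNth_apply_same]
    · intro j
      rw [Fin.cycleRange_succAbove, Fin.cons_succ, Fin.insertNth_apply_succAbove]
  rw [h2] at h
  rw [h, Fin.sign_cycleRange]
  push_cast
  rfl

private theorem Div_sum_insert {ι : Type*} [Fintype ι] {q : ℕ} (l : Fin (q + 1))
    (f : (Fin (q + 1) → ι) → ℂ) :
    ∑ K, f K = ∑ L : Fin q → ι, ∑ i : ι, f (l.insertNth i L) := by
  rw [← (Fin.insertNthEquiv (fun _ => ι) l).sum_comp, Fintype.sum_prod_type, Finset.sum_comm]
  rfl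

private theorem Div_dens {ι : Type*} [Fintype ι] [DecidableEq ι] {q : ℕ}
    {c : (Fin (q + 1) → ι) → ℂ} (hc : Anti c) (i j : ι) :
    dens c i j = ((q + 1 : ℕ) : ℂ) *
      ∑ L : Fin q → ι, conj (c (Fin.cons i L)) * c (Fin.cons j L) := by
  unfold dens
  have h : ∀ l : Fin (q + 1), (∑ I : Fin (q + 1) → ι, if I l = i then
      conj (c I) * c (Function.update I l j) else 0) =
      ∑ L : Fin q → ι, conj (c (Fin.cons i L)) * c (Fin.cons j L) := by
    intro l
    rw [Div_sum_insert l]
    refine Finset.sum_congr rfl fun L _ => ?_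
    rw [Finset.sum_eq_single i]
    · rw [Fin.insertNth_apply_same, if_pos rfl, Fin.update_insertNth, Div_insert hc,
        Div_insert hc, map_mul, map_pow, map_neg, map_one]
      have : ((-1 : ℂ) ^ (l : ℕ)) * (-1) ^ (l : ℕ) = 1 := by
        rw [← mul_pow]; norm_num
      linear_combination (conj (c (Fin.cons i L)) * c (Fin.cons j L)) * this
    · intro b _ hb
      rw [Fin.insertNth_apply_same, if_neg hb]
    · intro hb; exact absurd (Finset.mem_univ _) hb
  rw [Finset.sum_congr rfl fun l _ => h l, Finset.sum_const, Finset.card_univ, Fintype.card_fin,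
    nsmul_eq_mul]

theorem dens_div {ι : Type*} [Fintype ι] [DecidableEq ι] {p : ℕ} {u : ι → ℂ}
    {c : (Fin p → ι) → ℂ} (hc : Anti c) (h : wedge u c = 0) :
    ∑ i, ∑ j, u i * conj (u j) * dens c i j = (∑ i, u i * conj (u i)) * (nsq c : ℂ) := by
  rcases p with _ | q
  · have h0 : ∀ i, u i * c (fun k => k.elim0) = 0 := by
      intro i
      have := congrFun h (fun _ => i)
      unfold wedge at this
      rw [Fin.sum_univ_one] at this
      simp only [Fin.val_zero, pow_zero, one_mul, Pi.zero_apply] at this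
      have e : ((fun _ : Fin 1 => i) ∘ (0 : Fin 1).succAbove) = (fun k : Fin 0 => k.elim0) := by
        funext k; exact k.elim0
      rw [e] at this
      exact this
    have hd : ∀ i j, dens c i j = 0 := by
      intro i j
      unfold dens
      simp
    have h1 : nsq c = normSq (c (fun k => k.elim0)) := by
      unfold nsq
      rw [Fintype.sum_eq_single (fun k : Fin 0 => k.elim0)]
      intro b hb
      exact absurd (funext fun k => k.elim0) hb
    simp only [hd, mul_zero, Finset.sum_const_zero]
    rw [Finset.sum_mul, h1]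
    symm
    refine Finset.sum_eq_zero fun i _ => ?_
    rw [← Complex.mul_conj]
    linear_combination (conj (u i) * conj (c fun k => k.elim0)) * h0 i
  · set d : (Fin q → ι) → ℂ := fun L => ∑ i, conj (u i) * c (Fin.cons i L) with hd
    have hL : ∑ i, ∑ j, u i * conj (u j) * dens c i j =
        ((q + 1 : ℕ) : ℂ) * ∑ L : Fin q → ι, conj (d L) * d L := by
      have h1 : ∀ L : Fin q → ι, conj (d L) * d L =
          ∑ i, ∑ j, u i * conj (u j) * (conj (c (Fin.cons i L)) * c (Fin.cons j L)) := by
        intro L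
        simp only [hd]
        rw [map_sum, Finset.sum_mul_sum]
        refine Finset.sum_congr rfl fun i _ => Finset.sum_congr rfl fun j _ => ?_
        rw [map_mul, Complex.conj_conj]
        ring
      have h2 : (∑ L : Fin q → ι, conj (d L) * d L) =
          ∑ i, ∑ j, ∑ L : Fin q → ι,
            u i * conj (u j) * (conj (c (Fin.cons i L)) * c (Fin.cons j L)) := by
        rw [Finset.sum_congr rfl fun L _ => h1 L, Finset.sum_comm]
        exact Finset.sum_congr rfl fun i _ => Finset.sum_comm
      rw [h2, Finset.mul_sum]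
      refine Finset.sum_congr rfl fun i _ => ?_
      rw [Finset.mul_sum]
      refine Finset.sum_congr rfl fun j _ => ?_
      rw [Div_dens hc, ← Finset.mul_sum]
      ring
    have hK : ∀ K : Fin (q + 1) → ι, (∑ i, u i * conj (u i)) * c K =
        ∑ l : Fin (q + 1), (-1) ^ (l : ℕ) * u (K l) * d (K ∘ l.succAbove) := by
      intro K
      have h1 : ∀ i, u i * c K = ∑ l : Fin (q + 1), (-1) ^ (l : ℕ) * u (K l) *
          c (Fin.cons i (K ∘ l.succAbove)) := by
        intro i
        have h2 := congrFun h (Fin.cons i K)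
        unfold wedge at h2
        rw [Fin.sum_univ_succ] at h2
        simp only [Fin.val_zero, pow_zero, one_mul, Pi.zero_apply, Fin.cons_zero, Fin.val_succ,
          Fin.cons_succ] at h2
        have e0 : (Fin.cons i K : Fin (q + 2) → ι) ∘ (0 : Fin (q + 2)).succAbove = K := by
          funext k
          simp
        have e1 : ∀ l : Fin (q + 1), (Fin.cons i K : Fin (q + 2) → ι) ∘ l.succ.succAbove =
            Fin.cons i (K ∘ l.succAbove) := by
          intro l
          funext k
          refine Fin.cases ?_ (fun j => ?_) k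
          · simp
          · simp
        rw [e0] at h2
        rw [eq_comm, ← sub_eq_zero, ← neg_eq_zero, neg_sub, sub_eq_add_neg, ← Finset.sum_neg_distrib]
        rw [← h2]
        congr 1
        refine Finset.sum_congr rfl fun l _ => ?_
        rw [e1 l, pow_succ]
        ring
      calc (∑ i, u i * conj (u i)) * c K = ∑ i, conj (u i) * (u i * c K) := by
            rw [Finset.sum_mul]
            exact Finset.sum_congr rfl fun i _ => by ring
        _ = ∑ i, conj (u i) * ∑ l : Fin (q + 1), (-1) ^ (l : ℕ) * u (K l) *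
          c (Fin.cons i (K ∘ l.succAbove)) := Finset.sum_congr rfl fun i _ => by rw [h1 i]
        _ = ∑ l : Fin (q + 1), (-1) ^ (l : ℕ) * u (K l) * d (K ∘ l.succAbove) := by
            simp only [Finset.mul_sum, hd]
            rw [Finset.sum_comm]
            refine Finset.sum_congr rfl fun l _ => Finset.sum_congr rfl fun i _ => ?_
            ring
    have hN : (nsq c : ℂ) = ∑ K : Fin (q + 1) → ι, conj (c K) * c K := by
      unfold nsq
      rw [Complex.ofReal_sum]
      exact Finset.sum_congr rfl fun K _ => Complex.normSq_eq_conj_mul_self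
    rw [hL, hN]
    have h3 : (∑ K : Fin (q + 1) → ι, (∑ i, u i * conj (u i)) * (conj (c K) * c K)) =
        ∑ l : Fin (q + 1), ∑ K : Fin (q + 1) → ι,
          conj (c K) * ((-1) ^ (l : ℕ) * u (K l) * d (K ∘ l.succAbove)) := by
      rw [Finset.sum_comm]
      refine Finset.sum_congr rfl fun K _ => ?_
      rw [← Finset.mul_sum, ← hK K]
      ring
    have h4 : ∀ l : Fin (q + 1), (∑ K : Fin (q + 1) → ι,
          conj (c K) * ((-1) ^ (l : ℕ) * u (K l) * d (K ∘ l.succAbove))) =
          ∑ L : Fin q → ι, conj (d L) * d L := by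
      intro l
      rw [Div_sum_insert l]
      refine Finset.sum_congr rfl fun L _ => ?_
      have h5 : ∀ i, conj (c (l.insertNth i L)) * ((-1) ^ (l : ℕ) *
          u ((l.insertNth i L : Fin (q + 1) → ι) l) *
          d ((l.insertNth i L : Fin (q + 1) → ι) ∘ l.succAbove)) =
          (u i * conj (c (Fin.cons i L))) * d L := by
        intro i
        have e : (l.insertNth i L : Fin (q + 1) → ι) ∘ l.succAbove = L := by
          funext k
          simp
        rw [e, Fin.insertNth_apply_same, Div_insert hc, map_mul, map_pow, map_neg, map_one]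
        have : ((-1 : ℂ) ^ (l : ℕ)) * (-1) ^ (l : ℕ) = 1 := by
          rw [← mul_pow]; norm_num
        linear_combination (u i * conj (c (Fin.cons i L)) * d L) * this
      rw [Finset.sum_congr rfl fun i _ => h5 i, ← Finset.sum_mul]
      congr 1
      simp only [hd]
      rw [map_sum]
      refine Finset.sum_congr rfl fun i _ => ?_
      rw [map_mul, Complex.conj_conj]
    rw [Finset.mul_sum Finset.univ (fun K : Fin (q + 1) → ι => conj (c K) * c K), h3,
      Finset.sum_congr rfl fun l _ => h4 l, Finset.sum_const, Finset.card_univ,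
      Fintype.card_fin, nsmul_eq_mul]

theorem eq_of_div {m p : ℕ} {c : (Fin p → Fin m) → ℂ} (hc : Anti c) (hc0 : c ≠ 0)
    {u : Fin m → ℂ} (hu : u ≠ 0) (h : wedge u c = 0) {t : ℝ}
    (hd : ∀ i j, dens c i j = if i = j then (t : ℂ) else 0) : p = m := by
  have h1 := dens_div hc h
  have h2 : ∑ i, ∑ j, u i * conj (u j) * dens c i j = (∑ i, u i * conj (u i)) * (t : ℂ) := by
    rw [Finset.sum_mul]
    refine Finset.sum_congr rfl fun i _ => ?_
    rw [Finset.sum_eq_single i]
    · rw [hd, if_pos rfl]
    · intro j _ hj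
      rw [hd, if_neg (Ne.symm hj), mul_zero]
    · intro hi; exact absurd (Finset.mem_univ _) hi
  have hU : (∑ i, u i * conj (u i)) ≠ 0 := by
    have e : (∑ i, u i * conj (u i)) = ((∑ i, normSq (u i) : ℝ) : ℂ) := by
      rw [Complex.ofReal_sum]
      exact Finset.sum_congr rfl fun i _ => Complex.mul_conj _
    rw [e]
    obtain ⟨i, hi⟩ := Function.ne_iff.1 hu
    have : (0 : ℝ) < ∑ i, normSq (u i) :=
      Finset.sum_pos' (fun j _ => Complex.normSq_nonneg _)
        ⟨i, Finset.mem_univ _, Complex.normSq_pos.2 hi⟩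
    exact_mod_cast this.ne'
  rw [h2] at h1
  have ht : (t : ℂ) = (nsq c : ℂ) := mul_left_cancel₀ hU h1
  have h3 := trace_dens c
  have h4 : ∑ i, dens c i i = (m : ℂ) * (t : ℂ) := by
    have : ∀ i, dens c i i = (t : ℂ) := fun i => by rw [hd, if_pos rfl]
    rw [Finset.sum_congr rfl fun i _ => this i, Finset.sum_const, Finset.card_univ,
      Fintype.card_fin, nsmul_eq_mul]
  rw [h4, ht] at h3
  have hN : (nsq c : ℂ) ≠ 0 := by
    obtain ⟨I, hI⟩ := Function.ne_iff.1 hc0
    have : (0 : ℝ) < nsq c :=
      Finset.sum_pos' (fun j _ => Complex.normSq_nonneg _)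
        ⟨I, Finset.mem_univ _, Complex.normSq_pos.2 hI⟩
    exact_mod_cast this.ne'
  have h5 : (m : ℂ) = (p : ℂ) := mul_right_cancel₀ hN h3
  exact_mod_cast h5.symm

end Pool.Agent.XP
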