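import Pool.Agent.XP.Wed

/-!
MODULE Ker (size 4).
Proofs. `top_zero`: `x I = 0` if `I` is not injective (`Anti` with a swap), and if `I` is injective
it is a permutation `σ`, `x (id ∘ σ) = sign σ * x id = 0`.
`sub_top_zero`: an injective `I : Fin m → Fin (m+1)` misses exactly one `i`, so it is
`i.succAbove ∘ σ` for a permutation `σ`.
`exists_u_one`: the linear functional `u ↦ wedge u c id` on `ℂ^(p+1)`, `p + 1 ≥ 2`, has a nonzero
kernel vector `u`; `wedge u c` is antisymmetric (`wedge_anti`) of top degree with value `0` at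
`id`: `top_zero`.
`exists_u_two`: `B i j = wedge (Pi.single i 1) (wedge (Pi.single j 1) c) id` is an antisymmetric
matrix (`wedge_wedge_swap`) of odd size `p + 2`, so `det B = det Bᵀ = det (-B) = -det B = 0` and
there is `u ≠ 0` with `B.mulVec u = 0` (`Matrix.exists_mulVec_eq_zero_iff`). By linearity
`wedge (Pi.single i 1) (wedge u c) id = 0` for all `i`; this value is `(-1)^i * (wedge u c)
(i.succAbove)`; `sub_top_zero` for `x = wedge u c`.
-/

open scoped ComplexConjugate
open Complex

namespace Pool.Agent.XP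

private theorem noninj {ι : Type*} {m : ℕ} {x : (Fin m → ι) → ℂ} (hx : Anti x) {I : Fin m → ι}
    (h : ¬ Function.Injective I) : x I = 0 := by
  rw [Function.not_injective_iff] at h
  obtain ⟨a, b, h1, h2⟩ := h
  have h3 := hx (Equiv.swap a b) I
  have h4 : I ∘ (Equiv.swap a b : Equiv.Perm (Fin m)) = I := by
    funext k
    rw [Function.comp_apply]
    by_cases ka : k = a
    · rw [ka, Equiv.swap_apply_left, h1]
    · by_cases kb : k = b
      · rw [kb, Equiv.swap_apply_right, h1]
      · rw [Equiv.swap_apply_of_ne_of_ne ka kb]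
  rw [h4, Equiv.Perm.sign_swap h2, Units.val_neg, Units.val_one, Int.cast_neg, Int.cast_one,
    neg_one_mul] at h3
  exact self_eq_neg.1 h3

theorem top_zero {m : ℕ} {x : (Fin m → Fin m) → ℂ} (hx : Anti x) (h : x id = 0) : x = 0 := by
  funext I
  by_cases hI : Function.Injective I
  · have hb : Function.Bijective I := Finite.injective_iff_bijective.1 hI
    have h1 := hx (Equiv.ofBijective I hb) id
    rw [h, mul_zero] at h1
    exact h1
  · exact noninj hx hI

theorem sub_top_zero {m : ℕ} {x : (Fin m → Fin (m + 1)) → ℂ} (hx : Anti x)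
    (h : ∀ i : Fin (m + 1), x i.succAbove = 0) : x = 0 := by
  funext I
  by_cases hI : Function.Injective I
  · have h1 : ¬ Function.Surjective I := by
      intro hs
      have := Fintype.card_le_of_surjective I hs
      simp at this
    rw [Function.Surjective] at h1
    push Not at h1
    obtain ⟨i, hi⟩ := h1
    have h2 : ∀ k, ∃ z, i.succAbove z = I k := fun k => Fin.exists_succAbove_eq (hi k)
    choose f hf using h2
    have hfi : Function.Injective f := by
      intro a b hab
      apply hI
      rw [← hf, ← hf, hab]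
    have hb : Function.Bijective f := Finite.injective_iff_bijective.1 hfi
    have h3 := hx (Equiv.ofBijective f hb) i.succAbove
    rw [h, mul_zero] at h3
    have h4 : i.succAbove ∘ (Equiv.ofBijective f hb) = I := funext fun k => hf k
    rw [h4] at h3
    exact h3
  · exact noninj hx hI

private theorem wedge_add_left {ι : Type*} {p : ℕ} (u v : ι → ℂ) (c : (Fin p → ι) → ℂ)
    (I : Fin (p + 1) → ι) : wedge (u + v) c I = wedge u c I + wedge v c I := by
  unfold wedge
  rw [← Finset.sum_add_distrib]
  apply Finset.sum_congr rfl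
  intro k _
  rw [Pi.add_apply]
  ring

private theorem wedge_smul_left {ι : Type*} {p : ℕ} (a : ℂ) (u : ι → ℂ) (c : (Fin p → ι) → ℂ)
    (I : Fin (p + 1) → ι) : wedge (a • u) c I = a * wedge u c I := by
  unfold wedge
  rw [Finset.mul_sum]
  apply Finset.sum_congr rfl
  intro k _
  rw [Pi.smul_apply, smul_eq_mul]
  ring

theorem exists_u_one {p : ℕ} (hp : 1 ≤ p) {c : (Fin p → Fin (p + 1)) → ℂ} (hc : Anti c) :
    ∃ u : Fin (p + 1) → ℂ, u ≠ 0 ∧ wedge u c = 0 := by
  let L : (Fin (p + 1) → ℂ) →ₗ[ℂ] ℂ :=
    { toFun := fun u => wedge u c id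
      map_add' := fun u v => wedge_add_left u v c id
      map_smul' := fun a u => wedge_smul_left a u c id }
  have h1 : LinearMap.ker L ≠ ⊥ := by
    apply LinearMap.ker_ne_bot_of_finrank_lt
    rw [Module.finrank_self, Module.finrank_fin_fun]
    omega
  obtain ⟨u, hu, hu0⟩ := Submodule.exists_mem_ne_zero_of_ne_bot h1
  exact ⟨u, hu0, top_zero (wedge_anti u hc) hu⟩

private theorem wedge_basis {p : ℕ} (i : Fin (p + 1)) (c : (Fin p → Fin (p + 1)) → ℂ) :
    wedge (Pi.single i 1) c id = (-1) ^ (i : ℕ) * c i.succAbove := by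
  unfold wedge
  rw [Finset.sum_eq_single i]
  · rw [id_eq, Pi.single_eq_same, mul_one]
    rfl
  · intro b _ hb
    rw [id_eq, Pi.single_eq_of_ne hb, mul_zero, zero_mul]
  · intro h
    exact absurd (Finset.mem_univ _) h

private theorem wedge_expand {n p : ℕ} (u : Fin n → ℂ) (c : (Fin p → Fin n) → ℂ)
    (I : Fin (p + 1) → Fin n) :
    wedge u c I = ∑ j, u j * wedge (Pi.single j 1) c I := by
  unfold wedge
  simp_rw [Finset.mul_sum]
  rw [Finset.sum_comm]
  apply Finset.sum_congr rfl
  intro k _
  rw [Finset.sum_eq_single (I k)]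
  · rw [Pi.single_eq_same]
    ring
  · intro b _ hb
    rw [Pi.single_eq_of_ne (Ne.symm hb)]
    ring
  · intro h
    exact absurd (Finset.mem_univ _) h

theorem exists_u_two {p : ℕ} (hp : Odd p) {c : (Fin p → Fin (p + 2)) → ℂ} (hc : Anti c) :
    ∃ u : Fin (p + 2) → ℂ, u ≠ 0 ∧ wedge u c = 0 := by
  let B : Matrix (Fin (p + 2)) (Fin (p + 2)) ℂ :=
    Matrix.of fun i j => wedge (Pi.single i 1) (wedge (Pi.single j 1) c) id
  have hBa : ∀ i j, B i j = wedge (Pi.single i 1) (wedge (Pi.single j 1) c) id :=
    fun i j => rfl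
  have hB : B.transpose = -B := by
    ext i j
    rw [Matrix.transpose_apply, Matrix.neg_apply, hBa, hBa]
    exact wedge_wedge_swap _ _ hc _
  have hdet : B.det = 0 := by
    have h1 : B.det = (-B).det := by rw [← hB, Matrix.det_transpose]
    rw [Matrix.det_neg, Fintype.card_fin] at h1
    have h2 : Odd (p + 2) := hp.add_even (by decide)
    rw [h2.neg_one_pow, neg_one_mul] at h1
    exact self_eq_neg.1 h1
  obtain ⟨u, hu0, hu⟩ := Matrix.exists_mulVec_eq_zero_iff.2 hdet
  refine ⟨u, hu0, ?_⟩
  apply sub_top_zero (wedge_anti u hc)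
  intro i
  have h1 : B.mulVec u i = wedge (Pi.single i 1) (wedge u c) id := by
    rw [wedge_basis]
    change ∑ j, B i j * u j = _
    rw [wedge_expand, Finset.mul_sum]
    apply Finset.sum_congr rfl
    intro j _
    rw [hBa, wedge_basis]
    ring
  rw [hu, Pi.zero_apply, wedge_basis] at h1
  rcases mul_eq_zero.1 h1.symm with h2 | h2
  · exact absurd h2 (pow_ne_zero _ (by norm_num))
  · exact h2

end Pool.Agent.XP
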