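import Pool.Agent.XP.NCa
import Pool.Agent.XP.Ker
import Pool.Agent.XP.Div

/-!
MODULE NC (size 2).
Proof. `p > m`: `anti_zero_of_lt`. `p = m`: done. `p < m`: if `Cond p m` fails then `p = 1`
(`core_one`), or `p = 2` and `m` odd (`core_two`), or `p + 1 = m` (`exists_u_one`, `eq_of_div`), or
`p + 2 = m` and `m` odd, so `p` odd (`exists_u_two`, `eq_of_div`). `omega` after unfolding `Cond`
(with `Nat.even_iff`, `Nat.odd_iff`).
-/

open scoped ComplexConjugate
open Complex

namespace Pool.Agent.XP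

theorem core {m p : ℕ} (hp : 1 ≤ p) {c : (Fin p → Fin m) → ℂ} (hc0 : c ≠ 0)
    (hc : Anti c) {t : ℝ} (hd : ∀ i j, dens c i j = if i = j then (t : ℂ) else 0) :
    p = m ∨ (p < m ∧ Cond p m) := by
  rcases lt_trichotomy p m with h | h | h
  · right
    refine ⟨h, ?_⟩
    by_contra hC
    have hcases : p = 1 ∨ (p = 2 ∧ m % 2 = 1) ∨ p + 1 = m ∨ (p + 2 = m ∧ m % 2 = 1) := by
      unfold Cond at hC
      rw [Nat.even_iff] at hC
      omega
    rcases hcases with h1 | ⟨h1, h2⟩ | h1 | ⟨h1, h2⟩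
    · subst h1
      exact core_one (by omega) hc0 hd
    · subst h1
      exact core_two (Nat.odd_iff.mpr h2) hc0 hc hd
    · subst h1
      obtain ⟨u, hu, hw⟩ := exists_u_one hp hc
      have := eq_of_div hc hc0 hu hw hd
      omega
    · subst h1
      obtain ⟨u, hu, hw⟩ := exists_u_two (Nat.odd_iff.mpr (by omega)) hc
      have := eq_of_div hc hc0 hu hw hd
      omega
  · exact Or.inl h
  · exact absurd (anti_zero_of_lt h hc) hc0

end Pool.Agent.XP
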