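import Pool.Agent.F057.Core

/-!
MODULE Real (size 5).
Proof. `V = EuclideanSpace ℂ (Fin n)`, `A z i j = ∑ k l, α i j k l * z k * conj (z l)`: a Hermitian
matrix (by `hα`) of homogeneous real polynomials of degree 2, `H z = 1 - A z + A z * A z`. It is
positive definite: for a Hermitian `A`, `1 - A + A² = (A - 1/2)² + 3/4`. The metric on the trivial
bundle: `form z a b = ∑ i j, conj (x i) * H z i j * y j`, `x`, `y` the coordinates of `a`, `b` in
`Module.finBasis ℂ F`. The trivialisation of `Bundle.Trivial V F` at any point is the identity and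
the chart of `V` is the identity, so `gram ... z = H z` (part of the claim: `H 0 = 1`).
`curv` at `0`: all first derivatives of the entries of `H` vanish at `0`, and
`∂_v ∂_v̄ (H i j) (0) = -∑ α i j k l v k conj (v l)`: use `dz`, `dzbar` of `z k` (`= v k`, `0`), of
`conj (z l)` (`= 0`, `conj (v l)`), and the product rule `dz_dzbar_mul` (F057/Core) for
`z k * conj (z l)`, and for the entries of `A * A` (both factors and all their first derivatives
vanish at `0`).
-/

open scoped ComplexConjugate Manifold ContDiff Bundle ComplexOrder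
open Complex Matrix

namespace Pool.Agent.XP

open Pool.Agent.F057

section Aux

variable {V : Type*} [NormedAddCommGroup V] [NormedSpace ℂ V]

private theorem real_dz_sum {κ : Type*} (s : Finset κ) (f : κ → V → ℂ) {v z : V}
    (hf : ∀ i ∈ s, DifferentiableAt ℝ (f i) z) :
    dz (fun y => ∑ i ∈ s, f i y) v z = ∑ i ∈ s, dz (f i) v z := by
  unfold dz
  rw [fderiv_fun_sum hf]
  simp only [_root_.sum_apply, Finset.mul_sum, ← Finset.sum_sub_distrib,
    ← Finset.sum_div]

private theorem real_dzbar_sum {κ : Type*} (s : Finset κ) (f : κ → V → ℂ) {v z : V}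
    (hf : ∀ i ∈ s, DifferentiableAt ℝ (f i) z) :
    dzbar (fun y => ∑ i ∈ s, f i y) v z = ∑ i ∈ s, dzbar (f i) v z := by
  unfold dzbar
  rw [fderiv_fun_sum hf]
  simp only [_root_.sum_apply, Finset.mul_sum, ← Finset.sum_add_distrib,
    ← Finset.sum_div]

private theorem real_dzbar_add {u w : V → ℂ} {v z : V} (hu : DifferentiableAt ℝ u z)
    (hw : DifferentiableAt ℝ w z) :
    dzbar (fun y => u y + w y) v z = dzbar u v z + dzbar w v z := by
  unfold dzbar
  have h : fderiv ℝ (fun y => u y + w y) z = fderiv ℝ u z + fderiv ℝ w z :=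
    fderiv_add hu hw
  rw [h]
  simp only [_root_.add_apply]
  ring

private theorem real_dz_const (c : ℂ) (v z : V) : dz (fun _ => c) v z = 0 := by
  unfold dz
  simp

private theorem real_dzbar_const (c : ℂ) (v z : V) : dzbar (fun _ => c) v z = 0 := by
  unfold dzbar
  simp

variable {n : ℕ}

private theorem real_cd (k : Fin n) :
    ContDiff ℝ ∞ (fun z : EuclideanSpace ℂ (Fin n) => z k) := by
  have h : ContDiff ℂ ∞ (fun z : EuclideanSpace ℂ (Fin n) => z k) :=
    (EuclideanSpace.proj k : EuclideanSpace ℂ (Fin n) →L[ℂ] ℂ).contDiff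
  exact h.restrict_scalars ℝ

private theorem real_cdc (k : Fin n) :
    ContDiff ℝ ∞ (fun z : EuclideanSpace ℂ (Fin n) => (starRingEnd ℂ) (z k)) := by
  exact Complex.conjCLE.contDiff.comp (real_cd k)

private theorem real_fd (k : Fin n) (z v : EuclideanSpace ℂ (Fin n)) :
    fderiv ℝ (fun z : EuclideanSpace ℂ (Fin n) => z k) z v = v k := by
  have h : HasFDerivAt (fun z : EuclideanSpace ℂ (Fin n) => z k)
      ((EuclideanSpace.proj k : EuclideanSpace ℂ (Fin n) →L[ℂ] ℂ).restrictScalars ℝ) z :=
    (EuclideanSpace.proj k : EuclideanSpace ℂ (Fin n) →L[ℂ] ℂ).hasFDerivAt.restrictScalars ℝ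
  rw [h.fderiv]
  rfl

private theorem real_fdc (k : Fin n) (z v : EuclideanSpace ℂ (Fin n)) :
    fderiv ℝ (fun z : EuclideanSpace ℂ (Fin n) => (starRingEnd ℂ) (z k)) z v = (starRingEnd ℂ) (v k) := by
  have h : HasFDerivAt (fun z : EuclideanSpace ℂ (Fin n) => z k)
      ((EuclideanSpace.proj k : EuclideanSpace ℂ (Fin n) →L[ℂ] ℂ).restrictScalars ℝ) z :=
    (EuclideanSpace.proj k : EuclideanSpace ℂ (Fin n) →L[ℂ] ℂ).hasFDerivAt.restrictScalars ℝ
  have h2 := (Complex.conjCLE : ℂ ≃L[ℝ] ℂ).hasFDerivAt (x := z k)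
  have h3 := h2.comp z h
  have h4 : fderiv ℝ (fun z : EuclideanSpace ℂ (Fin n) => (starRingEnd ℂ) (z k)) z = _ := h3.fderiv
  rw [h4]
  rfl

private theorem real_dz_c (k : Fin n) (v z : EuclideanSpace ℂ (Fin n)) :
    dz (fun z : EuclideanSpace ℂ (Fin n) => z k) v z = v k := by
  unfold dz
  rw [real_fd, real_fd]
  simp only [PiLp.smul_apply, smul_eq_mul]
  linear_combination (-(v k) / 2) * I_mul_I

private theorem real_dzbar_c (k : Fin n) (v z : EuclideanSpace ℂ (Fin n)) :
    dzbar (fun z : EuclideanSpace ℂ (Fin n) => z k) v z = 0 := by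
  unfold dzbar
  rw [real_fd, real_fd]
  simp only [PiLp.smul_apply, smul_eq_mul]
  linear_combination ((v k) / 2) * I_mul_I

private theorem real_dz_cc (k : Fin n) (v z : EuclideanSpace ℂ (Fin n)) :
    dz (fun z : EuclideanSpace ℂ (Fin n) => (starRingEnd ℂ) (z k)) v z = 0 := by
  unfold dz
  rw [real_fdc, real_fdc]
  simp only [PiLp.smul_apply, smul_eq_mul, map_mul, conj_I]
  linear_combination ((starRingEnd ℂ) (v k) / 2) * I_mul_I

private theorem real_dzbar_cc (k : Fin n) (v z : EuclideanSpace ℂ (Fin n)) :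
    dzbar (fun z : EuclideanSpace ℂ (Fin n) => (starRingEnd ℂ) (z k)) v z = (starRingEnd ℂ) (v k) := by
  unfold dzbar
  rw [real_fdc, real_fdc]
  simp only [PiLp.smul_apply, smul_eq_mul, map_mul, conj_I]
  linear_combination (-((starRingEnd ℂ) (v k)) / 2) * I_mul_I

end Aux

/-- the quadratic part -/
private noncomputable def rA {n d : ℕ} (α : Fin d → Fin d → Fin n → Fin n → ℂ)
    (z : EuclideanSpace ℂ (Fin n)) : Matrix (Fin d) (Fin d) ℂ :=
  Matrix.of fun i j => ∑ k, ∑ l, α i j k l * (z k * (starRingEnd ℂ) (z l))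

private noncomputable def rH {n d : ℕ} (α : Fin d → Fin d → Fin n → Fin n → ℂ)
    (z : EuclideanSpace ℂ (Fin n)) : Matrix (Fin d) (Fin d) ℂ :=
  1 - rA α z + rA α z * rA α z

section

variable {n d : ℕ} {α : Fin d → Fin d → Fin n → Fin n → ℂ}

private theorem rA_herm (hα : ∀ i j k l, conj (α i j k l) = α j i l k)
    (z : EuclideanSpace ℂ (Fin n)) : (rA α z)ᴴ = rA α z := by
  ext i j
  rw [Matrix.conjTranspose_apply]
  simp only [rA, Matrix.of_apply]
  rw [show (star (∑ k, ∑ l, α j i k l * (z k * (starRingEnd ℂ) (z l))) : ℂ) =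
    conj (∑ k, ∑ l, α j i k l * (z k * (starRingEnd ℂ) (z l))) from rfl]
  simp only [map_sum, map_mul, hα, Complex.conj_conj]
  rw [Finset.sum_comm]
  refine Finset.sum_congr rfl fun k _ => Finset.sum_congr rfl fun l _ => ?_
  ring

private theorem rH_posDef (hα : ∀ i j k l, conj (α i j k l) = α j i l k)
    (z : EuclideanSpace ℂ (Fin n)) : (rH α z).PosDef := by
  have h1 : rH α z = (rA α z - (1 / 2 : ℂ) • 1)ᴴ * (rA α z - (1 / 2 : ℂ) • 1)
      + ((3 / 4 : ℝ) : ℂ) • (1 : Matrix (Fin d) (Fin d) ℂ) := by
    rw [Matrix.conjTranspose_sub, rA_herm hα, Matrix.conjTranspose_smul,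
      Matrix.conjTranspose_one]
    have e1 : (star (1 / 2 : ℂ)) = 1 / 2 := by
      rw [show (1 / 2 : ℂ) = ((1 / 2 : ℝ) : ℂ) by push_cast; rfl]
      exact Complex.conj_ofReal _
    rw [e1]
    simp only [sub_mul, mul_sub, Matrix.smul_mul, Matrix.mul_smul, Matrix.one_mul, Matrix.mul_one,
      smul_smul, rH]
    ext i j
    simp only [Matrix.add_apply, Matrix.sub_apply, Matrix.smul_apply, smul_eq_mul]
    push_cast
    ring
  rw [h1]
  refine Matrix.PosDef.posSemidef_add (Matrix.posSemidef_conjTranspose_mul_self _) ?_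
  refine Matrix.PosDef.smul Matrix.PosDef.one ?_
  rw [Complex.pos_iff]
  constructor
  · norm_num
  · simp

private theorem rA_cd (i j : Fin d) :
    ContDiff ℝ ∞ (fun z : EuclideanSpace ℂ (Fin n) => rA α z i j) := by
  simp only [rA, Matrix.of_apply]
  refine ContDiff.sum fun k _ => ContDiff.sum fun l _ => ?_
  exact contDiff_const.mul ((real_cd k).mul (real_cdc l))

private theorem rH_apply (z : EuclideanSpace ℂ (Fin n)) (i j : Fin d) :
    rH α z i j = (1 : Matrix (Fin d) (Fin d) ℂ) i j + (-1) * rA α z i j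
      + ∑ m, rA α z i m * rA α z m j := by
  simp only [rH, Matrix.add_apply, Matrix.sub_apply, Matrix.mul_apply]
  ring

private theorem rH_cd (i j : Fin d) :
    ContDiff ℝ ∞ (fun z : EuclideanSpace ℂ (Fin n) => rH α z i j) := by
  simp only [rH_apply]
  refine (contDiff_const.add (contDiff_const.mul (rA_cd i j))).add ?_
  exact ContDiff.sum fun m _ => (rA_cd i m).mul (rA_cd m j)

private theorem rA_zero : rA α (0 : EuclideanSpace ℂ (Fin n)) = 0 := by
  ext i j
  simp [rA]

private theorem rH_zero : rH α (0 : EuclideanSpace ℂ (Fin n)) = 1 := by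
  simp [rH, rA_zero]

private theorem rA_dzbar (i j : Fin d) (v z : EuclideanSpace ℂ (Fin n)) :
    dzbar (fun w => rA α w i j) v z = ∑ k, ∑ l, α i j k l * (z k * (starRingEnd ℂ) (v l)) := by
  simp only [rA, Matrix.of_apply]
  have d1 : ∀ k : Fin n, DifferentiableAt ℝ (fun w : EuclideanSpace ℂ (Fin n) => w k) z :=
    fun k => (real_cd k).differentiable (by simp) z
  have d2 : ∀ k : Fin n, DifferentiableAt ℝ (fun w : EuclideanSpace ℂ (Fin n) => (starRingEnd ℂ) (w k)) z :=
    fun k => (real_cdc k).differentiable (by simp) z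
  rw [real_dzbar_sum]
  · refine Finset.sum_congr rfl fun k _ => ?_
    rw [real_dzbar_sum]
    · refine Finset.sum_congr rfl fun l _ => ?_
      rw [dzbar_mul (differentiableAt_const _) ((d1 k).fun_mul (d2 l)), dzbar_mul (d1 k) (d2 l),
        real_dzbar_const, real_dzbar_c, real_dzbar_cc]
      ring
    · intro l _
      exact (differentiableAt_const _).fun_mul ((d1 k).fun_mul (d2 l))
  · intro k _
    exact DifferentiableAt.fun_sum fun l _ => (differentiableAt_const _).fun_mul ((d1 k).fun_mul (d2 l))

private theorem rA_dz (i j : Fin d) (v z : EuclideanSpace ℂ (Fin n)) :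
    dz (fun w => rA α w i j) v z = ∑ k, ∑ l, α i j k l * (v k * (starRingEnd ℂ) (z l)) := by
  simp only [rA, Matrix.of_apply]
  have d1 : ∀ k : Fin n, DifferentiableAt ℝ (fun w : EuclideanSpace ℂ (Fin n) => w k) z :=
    fun k => (real_cd k).differentiable (by simp) z
  have d2 : ∀ k : Fin n, DifferentiableAt ℝ (fun w : EuclideanSpace ℂ (Fin n) => (starRingEnd ℂ) (w k)) z :=
    fun k => (real_cdc k).differentiable (by simp) z
  rw [real_dz_sum]
  · refine Finset.sum_congr rfl fun k _ => ?_
    rw [real_dz_sum]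
    · refine Finset.sum_congr rfl fun l _ => ?_
      rw [dz_mul (differentiableAt_const _) ((d1 k).fun_mul (d2 l)), dz_mul (d1 k) (d2 l),
        real_dz_const, real_dz_c, real_dz_cc]
      ring
    · intro l _
      exact (differentiableAt_const _).fun_mul ((d1 k).fun_mul (d2 l))
  · intro k _
    exact DifferentiableAt.fun_sum fun l _ => (differentiableAt_const _).fun_mul ((d1 k).fun_mul (d2 l))

private theorem rA_dz_dzbar (i j : Fin d) (v : EuclideanSpace ℂ (Fin n)) :
    dz (fun w => dzbar (fun w' => rA α w' i j) v w) v 0 =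
      ∑ k, ∑ l, α i j k l * v k * (starRingEnd ℂ) (v l) := by
  have h1 : (fun w => dzbar (fun w' => rA α w' i j) v w) =
      fun z : EuclideanSpace ℂ (Fin n) => ∑ k, ∑ l, α i j k l * (z k * (starRingEnd ℂ) (v l)) := by
    funext z
    exact rA_dzbar i j v z
  have d1 : ∀ k : Fin n, DifferentiableAt ℝ (fun w : EuclideanSpace ℂ (Fin n) => w k) 0 :=
    fun k => (real_cd k).differentiable (by simp) 0
  rw [h1, real_dz_sum]
  · refine Finset.sum_congr rfl fun k _ => ?_
    rw [real_dz_sum]
    · refine Finset.sum_congr rfl fun l _ => ?_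
      rw [dz_mul (differentiableAt_const _) ((d1 k).fun_mul (differentiableAt_const _)),
        dz_mul (d1 k) (differentiableAt_const _),
        real_dz_const, real_dz_c, real_dz_const]
      ring
    · intro l _
      exact (differentiableAt_const _).fun_mul ((d1 k).fun_mul (differentiableAt_const _))
  · intro k _
    exact DifferentiableAt.fun_sum fun l _ =>
      (differentiableAt_const _).fun_mul ((d1 k).fun_mul (differentiableAt_const _))

end

private noncomputable def rForm (F : Type*) [NormedAddCommGroup F] [NormedSpace ℂ F]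
    [FiniteDimensional ℂ F] {n : ℕ}
    (α : Fin (Module.finrank ℂ F) → Fin (Module.finrank ℂ F) → Fin n → Fin n → ℂ)
    (x : EuclideanSpace ℂ (Fin n)) : F →ₗ⋆[ℂ] F →ₗ[ℂ] ℂ :=
  LinearMap.mk₂'ₛₗ (starRingEnd ℂ) (RingHom.id ℂ)
    (fun a b => sq (rH α x) (fun i => (Module.finBasis ℂ F).repr a i)
      (fun i => (Module.finBasis ℂ F).repr b i))
    (by
      intro a a' b
      simp only [F057.sq, map_add, Finsupp.add_apply, add_mul, Finset.sum_add_distrib])
    (by
      intro c a b
      simp only [F057.sq, map_smul, Finsupp.smul_apply, smul_eq_mul, map_mul, Finset.mul_sum]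
      refine Finset.sum_congr rfl fun i _ => Finset.sum_congr rfl fun j _ => ?_
      ring)
    (by
      intro a b b'
      simp only [F057.sq, map_add, Finsupp.add_apply, mul_add, Finset.sum_add_distrib])
    (by
      intro c a b
      simp only [F057.sq, map_smul, Finsupp.smul_apply, smul_eq_mul, Finset.mul_sum, RingHom.id_apply]
      refine Finset.sum_congr rfl fun i _ => Finset.sum_congr rfl fun j _ => ?_
      ring)

private theorem rForm_apply (F : Type*) [NormedAddCommGroup F] [NormedSpace ℂ F]
    [FiniteDimensional ℂ F] {n : ℕ}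
    (α : Fin (Module.finrank ℂ F) → Fin (Module.finrank ℂ F) → Fin n → Fin n → ℂ)
    (x : EuclideanSpace ℂ (Fin n)) (a b : F) :
    rForm F α x a b = sq (rH α x) (fun i => (Module.finBasis ℂ F).repr a i)
      (fun i => (Module.finBasis ℂ F).repr b i) := rfl

private theorem rGram (F : Type*) [NormedAddCommGroup F] [NormedSpace ℂ F]
    [FiniteDimensional ℂ F] {n : ℕ}
    (α : Fin (Module.finrank ℂ F) → Fin (Module.finrank ℂ F) → Fin n → Fin n → ℂ)
    (q z : EuclideanSpace ℂ (Fin n)) :
    gram F (Bundle.Trivial (EuclideanSpace ℂ (Fin n)) F) (rForm F α) q z = rH α z := by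
  ext i j
  simp only [F057.gram, Matrix.of_apply]
  rw [extChartAt_model_space_eq_id]
  simp only [PartialEquiv.refl_symm, PartialEquiv.refl_coe, id_eq]
  have e1 : ∀ f : F, (trivializationAt F (Bundle.Trivial (EuclideanSpace ℂ (Fin n)) F) q).symm z f
      = f := fun f => Bundle.Trivial.trivialization_symm_apply _ _ z f
  rw [e1, e1]
  show rForm F α z (Module.finBasis ℂ F i) (Module.finBasis ℂ F j) = _
  rw [rForm_apply]
  simp only [F057.sq, Module.Basis.repr_self, Finsupp.single_apply]
  rw [Finset.sum_eq_single i, Finset.sum_eq_single j]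
  · simp
  · intro b _ hb
    simp [Ne.symm hb]
  · simp
  · intro b _ hb
    simp [Ne.symm hb]
  · simp

private theorem rFirst {n d : ℕ} {α : Fin d → Fin d → Fin n → Fin n → ℂ} (i j : Fin d)
    (v : EuclideanSpace ℂ (Fin n)) : dz (fun w => rH α w i j) v 0 = 0 := by
  simp only [rH_apply]
  have dA : ∀ i j, DifferentiableAt ℝ (fun w : EuclideanSpace ℂ (Fin n) => rA α w i j) 0 :=
    fun i j => (rA_cd i j).differentiable (by simp) 0
  have zA : ∀ i j, dz (fun w : EuclideanSpace ℂ (Fin n) => rA α w i j) v 0 = 0 := by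
    intro i j
    rw [rA_dz]
    simp
  rw [dz_add ((differentiableAt_const _).fun_add ((differentiableAt_const _).fun_mul (dA i j)))
    (DifferentiableAt.fun_sum fun m _ => (dA i m).fun_mul (dA m j)),
    dz_add (differentiableAt_const _) ((differentiableAt_const _).fun_mul (dA i j)),
    dz_mul (differentiableAt_const _) (dA i j), real_dz_const, real_dz_const, zA,
    real_dz_sum _ _ (fun m _ => (dA i m).fun_mul (dA m j))]
  rw [Finset.sum_eq_zero]
  · ring
  · intro m _
    rw [dz_mul (dA i m) (dA m j), zA, zA]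
    ring

private theorem rFirst' {n d : ℕ} {α : Fin d → Fin d → Fin n → Fin n → ℂ} (i j : Fin d)
    (v : EuclideanSpace ℂ (Fin n)) : dzbar (fun w => rH α w i j) v 0 = 0 := by
  simp only [rH_apply]
  have dA : ∀ i j, DifferentiableAt ℝ (fun w : EuclideanSpace ℂ (Fin n) => rA α w i j) 0 :=
    fun i j => (rA_cd i j).differentiable (by simp) 0
  have zA : ∀ i j, dzbar (fun w : EuclideanSpace ℂ (Fin n) => rA α w i j) v 0 = 0 := by
    intro i j
    rw [rA_dzbar]
    simp
  rw [real_dzbar_add ((differentiableAt_const _).fun_add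
      ((differentiableAt_const _).fun_mul (dA i j)))
    (DifferentiableAt.fun_sum fun m _ => (dA i m).fun_mul (dA m j)),
    real_dzbar_add (differentiableAt_const _) ((differentiableAt_const _).fun_mul (dA i j)),
    dzbar_mul (differentiableAt_const _) (dA i j), real_dzbar_const, real_dzbar_const, zA,
    real_dzbar_sum _ _ (fun m _ => (dA i m).fun_mul (dA m j))]
  rw [Finset.sum_eq_zero]
  · ring
  · intro m _
    rw [dzbar_mul (dA i m) (dA m j), zA, zA]
    ring

private theorem rSecond {n d : ℕ} {α : Fin d → Fin d → Fin n → Fin n → ℂ} (i j : Fin d)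
    (v : EuclideanSpace ℂ (Fin n)) :
    dz (fun w => dzbar (fun w' => rH α w' i j) v w) v 0 =
      -∑ k, ∑ l, α i j k l * v k * conj (v l) := by
  have cA : ∀ i j z, ContDiffAt ℝ 2 (fun w : EuclideanSpace ℂ (Fin n) => rA α w i j) z :=
    fun i j z => ((rA_cd i j).of_le ENat.LEInfty.out).contDiffAt
  have dA : ∀ i j z, DifferentiableAt ℝ (fun w : EuclideanSpace ℂ (Fin n) => rA α w i j) z :=
    fun i j z => (rA_cd i j).differentiable (by simp) z
  have zA : ∀ i j, dz (fun w : EuclideanSpace ℂ (Fin n) => rA α w i j) v 0 = 0 := by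
    intro i j
    rw [rA_dz]
    simp
  have zA' : ∀ i j, dzbar (fun w : EuclideanSpace ℂ (Fin n) => rA α w i j) v 0 = 0 := by
    intro i j
    rw [rA_dzbar]
    simp
  have h1 : (fun w => dzbar (fun w' => rH α w' i j) v w) =
      fun z : EuclideanSpace ℂ (Fin n) => (-1) * dzbar (fun w' => rA α w' i j) v z
        + ∑ m, dzbar (fun w' => rA α w' i m * rA α w' m j) v z := by
    funext z
    simp only [rH_apply]
    rw [real_dzbar_add ((differentiableAt_const _).fun_add
        ((differentiableAt_const _).fun_mul (dA i j z)))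
      (DifferentiableAt.fun_sum fun m _ => (dA i m z).fun_mul (dA m j z)),
      real_dzbar_add (differentiableAt_const _) ((differentiableAt_const _).fun_mul (dA i j z)),
      dzbar_mul (differentiableAt_const _) (dA i j z), real_dzbar_const, real_dzbar_const,
      real_dzbar_sum _ _ (fun m _ => (dA i m z).fun_mul (dA m j z))]
    ring
  have e1 : DifferentiableAt ℝ (fun z => dzbar (fun w' => rA α w' i j) v z)
      (0 : EuclideanSpace ℂ (Fin n)) := differentiableAt_dzbar (cA i j 0)
  have e2 : ∀ m, DifferentiableAt ℝ (fun z => dzbar (fun w' => rA α w' i m * rA α w' m j) v z)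
      (0 : EuclideanSpace ℂ (Fin n)) := fun m =>
    differentiableAt_dzbar ((cA i m 0).mul (cA m j 0))
  rw [h1, dz_add ((differentiableAt_const _).fun_mul e1)
    (DifferentiableAt.fun_sum fun m _ => e2 m),
    dz_mul (differentiableAt_const _) e1, real_dz_const, rA_dz_dzbar,
    real_dz_sum _ _ (fun m _ => e2 m)]
  have h2 : ∑ m, dz (fun z : EuclideanSpace ℂ (Fin n) =>
      dzbar (fun w' => rA α w' i m * rA α w' m j) v z) v 0 = 0 := by
    refine Finset.sum_eq_zero fun m _ => ?_
    rw [dz_dzbar_mul (cA i m 0) (cA m j 0), zA, zA', zA', rA_zero]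
    simp
  rw [h2]
  ring

theorem realise (n : ℕ) (F : Type*) [NormedAddCommGroup F] [NormedSpace ℂ F]
    [FiniteDimensional ℂ F]
    (α : Fin (Module.finrank ℂ F) → Fin (Module.finrank ℂ F) → Fin n → Fin n → ℂ)
    (hα : ∀ i j k l, conj (α i j k l) = α j i l k) :
    ∃ h : HermMetric (EuclideanSpace ℂ (Fin n)) F
        (Bundle.Trivial (EuclideanSpace ℂ (Fin n)) F),
      (∀ i j, ContDiffAt ℝ 2 (fun w : EuclideanSpace ℂ (Fin n) =>
        gram F (Bundle.Trivial (EuclideanSpace ℂ (Fin n)) F) h.form 0 w i j)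
        (extChartAt 𝓘(ℂ, EuclideanSpace ℂ (Fin n)) (0 : EuclideanSpace ℂ (Fin n)) 0)) ∧
      gram F (Bundle.Trivial (EuclideanSpace ℂ (Fin n)) F) h.form 0
        (extChartAt 𝓘(ℂ, EuclideanSpace ℂ (Fin n)) (0 : EuclideanSpace ℂ (Fin n)) 0) = 1 ∧
      ∀ v : EuclideanSpace ℂ (Fin n),
        curv (gram F (Bundle.Trivial (EuclideanSpace ℂ (Fin n)) F) h.form 0)
          (extChartAt 𝓘(ℂ, EuclideanSpace ℂ (Fin n)) (0 : EuclideanSpace ℂ (Fin n)) 0) v =
          Matrix.of fun i j => ∑ k, ∑ l, α i j k l * v k * conj (v l) := by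
  set V := EuclideanSpace ℂ (Fin n) with hV
  have e0 : extChartAt 𝓘(ℂ, V) (0 : V) 0 = 0 := by
    rw [extChartAt_model_space_eq_id]
    rfl
  have hg : ∀ q : V, F057.gram F (Bundle.Trivial V F) (rForm F α) q = rH α := fun q =>
    funext fun z => rGram F α q z
  let h : HermMetric V F (Bundle.Trivial V F) :=
    { form := rForm F α
      symm := by
        intro x a b
        show rForm F α x b a = conj (rForm F α x a b)
        rw [rForm_apply, rForm_apply]
        simp only [F057.sq, map_sum, map_mul, Complex.conj_conj]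
        rw [Finset.sum_comm]
        refine Finset.sum_congr rfl fun i _ => Finset.sum_congr rfl fun j _ => ?_
        have h1 : conj (rH α x i j) = rH α x j i := by
          have h2 := congrFun (congrFun (rH_posDef hα x).isHermitian i) j
          rw [Matrix.conjTranspose_apply] at h2
          have h3 : conj (rH α x j i) = rH α x i j := h2
          rw [← h3, Complex.conj_conj]
        rw [h1]
        ring
      pos := by
        intro x a ha
        show 0 < (rForm F α x a a).re
        rw [rForm_apply]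
        have hx : (fun i => (Module.finBasis ℂ F).repr a i) ≠ 0 := by
          intro h0
          apply ha
          have : (Module.finBasis ℂ F).repr a = 0 := by
            ext i
            exact congrFun h0 i
          simpa using this
        have h1 := (rH_posDef hα x).dotProduct_mulVec_pos hx
        have h2 : F057.sq (rH α x) (fun i => (Module.finBasis ℂ F).repr a i)
            (fun i => (Module.finBasis ℂ F).repr a i) =
            star (fun i => (Module.finBasis ℂ F).repr a i) ⬝ᵥ
              (rH α x) *ᵥ (fun i => (Module.finBasis ℂ F).repr a i) := by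
          simp only [F057.sq, dotProduct, Matrix.mulVec, Finset.mul_sum, Pi.star_apply]
          refine Finset.sum_congr rfl fun i _ => Finset.sum_congr rfl fun j _ => ?_
          rw [mul_assoc]
          rfl
        rw [h2]
        exact (Complex.pos_iff.1 h1).1
      smooth := by
        intro q i j
        rw [hg]
        exact (rH_cd i j).contDiffOn }
  refine ⟨h, ?_, ?_, ?_⟩
  · intro i j
    show ContDiffAt ℝ 2 (fun w : V => F057.gram F (Bundle.Trivial V F) (rForm F α) 0 w i j) _
    rw [hg]
    exact ((rH_cd i j).of_le ENat.LEInfty.out).contDiffAt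
  · show F057.gram F (Bundle.Trivial V F) (rForm F α) 0 _ = 1
    rw [hg, e0]
    exact rH_zero
  · intro v
    show curv (F057.gram F (Bundle.Trivial V F) (rForm F α) 0) _ v = _
    rw [hg, e0]
    ext i j
    simp only [curv, Matrix.sub_apply, Matrix.of_apply, rSecond]
    rw [Matrix.mul_apply, Finset.sum_eq_zero]
    · ring
    · intro k _
      rw [Matrix.of_apply, rFirst, mul_zero]

end Pool.Agent.XP
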