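import Pool.Agent.XP.Dens

/-!
MODULE Restr (size 3).
Proof. `c' J = c (fun k => Fin.castLE hmn (J k))`. By `dens_diag` and `h2`, `c I = 0` as soon as
some `I k` has `m ≤ (I k).val`; so all sums over `Fin p → Fin n` which contain `c I` or
`c (update I k j)` restrict to the tuples in the first `m` indices: `dens c' i j = dens c (castLE i)
(castLE j)`, and `c' ≠ 0`.
-/

open scoped ComplexConjugate
open Complex

namespace Pool.Agent.XP

theorem restrict {n m p : ℕ} (hmn : m ≤ n) {c : (Fin p → Fin n) → ℂ} (hc0 : c ≠ 0)
    (hc : Anti c) {t : ℝ}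
    (h1 : ∀ i j : Fin n, i.val < m → j.val < m → dens c i j = if i = j then (t : ℂ) else 0)
    (h2 : ∀ i : Fin n, m ≤ i.val → dens c i i = 0) :
    ∃ c' : (Fin p → Fin m) → ℂ, c' ≠ 0 ∧ Anti c' ∧
      ∀ i j, dens c' i j = if i = j then (t : ℂ) else 0 := by
  classical
  -- c vanishes as soon as an index is outside
  have hz : ∀ I : Fin p → Fin n, (∃ k, m ≤ (I k).val) → c I = 0 := by
    rintro I ⟨k, hk⟩
    have h := h2 (I k) hk
    rw [dens_diag] at h
    have h' : (∑ k' : Fin p, ∑ J : Fin p → Fin n,
        if J k' = I k then normSq (c J) else 0 : ℝ) = 0 := by exact_mod_cast h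
    have hnn : ∀ k' : Fin p, ∀ J : Fin p → Fin n,
        0 ≤ (if J k' = I k then normSq (c J) else 0 : ℝ) := by
      intro k' J
      split_ifs
      · exact normSq_nonneg _
      · exact le_rfl
    have h3 := (Finset.sum_eq_zero_iff_of_nonneg
      (fun k' _ => Finset.sum_nonneg fun J _ => hnn k' J)).1 h' k (Finset.mem_univ k)
    have h4 := (Finset.sum_eq_zero_iff_of_nonneg (fun J _ => hnn k J)).1 h3 I (Finset.mem_univ I)
    rw [if_pos rfl] at h4
    exact normSq_eq_zero.1 h4
  obtain ⟨e, he⟩ : ∃ e : (Fin p → Fin m) → (Fin p → Fin n),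
      ∀ J k, e J k = Fin.castLE hmn (J k) := ⟨fun J k => Fin.castLE hmn (J k), fun _ _ => rfl⟩
  have hinj : Function.Injective e := by
    intro J J' h
    funext k
    have := congrFun h k
    rw [he, he] at this
    exact Fin.castLE_injective hmn this
  have hrange : ∀ I : Fin p → Fin n, (∀ k, (I k).val < m) → ∃ J, e J = I := by
    intro I hI
    refine ⟨fun k => ⟨(I k).val, hI k⟩, ?_⟩
    funext k
    rw [he]
    ext
    rfl
  refine ⟨fun J => c (e J), ?_, ?_, ?_⟩
  · intro h
    apply hc0
    funext I
    by_cases hI : ∃ k, m ≤ (I k).val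
    · rw [hz I hI]
      rfl
    · push Not at hI
      obtain ⟨J, rfl⟩ := hrange I hI
      exact congrFun h J
  · intro σ J
    have : e (J ∘ σ) = e J ∘ σ := by
      funext k
      rw [he, Function.comp, Function.comp, he]
    show c (e (J ∘ σ)) = _ * c (e J)
    rw [this]
    exact hc σ (e J)
  · intro i j
    have h := h1 (Fin.castLE hmn i) (Fin.castLE hmn j) i.2 j.2
    have hij : (Fin.castLE hmn i = Fin.castLE hmn j) ↔ i = j :=
      (Fin.castLE_injective hmn).eq_iff
    simp only [hij] at h
    rw [← h]
    unfold dens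
    refine Finset.sum_congr rfl fun k _ => ?_
    rw [← Finset.sum_subset (Finset.subset_univ (Finset.univ.image e))]
    · rw [Finset.sum_image (fun a _ b _ hab => hinj hab)]
      refine Finset.sum_congr rfl fun J _ => ?_
      have h5 : (e J k = Fin.castLE hmn i) ↔ J k = i := by
        rw [he]
        exact (Fin.castLE_injective hmn).eq_iff
      have h6 : e (Function.update J k j) = Function.update (e J) k (Fin.castLE hmn j) := by
        funext k'
        rw [he]
        by_cases hk : k' = k
        · subst hk
          rw [Function.update_self, Function.update_self]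
        · rw [Function.update_of_ne hk, Function.update_of_ne hk, he]
      by_cases h7 : J k = i
      · rw [if_pos h7, if_pos (h5.2 h7), ← h6]
      · rw [if_neg h7, if_neg (fun h8 => h7 (h5.1 h8))]
    · intro I _ hI
      have hI' : ∃ k', m ≤ (I k').val := by
        by_contra hcon
        push Not at hcon
        obtain ⟨J, hJ⟩ := hrange I hcon
        exact hI (Finset.mem_image.2 ⟨J, Finset.mem_univ _, hJ⟩)
      rw [hz I hI']
      simp

end Pool.Agent.XP
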