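import Pool.Agent.XP.Dens

/-!
MODULE SepC (size 4).
Proof of `sep_crit`. Let `T = {i | 0 < lam i}`, `m = msize lam = |T| ≥ 1`, `P i j = dens c i j`
(Hermitian by `dens_conj`, diagonal real and nonnegative), `G i j = P i j / (sqrt (lam i) sqrt (lam j))`
for `i, j ∈ T`, `g = ∑ i ∈ T, (G i i).re`, `τ = ∑ i ∉ T, (P i i).re ≥ 0`. By `Q_eq_dens`
`(Q (fam lam v) c).re = m * (∑ i j ∈ T, v i conj (v j) G i j).re - N(v) * g + N(v) * τ`,
`N(v) = ∑ i ∈ T, |v i|^2`. With `v = e_i`, `i ∈ T`: `m * (G i i).re ≤ g - τ`; summing over `i ∈ T`:
`m g ≤ m (g - τ)`, so `τ = 0` (all `P i i`, `i ∉ T`, vanish), and `m (G i i).re ≤ g` with equal sums,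
so `(G i i).re = g / m` for all `i ∈ T`. With `v = e_i + ε e_j`, `|ε| = 1`, `i ≠ j ∈ T`:
`m (2 g / m + 2 (conj ε * G i j).re) ≤ 2 g`, so `(conj ε * G i j).re ≤ 0` for all `ε` with
`|ε| = 1` (`ε = 1, -1, I, -I` suffice), so `G i j = 0`. `t = g / m`.
`sep_zero`: `Q = ∑ i ∈ T, (m v_i conj v_i / lam i - N / lam i) * t * lam i = 0`.
-/

open scoped ComplexConjugate
open Complex

namespace Pool.Agent.XP

private theorem SepC_form {n p : ℕ} (lam : Fin n → ℝ) (c : (Fin p → Fin n) → ℂ)
    (x : Fin n → ℂ) (hx : ∀ i, ¬ 0 < lam i → x i = 0) :
    (Q (fam lam (fun i => ((Real.sqrt (lam i) : ℝ) : ℂ) * x i)) c).re =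
      (msize lam : ℝ) * (∑ i, ∑ j, x i * conj (x j) * dens c i j).re
      + (∑ i, if 0 < lam i then lam i * normSq (x i) else 0) *
        ((∑ i, if 0 < lam i then 0 else (dens c i i).re)
          - ∑ i, if 0 < lam i then (lam i)⁻¹ * (dens c i i).re else 0) := by
  have hnn : nn lam (fun i => ((Real.sqrt (lam i) : ℝ) : ℂ) * x i) =
      (((∑ i, if 0 < lam i then lam i * normSq (x i) else 0) : ℝ) : ℂ) := by
    unfold nn
    push_cast
    refine Finset.sum_congr rfl fun i _ => ?_
    split_ifs with h
    · have hs : ((Real.sqrt (lam i) : ℝ) : ℂ) * ((Real.sqrt (lam i) : ℝ) : ℂ) = (lam i : ℂ) := by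
        rw [← Complex.ofReal_mul, Real.mul_self_sqrt h.le]
      rw [map_mul, Complex.conj_ofReal, Complex.ofReal_mul, ← Complex.mul_conj]
      linear_combination (x i * conj (x i)) * hs
    · simp
  set N : ℝ := ∑ i, if 0 < lam i then lam i * normSq (x i) else 0 with hN
  have hfam : ∀ i j, fam lam (fun i => ((Real.sqrt (lam i) : ℝ) : ℂ) * x i) i j =
      (msize lam : ℂ) * (x i * conj (x j)) +
      (if i = j then (N : ℂ) * (if 0 < lam i then ((-(lam i)⁻¹ : ℝ) : ℂ) else 1) else 0) := by
    intro i j
    unfold fam
    rw [Matrix.of_apply, hnn]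
    congr 1
    by_cases hi : 0 < lam i
    · by_cases hj : 0 < lam j
      · rw [if_pos ⟨hi, hj⟩, map_mul, Complex.conj_ofReal]
        have h1 : ((Real.sqrt (lam i) : ℝ) : ℂ) ≠ 0 := by
          exact_mod_cast (Real.sqrt_pos.2 hi).ne'
        have h2 : ((Real.sqrt (lam j) : ℝ) : ℂ) ≠ 0 := by
          exact_mod_cast (Real.sqrt_pos.2 hj).ne'
        push_cast
        field_simp
      · rw [if_neg (fun h => hj h.2), hx j hj]
        simp
    · rw [if_neg (fun h => hi h.1), hx i hi]
      simp
  rw [Q_eq_dens]
  have h1 : (∑ i, ∑ j, fam lam (fun i => ((Real.sqrt (lam i) : ℝ) : ℂ) * x i) i j * dens c i j) =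
      (msize lam : ℂ) * (∑ i, ∑ j, x i * conj (x j) * dens c i j) +
      ∑ i, (N : ℂ) * (if 0 < lam i then ((-(lam i)⁻¹ : ℝ) : ℂ) else 1) * dens c i i := by
    rw [Finset.mul_sum, ← Finset.sum_add_distrib]
    refine Finset.sum_congr rfl fun i _ => ?_
    have : ∀ j, fam lam (fun i => ((Real.sqrt (lam i) : ℝ) : ℂ) * x i) i j * dens c i j =
        (msize lam : ℂ) * (x i * conj (x j) * dens c i j) +
        (if i = j then (N : ℂ) * (if 0 < lam i then ((-(lam i)⁻¹ : ℝ) : ℂ) else 1) * dens c i j
          else 0) := by
      intro j
      rw [hfam i j]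
      split_ifs <;> ring
    rw [Finset.sum_congr rfl fun j _ => this j, Finset.sum_add_distrib, ← Finset.mul_sum]
    congr 1
    rw [Finset.sum_ite_eq]
    simp
  rw [h1, Complex.add_re]
  congr 1
  · rw [show (msize lam : ℂ) = ((msize lam : ℝ) : ℂ) by push_cast; rfl, Complex.re_ofReal_mul]
  · rw [← Finset.sum_sub_distrib, Finset.mul_sum, Complex.re_sum]
    refine Finset.sum_congr rfl fun i _ => ?_
    split_ifs with h
    · rw [mul_assoc, Complex.re_ofReal_mul, Complex.re_ofReal_mul]
      ring
    · rw [mul_one, Complex.re_ofReal_mul]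
      ring

private theorem SepC_msize {n : ℕ} (lam : Fin n → ℝ) (a : ℝ) :
    (∑ i, if 0 < lam i then a else 0) = (msize lam : ℝ) * a := by
  classical
  rw [← Finset.sum_filter, Finset.sum_const, nsmul_eq_mul]
  unfold msize
  congr 1

theorem sep_crit {n p : ℕ} (lam : Fin n → ℝ) (hl : ∀ i, 0 ≤ lam i) (hpos : ∃ i, 0 < lam i)
    (c : (Fin p → Fin n) → ℂ) (h : ∀ v : Fin n → ℂ, (Q (fam lam v) c).re ≤ 0) :
    ∃ t : ℝ, (∀ i j, 0 < lam i → 0 < lam j →
        dens c i j = if i = j then ((t * lam i : ℝ) : ℂ) else 0) ∧
      ∀ i, lam i = 0 → dens c i i = 0 := by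
  classical
  set τ : ℝ := ∑ i, if 0 < lam i then 0 else (dens c i i).re with hτ
  set g : ℝ := ∑ i, if 0 < lam i then (lam i)⁻¹ * (dens c i i).re else 0 with hg
  set m : ℝ := (msize lam : ℝ) with hm
  have hmpos : 0 < m := by
    obtain ⟨i, hi⟩ := hpos
    have : (0 : ℝ) < ∑ i, if 0 < lam i then (1 : ℝ) else 0 := by
      refine Finset.sum_pos' (fun j _ => by split_ifs <;> norm_num) ⟨i, Finset.mem_univ _, ?_⟩
      rw [if_pos hi]; norm_num
    rw [SepC_msize, mul_one] at this
    exact this
  have key : ∀ x : Fin n → ℂ, (∀ i, ¬ 0 < lam i → x i = 0) →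
      m * (∑ i, ∑ j, x i * conj (x j) * dens c i j).re
      + (∑ i, if 0 < lam i then lam i * normSq (x i) else 0) * (τ - g) ≤ 0 := by
    intro x hx
    rw [← SepC_form lam c x hx]
    exact h _
  -- single vectors
  have hsing : ∀ a, 0 < lam a → m * (dens c a a).re + lam a * (τ - g) ≤ 0 := by
    intro a ha
    have := key (fun i => if i = a then 1 else 0) (fun i hi => by
      rw [if_neg]; rintro rfl; exact hi ha)
    have e1 : (∑ i, ∑ j, (if i = a then (1:ℂ) else 0) * conj (if j = a then (1:ℂ) else 0)
        * dens c i j) = dens c a a := by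
      rw [Finset.sum_eq_single a, Finset.sum_eq_single a]
      · simp
      · intro b _ hb; simp [hb]
      · simp
      · intro b _ hb; simp [hb]
      · simp
    have e2 : (∑ i, if 0 < lam i then lam i * normSq (if i = a then (1:ℂ) else 0) else 0)
        = lam a := by
      rw [Finset.sum_eq_single a]
      · simp [ha]
      · intro b _ hb; simp [hb]
      · simp
    rw [e1, e2] at this
    exact this
  have hτ0 : 0 ≤ τ := by
    refine Finset.sum_nonneg fun i _ => ?_
    split_ifs
    · exact le_refl _
    · exact dens_diag_re_nonneg c i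
  -- G_aa ≤ (g - τ)/m
  have hG : ∀ a, 0 < lam a → (lam a)⁻¹ * (dens c a a).re ≤ (g - τ) / m := by
    intro a ha
    rw [le_div_iff₀ hmpos]
    have h1 := hsing a ha
    have h2 : (lam a)⁻¹ * (m * (dens c a a).re + lam a * (τ - g)) ≤ 0 :=
      mul_nonpos_of_nonneg_of_nonpos (inv_nonneg.2 ha.le) h1
    have h3 : (lam a)⁻¹ * (lam a * (τ - g)) = τ - g := by field_simp
    nlinarith [h2, h3]
  have hsum : g ≤ g - τ := by
    have : g ≤ ∑ i, if 0 < lam i then (g - τ) / m else 0 := by
      rw [hg]
      refine Finset.sum_le_sum fun i _ => ?_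
      split_ifs with hi
      · exact hG i hi
      · exact le_refl _
    rw [SepC_msize] at this
    calc g ≤ m * ((g - τ) / m) := this
      _ = g - τ := by field_simp
  have hτz : τ = 0 := le_antisymm (by linarith) hτ0
  rw [hτz] at hG hsing key
  simp only [sub_zero, zero_sub] at hG hsing key
  have hGeq : ∀ a, 0 < lam a → (lam a)⁻¹ * (dens c a a).re = g / m := by
    intro a ha
    by_contra hne
    have hlt : (lam a)⁻¹ * (dens c a a).re < g / m := lt_of_le_of_ne (hG a ha) hne
    have : g < ∑ i, if 0 < lam i then g / m else 0 := by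
      conv_lhs => rw [hg]
      refine Finset.sum_lt_sum (fun i _ => ?_) ⟨a, Finset.mem_univ _, ?_⟩
      · split_ifs with hi
        · exact hG i hi
        · exact le_refl _
      · rw [if_pos ha, if_pos ha]; exact hlt
    rw [SepC_msize] at this
    have h2 : m * (g / m) = g := by field_simp
    rw [h2] at this
    exact lt_irrefl _ this
  have hdiag : ∀ a, 0 < lam a → (dens c a a).re = g / m * lam a := by
    intro a ha
    rw [← hGeq a ha]
    field_simp
  refine ⟨g / m, ?_, ?_⟩
  · intro a b ha hb
    split_ifs with hab
    · subst hab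
      apply Complex.ext
      · rw [hdiag a ha, Complex.ofReal_re]
      · rw [dens_diag_im, Complex.ofReal_im]
    · have hε : ∀ ε : ℂ, (conj ε * dens c a b).re ≤ 0 := by
        intro ε
        have := key (fun i => (if i = a then 1 else 0) + (if i = b then ε else 0)) (fun i hi => by
          rw [if_neg, if_neg, add_zero]
          · rintro rfl; exact hi hb
          · rintro rfl; exact hi ha)
        have e1 : (∑ i, ∑ j, ((if i = a then (1:ℂ) else 0) + (if i = b then ε else 0))
            * conj ((if j = a then (1:ℂ) else 0) + (if j = b then ε else 0))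
            * dens c i j) = dens c a a + conj ε * dens c a b + ε * dens c b a +
              ε * conj ε * dens c b b := by
          have inner : ∀ i, (∑ j, ((if i = a then (1:ℂ) else 0) + (if i = b then ε else 0))
            * conj ((if j = a then (1:ℂ) else 0) + (if j = b then ε else 0))
            * dens c i j) = ((if i = a then (1:ℂ) else 0) + (if i = b then ε else 0)) *
              (dens c i a + conj ε * dens c i b) := by
            intro i
            have : ∀ j, ((if i = a then (1:ℂ) else 0) + (if i = b then ε else 0))
              * conj ((if j = a then (1:ℂ) else 0) + (if j = b then ε else 0))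
              * dens c i j = ((if i = a then (1:ℂ) else 0) + (if i = b then ε else 0)) *
                ((if j = a then dens c i j else 0) + (if j = b then conj ε * dens c i j else 0)) := by
              intro j
              rw [map_add]
              by_cases h1 : j = a
              · have h2 : ¬ j = b := fun h => hab (h1.symm.trans h)
                rw [if_pos h1, if_neg h2, if_pos h1, if_neg h2]
                simp
              · by_cases h2 : j = b
                · rw [if_neg h1, if_pos h2, if_neg h1, if_pos h2]
                  simp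
                  ring
                · rw [if_neg h1, if_neg h2, if_neg h1, if_neg h2]
                  simp
            rw [Finset.sum_congr rfl fun j _ => this j, ← Finset.mul_sum, Finset.sum_add_distrib,
              Finset.sum_ite_eq', Finset.sum_ite_eq']
            simp
          rw [Finset.sum_congr rfl fun i _ => inner i]
          have : ∀ i, ((if i = a then (1:ℂ) else 0) + (if i = b then ε else 0)) *
              (dens c i a + conj ε * dens c i b) =
              (if i = a then (dens c i a + conj ε * dens c i b) else 0) +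
              (if i = b then ε * (dens c i a + conj ε * dens c i b) else 0) := by
            intro i
            split_ifs <;> ring
          rw [Finset.sum_congr rfl fun i _ => this i, Finset.sum_add_distrib,
              Finset.sum_ite_eq', Finset.sum_ite_eq']
          simp only [Finset.mem_univ, if_true]
          ring
        have e2 : (∑ i, if 0 < lam i then lam i *
            normSq ((if i = a then (1:ℂ) else 0) + (if i = b then ε else 0)) else 0)
            = lam a + lam b * normSq ε := by
          have : ∀ i, (if 0 < lam i then lam i *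
            normSq ((if i = a then (1:ℂ) else 0) + (if i = b then ε else 0)) else 0) =
            (if i = a then lam i else 0) + (if i = b then lam i * normSq ε else 0) := by
            intro i
            by_cases h1 : i = a
            · subst h1
              simp [ha, hab]
            · by_cases h2 : i = b
              · subst h2
                simp [hb, h1]
              · simp [h1, h2]
          rw [Finset.sum_congr rfl fun i _ => this i, Finset.sum_add_distrib,
              Finset.sum_ite_eq', Finset.sum_ite_eq']
          simp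
        rw [e1, e2] at this
        have h3 : (dens c a a + conj ε * dens c a b + ε * dens c b a +
              ε * conj ε * dens c b b).re =
            (dens c a a).re + 2 * (conj ε * dens c a b).re + normSq ε * (dens c b b).re := by
          have h4 : (ε * dens c b a).re = (conj ε * dens c a b).re := by
            rw [← dens_conj c a b, ← Complex.conj_re (conj ε * dens c a b), map_mul,
              Complex.conj_conj]
          rw [Complex.mul_conj, Complex.add_re, Complex.add_re, Complex.add_re, h4,
            Complex.re_ofReal_mul]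
          ring
        rw [h3, hdiag a ha, hdiag b hb] at this
        have h5 : m * (g / m) = g := by field_simp
        have h6 : m * (2 * (conj ε * dens c a b).re) ≤ 0 := by
          have : m * (g / m * lam a + 2 * (conj ε * dens c a b).re + normSq ε * (g / m * lam b)) +
            (lam a + lam b * normSq ε) * -g = m * (2 * (conj ε * dens c a b).re) +
              (m * (g / m) - g) * (lam a + normSq ε * lam b) := by ring
          rw [h5, sub_self, zero_mul, add_zero] at this
          linarith
        by_contra hcon
        push Not at hcon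
        have : 0 < m * (2 * (conj ε * dens c a b).re) := by positivity
        linarith
      have h1 := hε (dens c a b)
      rw [← Complex.normSq_eq_conj_mul_self, Complex.ofReal_re] at h1
      exact Complex.normSq_eq_zero.1 (le_antisymm h1 (Complex.normSq_nonneg _))
  · intro i hi
    have hsz : ∀ j ∈ Finset.univ, 0 ≤ (if 0 < lam j then 0 else (dens c j j).re) := by
      intro j _
      split_ifs
      · exact le_refl _
      · exact dens_diag_re_nonneg c j
    have := (Finset.sum_eq_zero_iff_of_nonneg hsz).1 hτz i (Finset.mem_univ _)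
    rw [if_neg (by rw [hi]; exact lt_irrefl _)] at this
    exact Complex.ext this (dens_diag_im c i)

theorem sep_zero {n p : ℕ} (lam : Fin n → ℝ) (hl : ∀ i, 0 ≤ lam i)
    (c : (Fin p → Fin n) → ℂ) (t : ℝ)
    (h : ∀ i j, dens c i j = if i = j then ((t * lam i : ℝ) : ℂ) else 0) (v : Fin n → ℂ) :
    Q (fam lam v) c = 0 := by
  rw [Q_eq_dens]
  have h1 : ∀ i, (∑ j, fam lam v i j * dens c i j) =
      (if 0 < lam i then (msize lam : ℂ) * t * (v i * conj (v i)) else 0)
      - (if 0 < lam i then (nn lam v * t) else 0) := by
    intro i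
    rw [Finset.sum_eq_single i]
    · rw [h i i, if_pos rfl]
      unfold fam
      rw [Matrix.of_apply, if_pos rfl]
      by_cases hi : 0 < lam i
      · rw [if_pos ⟨hi, hi⟩, if_pos hi, if_pos hi, if_pos hi, Real.mul_self_sqrt hi.le]
        have : (lam i : ℂ) ≠ 0 := by exact_mod_cast hi.ne'
        push_cast
        field_simp
        ring
      · have h0 : lam i = 0 := le_antisymm (not_lt.1 hi) (hl i)
        rw [if_neg hi, if_neg hi, h0]
        simp
    · intro j _ hj
      rw [h i j, if_neg (Ne.symm hj), mul_zero]
    · intro hi; exact absurd (Finset.mem_univ _) hi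
  rw [Finset.sum_congr rfl fun i _ => h1 i, Finset.sum_sub_distrib]
  have h2 : (∑ i, if 0 < lam i then (msize lam : ℂ) * t * (v i * conj (v i)) else 0) =
      (msize lam : ℂ) * t * nn lam v := by
    unfold nn
    rw [Finset.mul_sum]
    refine Finset.sum_congr rfl fun i _ => ?_
    split_ifs <;> simp
  have h3 : (∑ i, if 0 < lam i then (nn lam v * t) else 0) =
      (msize lam : ℂ) * (nn lam v * t) := by
    classical
    rw [← Finset.sum_filter, Finset.sum_const, nsmul_eq_mul]
    unfold msize
    congr 1
  rw [h2, h3]
  ring

end Pool.Agent.XP
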