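import Pool.Agent.XP.AltQ

/-!
MODULE TopVec (size 2).
Proofs. `c = alt e` with `e : Fin m → Fin n` the inclusion (`Fin.castLE hmn`). `Q M c = m! *
∑ k, M (e k) (e k)` by `QQ_alt_self` (`Q M c = QQ M c c` is `rfl`). `dens c i j = Q (single i j 1) c`
(unfold: `M (I k) j' = if I k = i ∧ j' = j then 1 else 0`), so `dens c i j = m! * #{k | e k = i and
e k = j}`. `t = m!`.
`dens_sym`: `a J = sqrt (lam i)` if `J` is constant equal to `i` (with `p ≥ 2`), `0` if `J` is not
constant; `update J k j` is constant only for `j = i`.
-/

open scoped ComplexConjugate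
open Complex

namespace Pool.Agent.XP

theorem dens_eq_Q {ι : Type*} [Fintype ι] [DecidableEq ι] {p : ℕ} (c : (Fin p → ι) → ℂ)
    (i j : ι) : dens c i j = Q (Matrix.single i j 1) c := by
  unfold dens Q
  apply Finset.sum_congr rfl
  intro k _
  apply Finset.sum_congr rfl
  intro I _
  rw [Finset.sum_eq_single j]
  · rw [Matrix.single_apply]
    by_cases h : I k = i
    · rw [if_pos h, if_pos ⟨h.symm, rfl⟩, mul_one]
    · rw [if_neg h, if_neg (fun h' => h h'.1.symm), mul_zero, zero_mul]
  · intro b _ hb
    rw [Matrix.single_apply, if_neg (fun h' => hb h'.2.symm), mul_zero, zero_mul]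
  · intro h
    exact absurd (Finset.mem_univ j) h

theorem top_vec {n m : ℕ} (hmn : m ≤ n) :
    ∃ c : (Fin m → Fin n) → ℂ, c ≠ 0 ∧ Anti c ∧ ∃ t : ℝ, ∀ i j : Fin n,
      dens c i j = if i = j then ((t * (if i.val < m then 1 else 0) : ℝ) : ℂ) else 0 := by
  have he : Function.Injective (Fin.castLE hmn) := Fin.castLE_injective hmn
  refine ⟨alt (Fin.castLE hmn), ?_, alt_anti _, (m.factorial : ℝ), ?_⟩
  · intro h
    have h1 := alt_self he
    rw [h] at h1
    exact zero_ne_one h1
  · intro i j
    rw [dens_eq_Q]
    change QQ (Matrix.single i j 1) (alt (Fin.castLE hmn)) (alt (Fin.castLE hmn)) = _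
    rw [QQ_alt_self _ he]
    by_cases hij : i = j
    · subst hij
      rw [if_pos rfl]
      by_cases hi : i.val < m
      · rw [Finset.sum_eq_single (⟨i.val, hi⟩ : Fin m)]
        · have h2 : Fin.castLE hmn ⟨i.val, hi⟩ = i := rfl
          rw [h2, Matrix.single_apply, if_pos ⟨rfl, rfl⟩, if_pos hi]
          push_cast
          ring
        · intro b _ hb
          rw [Matrix.single_apply, if_neg]
          rintro ⟨h3, -⟩
          apply hb
          apply Fin.ext
          exact (congrArg Fin.val h3).symm
        · intro h
          exact absurd (Finset.mem_univ _) h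
      · rw [Finset.sum_eq_zero, if_neg hi]
        · simp
        · intro k _
          rw [Matrix.single_apply, if_neg]
          rintro ⟨h3, -⟩
          apply hi
          rw [h3]
          exact k.2
    · rw [if_neg hij, Finset.sum_eq_zero, mul_zero]
      intro k _
      rw [Matrix.single_apply, if_neg]
      rintro ⟨h3, h4⟩
      exact hij (h3.trans h4.symm)

theorem sym_vec {n p : ℕ} (hp : 2 ≤ p) (lam : Fin n → ℝ) (hl : ∀ i, 0 ≤ lam i)
    (h0 : ∃ i, 0 < lam i) :
    ∃ a : (Fin p → Fin n) → ℂ, a ≠ 0 ∧
      (∀ (σ : Equiv.Perm (Fin p)) (J : Fin p → Fin n), a (J ∘ σ) = a J) ∧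
      ∀ i j : Fin n, dens a i j = if i = j then (((p : ℝ) * lam i : ℝ) : ℂ) else 0 := by
  classical
  obtain ⟨i₀, hi₀⟩ := h0
  have hp0 : 0 < p := by omega
  let z : Fin p := ⟨0, hp0⟩
  let a : (Fin p → Fin n) → ℂ := fun J =>
    if ∀ k, J k = J z then ((Real.sqrt (lam (J z)) : ℝ) : ℂ) else 0
  have hconst : ∀ i : Fin n, a (fun _ => i) = ((Real.sqrt (lam i) : ℝ) : ℂ) := by
    intro i
    exact if_pos (fun _ => rfl)
  refine ⟨a, ?_, ?_, ?_⟩
  · intro h
    have h1 := hconst i₀
    rw [h, Pi.zero_apply] at h1
    have h2 : Real.sqrt (lam i₀) = 0 := by exact_mod_cast h1.symm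
    rw [Real.sqrt_eq_zero (hl _)] at h2
    exact hi₀.ne' h2
  · intro σ J
    by_cases h : ∀ k, J k = J z
    · have h' : ∀ k, (J ∘ σ) k = (J ∘ σ) z := by
        intro k
        change J (σ k) = J (σ z)
        rw [h (σ k), h (σ z)]
      have e1 : a (J ∘ σ) = ((Real.sqrt (lam ((J ∘ σ) z)) : ℝ) : ℂ) := if_pos h'
      have e2 : a J = ((Real.sqrt (lam (J z)) : ℝ) : ℂ) := if_pos h
      rw [e1, e2]
      have e3 : (J ∘ σ) z = J z := h (σ z)
      rw [e3]
    · have h' : ¬ ∀ k, (J ∘ σ) k = (J ∘ σ) z := by
        intro h2
        apply h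
        have h3 : ∀ k, J k = J (σ z) := by
          intro k
          have := h2 (σ.symm k)
          change J (σ (σ.symm k)) = J (σ z) at this
          rwa [Equiv.apply_symm_apply] at this
        intro k
        rw [h3 k, h3 z]
      have e1 : a (J ∘ σ) = 0 := if_neg h'
      have e2 : a J = 0 := if_neg h
      rw [e1, e2]
  · intro i j
    have hk : ∀ k : Fin p, (∑ I : Fin p → Fin n,
        if I k = i then conj (a I) * a (Function.update I k j) else 0) =
        if i = j then ((lam i : ℝ) : ℂ) else 0 := by
      intro k
      rw [Finset.sum_eq_single (fun _ => i)]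
      · rw [if_pos rfl]
        by_cases hij : i = j
        · subst hij
          have e1 : Function.update (fun _ => i) k i = (fun _ : Fin p => i) :=
            Function.update_eq_self k (fun _ => i)
          rw [if_pos rfl, e1, hconst, Complex.conj_ofReal, ← Complex.ofReal_mul,
            Real.mul_self_sqrt (hl i)]
        · rw [if_neg hij]
          have e1 : a (Function.update (fun _ => i) k j) = 0 := by
            apply if_neg
            intro h
            obtain ⟨k', hk'⟩ : ∃ k' : Fin p, k' ≠ k := by
              by_cases hk0 : k = z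
              · refine ⟨⟨1, by omega⟩, ?_⟩
                rw [hk0]
                intro h5
                have := congrArg Fin.val h5
                simp [z] at this
              · exact ⟨z, fun h5 => hk0 h5.symm⟩
            have h6 := (h k).trans (h k').symm
            rw [Function.update_self, Function.update_of_ne hk'] at h6
            exact hij h6.symm
          rw [e1, mul_zero]
      · intro I _ hI
        by_cases h1 : I k = i
        · rw [if_pos h1]
          have e1 : a I = 0 := by
            apply if_neg
            intro h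
            apply hI
            funext k'
            rw [h k', ← h k, h1]
          rw [e1, map_zero, zero_mul]
        · rw [if_neg h1]
      · intro h
        exact absurd (Finset.mem_univ _) h
    unfold dens
    rw [Finset.sum_congr rfl (fun k _ => hk k), Finset.sum_const, Finset.card_univ,
      Fintype.card_fin]
    by_cases hij : i = j
    · rw [if_pos hij, if_pos hij, nsmul_eq_mul]
      push_cast
      rfl
    · rw [if_neg hij, if_neg hij, smul_zero]

end Pool.Agent.XP
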