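import Pool.Agent.XP.Dens

/-!
MODULE Wt (size 2).
Proof. `i0 = ⟨0, _⟩`. If `p = 1`: `dens c i j = conj (x i) * x j` with `x i = c (fun _ => i)`;
off diagonal zero, `|x i|^2 = t * wt n i`; two indices give `t = 0` and `c = 0`. If `p ≥ 2`: by
`dens_diag` and `Anti` (a tuple with `c I ≠ 0` is injective, so it takes the value `i0` at most
once) `dens c i0 i0 ≤ nsq c`. `trace_dens`: `t * (n + 1 + (n - 1)) = p * nsq c`, i.e.
`2 n t = p nsq c`, and `(n + 1) t ≤ nsq c`; so `p (n + 1) nsq c ≤ 2 n nsq c`, impossible for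
`p ≥ 2` as `nsq c > 0`.
-/

open scoped ComplexConjugate
open Complex

namespace Pool.Agent.XP

/-- The weights `(n + 1, 1, ..., 1)`. -/
noncomputable def wt (n : ℕ) (i : Fin n) : ℝ := if i.val = 0 then (n : ℝ) + 1 else 1

private theorem noninj {ι : Type*} {m : ℕ} {x : (Fin m → ι) → ℂ} (hx : Anti x) {I : Fin m → ι}
    (h : ¬ Function.Injective I) : x I = 0 := by
  rw [Function.not_injective_iff] at h
  obtain ⟨a, b, h1, h2⟩ := h
  have h3 := hx (Equiv.swap a b) I
  have h4 : I ∘ (Equiv.swap a b : Equiv.Perm (Fin m)) = I := by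
    funext k
    rw [Function.comp_apply]
    by_cases ka : k = a
    · rw [ka, Equiv.swap_apply_left, h1]
    · by_cases kb : k = b
      · rw [kb, Equiv.swap_apply_right, h1]
      · rw [Equiv.swap_apply_of_ne_of_ne ka kb]
  rw [h4, Equiv.Perm.sign_swap h2, Units.val_neg, Units.val_one, Int.cast_neg, Int.cast_one,
    neg_one_mul] at h3
  exact self_eq_neg.1 h3

private theorem nsq_pos {ι : Type*} [Fintype ι] {p : ℕ} {c : (Fin p → ι) → ℂ} (hc0 : c ≠ 0) :
    0 < nsq c := by
  obtain ⟨I, hI⟩ := Function.ne_iff.1 hc0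
  unfold nsq
  exact Finset.sum_pos' (fun J _ => normSq_nonneg _) ⟨I, Finset.mem_univ _, normSq_pos.2 hI⟩

private theorem diag_le {n p : ℕ} {c : (Fin p → Fin n) → ℂ} (hc : Anti c) (i : Fin n) :
    (∑ k : Fin p, ∑ I : Fin p → Fin n, if I k = i then normSq (c I) else 0) ≤ nsq c := by
  rw [Finset.sum_comm]
  unfold nsq
  apply Finset.sum_le_sum
  intro I _
  by_cases hI : Function.Injective I
  · by_cases h : ∃ k0, I k0 = i
    · obtain ⟨k0, hk0⟩ := h
      rw [Finset.sum_eq_single k0, if_pos hk0]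
      · intro b _ hb
        rw [if_neg]
        intro h1
        exact hb (hI (h1.trans hk0.symm))
      · intro h1
        exact absurd (Finset.mem_univ _) h1
    · push Not at h
      rw [Finset.sum_eq_zero (fun k _ => if_neg (h k))]
      exact normSq_nonneg _
  · rw [noninj hc hI, map_zero]
    simp

private theorem sum_wt {n : ℕ} (hn : 2 ≤ n) : ∑ i : Fin n, wt n i = 2 * (n : ℝ) := by
  obtain ⟨m, rfl⟩ : ∃ m, n = m + 1 := ⟨n - 1, by omega⟩
  rw [Fin.sum_univ_succ]
  have h1 : ∀ i : Fin m, wt (m + 1) i.succ = 1 := by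
    intro i
    unfold wt
    rw [if_neg (by simp)]
  rw [Finset.sum_congr rfl (fun i _ => h1 i), Finset.sum_const, Finset.card_univ,
    Fintype.card_fin, nsmul_eq_mul, mul_one]
  unfold wt
  rw [if_pos (by simp)]
  push_cast
  ring

theorem wt_anti {n p : ℕ} (hn : 2 ≤ n) (hp : 1 ≤ p) {c : (Fin p → Fin n) → ℂ} (hc0 : c ≠ 0)
    (hc : Anti c) {t : ℝ}
    (hd : ∀ i j, dens c i j = if i = j then ((t * wt n i : ℝ) : ℂ) else 0) : False := by
  have hns := nsq_pos hc0
  have htr : t * (2 * (n : ℝ)) = (p : ℝ) * nsq c := by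
    have h1 := trace_dens c
    rw [Finset.sum_congr rfl (fun i _ => (hd i i).trans (if_pos rfl)), ← Complex.ofReal_sum,
      ← Finset.mul_sum, sum_wt hn] at h1
    have h2 : ((t * (2 * (n : ℝ)) : ℝ) : ℂ) = (((p : ℝ) * nsq c : ℝ) : ℂ) := by
      rw [h1]
      push_cast
      rfl
    exact Complex.ofReal_injective h2
  have hn0 : (2 : ℝ) ≤ n := by exact_mod_cast hn
  have hp0 : (1 : ℝ) ≤ p := by exact_mod_cast hp
  have ht : 0 < t := by
    by_contra h
    push Not at h
    have h1 : 0 < (p : ℝ) * nsq c := by positivity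
    have h2 : t * (2 * (n : ℝ)) ≤ 0 := mul_nonpos_of_nonpos_of_nonneg h (by positivity)
    linarith
  have hw : ∀ i, 0 < wt n i := by
    intro i
    unfold wt
    split_ifs
    · positivity
    · exact one_pos
  rcases Nat.lt_or_ge 1 p with hp2 | hp1
  · have h1 : t * ((n : ℝ) + 1) ≤ nsq c := by
      have h2 := dens_diag c (⟨0, by omega⟩ : Fin n)
      rw [hd, if_pos rfl] at h2
      have h3 := Complex.ofReal_injective h2
      have h4 : wt n ⟨0, by omega⟩ = (n : ℝ) + 1 := if_pos rfl
      rw [h4] at h3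
      rw [h3]
      exact diag_le hc _
    have hp2' : (2 : ℝ) ≤ p := by exact_mod_cast hp2
    have h2 : 2 * nsq c ≤ (p : ℝ) * nsq c := mul_le_mul_of_nonneg_right hp2' hns.le
    nlinarith
  · obtain rfl : p = 1 := by omega
    have hx : ∀ i j : Fin n, dens c i j = conj (c fun _ => i) * c (fun _ => j) := by
      intro i j
      unfold dens
      rw [Fin.sum_univ_one, Finset.sum_eq_single (fun _ => i)]
      · rw [if_pos rfl]
        congr 2
        funext k
        have : k = 0 := Subsingleton.elim _ _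
        rw [this, Function.update_self]
      · intro I _ hI
        rw [if_neg]
        intro h
        apply hI
        funext k
        have : k = 0 := Subsingleton.elim _ _
        rw [this]
        exact h
      · intro h
        exact absurd (Finset.mem_univ _) h
    have hne : ∀ i : Fin n, c (fun _ => i) ≠ 0 := by
      intro i h
      have h1 := hx i i
      rw [hd, if_pos rfl, h, mul_zero] at h1
      have h2 : t * wt n i = 0 := by exact_mod_cast h1
      have h3 := mul_pos ht (hw i)
      linarith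
    have h1 := hx ⟨0, by omega⟩ ⟨1, by omega⟩
    rw [hd, if_neg (by simp)] at h1
    rcases mul_eq_zero.1 h1.symm with h2 | h2
    · exact hne _ ((map_eq_zero _).1 h2)
    · exact hne _ h2

end Pool.Agent.XP
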