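import Pool.Agent.XP.Red
import Pool.Agent.XP.SepC
import Pool.Agent.XP.FamA
import Pool.Agent.XP.TopVec
import Pool.Agent.XP.NC
import Pool.Agent.XP.Restr
import Pool.Agent.XP.Wt
import Pool.Agent.XP.Real
import Pool.Agent.XP.Gram

open scoped ComplexConjugate Manifold ContDiff Bundle ComplexOrder
open Complex Matrix

namespace Pool.Agent.XP

open Pool.Agent.F057

/-- the metric with curvature `fam lam` at the origin -/
theorem test_metric (n : ℕ) (F : Type*) [NormedAddCommGroup F] [NormedSpace ℂ F]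
    [FiniteDimensional ℂ F] (hF : Module.finrank ℂ F = n) (lam : Fin n → ℝ) :
    ∃ h : HermMetric (EuclideanSpace ℂ (Fin n)) F
        (Bundle.Trivial (EuclideanSpace ℂ (Fin n)) F),
      (∀ p : ℕ, RCPositiveAltAt h p 0 ↔
        ∀ c : (Fin p → Fin n) → ℂ, c ≠ 0 → Anti c →
          ∃ v : Fin n → ℂ, 0 < (Q (fam lam v) c).re) ∧
      (∀ p : ℕ, (∃ c : (Fin p → Fin n) → ℂ, c ≠ 0 ∧
          (∀ (σ : Equiv.Perm (Fin p)) (J : Fin p → Fin n), c (J ∘ σ) = c J) ∧
          ∀ v : Fin n → ℂ, (Q (fam lam v) c).re ≤ 0) → ¬ RCPositiveSymAt h p 0) := by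
  subst hF
  obtain ⟨α, hα, hf⟩ := fam_coeff lam
  obtain ⟨h, hC, h1, hcurv⟩ := realise (Module.finrank ℂ F) F α hα
  refine ⟨h, ?_, ?_⟩
  · intro p
    have key := rcAlt_iff (S := (1 : Matrix _ _ ℂ)) hC (gram_posDef h 0) (by rw [h1]; simp) p
    have e1 : RCPositiveAltAt h p 0 ↔ _ := key
    rw [e1]
    refine forall_congr' fun c => forall_congr' fun _ => forall_congr' fun _ => ?_
    constructor
    · rintro ⟨v, hv⟩
      refine ⟨fun i => v i, ?_⟩
      have : fam lam (fun i => v i) = (1 : Matrix _ _ ℂ)ᴴ * curv (gram F _ h.form 0)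
          (extChartAt 𝓘(ℂ, EuclideanSpace ℂ (Fin (Module.finrank ℂ F)))
            (0 : EuclideanSpace ℂ (Fin (Module.finrank ℂ F))) 0) v * 1 := by
        rw [hcurv, Matrix.conjTranspose_one, Matrix.one_mul, Matrix.mul_one]
        ext i j
        exact hf _ i j
      rw [this]
      exact hv
    · rintro ⟨v, hv⟩
      refine ⟨WithLp.toLp 2 v, ?_⟩
      have : fam lam v = (1 : Matrix _ _ ℂ)ᴴ * curv (gram F _ h.form 0)
          (extChartAt 𝓘(ℂ, EuclideanSpace ℂ (Fin (Module.finrank ℂ F)))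
            (0 : EuclideanSpace ℂ (Fin (Module.finrank ℂ F))) 0) (WithLp.toLp 2 v) * 1 := by
        rw [hcurv, Matrix.conjTranspose_one, Matrix.one_mul, Matrix.mul_one]
        ext i j
        exact hf _ i j
      rw [this] at hv
      exact hv
  · rintro p ⟨c, hc0, hc, hv⟩ hR
    obtain ⟨v, hv'⟩ := hR c hc0 hc
    have e2 : sq (curvature h p 0 v) c c = Q (fam lam (fun i => v i)) c := by
      rw [curvature, curv_tpow hC (gram_posDef h 0), h1, sq_slot_one]
      congr 1
      rw [hcurv]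
      ext i j
      exact (hf _ i j).symm
    rw [e2] at hv'
    linarith [hv (fun i => v i)]

theorem neg (n : ℕ) (F : Type*) [NormedAddCommGroup F] [NormedSpace ℂ F]
    [FiniteDimensional ℂ F] (hF : Module.finrank ℂ F = n) {p m : ℕ} (hp : 1 ≤ p) (hm : 1 ≤ m)
    (hmn : m ≤ n) (hno : ¬ (p = m ∨ (p < m ∧ Cond p m))) :
    ∃ h : HermMetric (EuclideanSpace ℂ (Fin n)) F
        (Bundle.Trivial (EuclideanSpace ℂ (Fin n)) F),
      RCPositiveAltAt h p 0 ∧ ¬ RCPositiveAltAt h m 0 := by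
  set lam : Fin n → ℝ := fun i => if i.val < m then 1 else 0 with hlam
  have hl : ∀ i, 0 ≤ lam i := by intro i; simp only [hlam]; split_ifs <;> norm_num
  have hpos : 0 < lam ⟨0, by omega⟩ := by
    simp only [hlam]
    rw [if_pos (by omega)]
    norm_num
  obtain ⟨h, hA, -⟩ := test_metric n F hF lam
  refine ⟨h, ?_, ?_⟩
  · rw [hA]
    intro c hc0 hc
    by_contra hcon
    push Not at hcon
    obtain ⟨t, ht1, ht2⟩ := sep_crit lam hl ⟨⟨0, by omega⟩, hpos⟩ c hcon
    obtain ⟨c', hc0', hc', hd⟩ := restrict hmn hc0 hc (t := t)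
      (by
        intro i j hi hj
        have := ht1 i j (by simp [hlam, hi]) (by simp [hlam, hj])
        rw [this]
        simp [hlam, hi])
      (by
        intro i hi
        exact ht2 i (by simp [hlam]; omega))
    exact hno (core hp hc0' hc' hd)
  · rw [hA]
    push Not
    obtain ⟨c, hc0, hc, t, ht⟩ := top_vec hmn
    refine ⟨c, hc0, hc, fun v => ?_⟩
    rw [sep_zero lam hl c t ht v]
    simp

theorem three (n : ℕ) (F : Type*) [NormedAddCommGroup F] [NormedSpace ℂ F]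
    [FiniteDimensional ℂ F] (hF : Module.finrank ℂ F = n) (hn : 2 ≤ n) :
    ∃ h : HermMetric (EuclideanSpace ℂ (Fin n)) F
        (Bundle.Trivial (EuclideanSpace ℂ (Fin n)) F),
      (∀ p : ℕ, 1 ≤ p → RCPositiveAltAt h p 0) ∧
      ∀ p : ℕ, 2 ≤ p → ¬ RCPositiveSymAt h p 0 := by
  have hl : ∀ i, 0 < wt n i := by
    intro i; simp only [wt]; split_ifs
    · positivity
    · norm_num
  obtain ⟨h, hA, hB⟩ := test_metric n F hF (wt n)
  refine ⟨h, ?_, ?_⟩
  · intro p hp
    rw [hA]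
    intro c hc0 hc
    by_contra hcon
    push Not at hcon
    obtain ⟨t, ht1, -⟩ := sep_crit (wt n) (fun i => (hl i).le) ⟨⟨0, by omega⟩, hl _⟩ c hcon
    exact wt_anti hn hp hc0 hc (fun i j => ht1 i j (hl i) (hl j))
  · intro p hp
    apply hB
    obtain ⟨a, ha0, has, had⟩ := sym_vec hp (wt n) (fun i => (hl i).le) ⟨⟨0, by omega⟩, hl _⟩
    refine ⟨a, ha0, has, fun v => ?_⟩
    rw [sep_zero (wt n) (fun i => (hl i).le) a p had v]
    simp

end Pool.Agent.XP
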