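import Pool.Agent.XP.LDefs

/-!
MODULE AltQ (size 4).
Proofs. `alt_anti`: reindex the sum over permutations. `alt_self`: only `σ = 1` satisfies
`e = e ∘ σ`. `QQ_alt_self`, `QQ_alt_ne`: expand both alternating tensors:
`QQ M (alt e) (alt e') = ∑ σ, ∑ σ', sign σ * sign σ' * ∑ k, M (e (σ k)) (e' (σ' k)) *
[∀ l ≠ k, e (σ l) = e' (σ' l)]` (the condition `update (e ∘ σ) k j = e' ∘ σ'` says `j = e' (σ' k)`
and `e (σ l) = e' (σ' l)` for `l ≠ k`). If the images differ in two points the condition never
holds (it implies that `image e \ image e'` is contained in `{e (σ k)}`). For `e = e'` injective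
it gives `σ l = σ' l` for `l ≠ k`, hence `σ = σ'`; the sum is
`∑ σ, ∑ k, M (e (σ k)) (e (σ k)) = p! * ∑ k, M (e k) (e k)`.
-/

open scoped ComplexConjugate
open Complex

namespace Pool.Agent.XP

variable {ι : Type*} [Fintype ι] [DecidableEq ι]

/-- The sesquilinear version of `Q`. -/
noncomputable def QQ (M : Matrix ι ι ℂ) {p : ℕ} (c c' : (Fin p → ι) → ℂ) : ℂ :=
  ∑ k : Fin p, ∑ I : Fin p → ι, ∑ j : ι, conj (c I) * M (I k) j * c' (Function.update I k j)

theorem alt_anti {p : ℕ} (e : Fin p → ι) : Anti (alt e) := by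
  intro τ J
  unfold alt
  rw [← Equiv.sum_comp (Equiv.mulRight τ), Finset.mul_sum]
  refine Finset.sum_congr rfl fun σ _ => ?_
  have h1 : (J ∘ τ = e ∘ ((Equiv.mulRight τ) σ : Equiv.Perm (Fin p))) ↔ J = e ∘ σ := by
    constructor
    · intro h
      funext l
      have := congrFun h (τ⁻¹ l)
      simpa using this
    · intro h
      rw [h]
      rfl
  by_cases h : J = e ∘ σ
  · rw [if_pos (h1.2 h), if_pos h]
    have h2 : Equiv.Perm.sign ((Equiv.mulRight τ) σ) = Equiv.Perm.sign τ * Equiv.Perm.sign σ := by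
      rw [Equiv.coe_mulRight, Equiv.Perm.sign_mul, mul_comm]
    rw [h2]
    push_cast
    ring
  · rw [if_neg (fun h' => h (h1.1 h')), if_neg h, mul_zero]

theorem alt_self {p : ℕ} {e : Fin p → ι} (he : Function.Injective e) : alt e e = 1 := by
  unfold alt
  rw [Finset.sum_eq_single (1 : Equiv.Perm (Fin p))]
  · rw [if_pos (by funext l; rfl)]
    simp
  · intro σ _ hσ
    rw [if_neg]
    intro h
    apply hσ
    ext l
    have := he (congrFun h l)
    rw [← this]
    rfl
  · intro h
    exact absurd (Finset.mem_univ _) h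

private theorem AltQ_expand (M : Matrix ι ι ℂ) {p : ℕ} (e e' : Fin p → ι) :
    QQ M (alt e) (alt e') = ∑ σ : Equiv.Perm (Fin p), ∑ σ' : Equiv.Perm (Fin p), ∑ k : Fin p,
      if ∀ l, l ≠ k → e (σ l) = e' (σ' l) then
        ((Equiv.Perm.sign σ : ℤ) : ℂ) * ((Equiv.Perm.sign σ' : ℤ) : ℂ) *
          M (e (σ k)) (e' (σ' k)) else 0 := by
  classical
  have hinner : ∀ (k : Fin p) (I : Fin p → ι), ∑ j : ι, M (I k) j * alt e' (Function.update I k j) =
      ∑ σ' : Equiv.Perm (Fin p), if ∀ l, l ≠ k → I l = e' (σ' l) then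
        ((Equiv.Perm.sign σ' : ℤ) : ℂ) * M (I k) (e' (σ' k)) else 0 := by
    intro k I
    unfold alt
    simp only [Finset.mul_sum]
    rw [Finset.sum_comm]
    refine Finset.sum_congr rfl fun σ' _ => ?_
    rw [Finset.sum_eq_single (e' (σ' k))]
    · have h1 : (Function.update I k (e' (σ' k)) = e' ∘ σ') ↔ ∀ l, l ≠ k → I l = e' (σ' l) := by
        constructor
        · intro h l hl
          have := congrFun h l
          rwa [Function.update_of_ne hl] at this
        · intro h
          funext l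
          by_cases hl : l = k
          · subst hl
            rw [Function.update_self]
            rfl
          · rw [Function.update_of_ne hl, h l hl]
            rfl
      by_cases h : ∀ l, l ≠ k → I l = e' (σ' l)
      · rw [if_pos (h1.2 h), if_pos h, mul_comm]
      · rw [if_neg (fun h' => h (h1.1 h')), if_neg h, mul_zero]
    · intro j _ hj
      rw [if_neg, mul_zero]
      intro h
      apply hj
      have := congrFun h k
      rwa [Function.update_self] at this
    · intro h
      exact absurd (Finset.mem_univ _) h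
  have hstep : QQ M (alt e) (alt e') = ∑ k : Fin p, ∑ I : Fin p → ι, conj (alt e I) *
      ∑ σ' : Equiv.Perm (Fin p), if ∀ l, l ≠ k → I l = e' (σ' l) then
        ((Equiv.Perm.sign σ' : ℤ) : ℂ) * M (I k) (e' (σ' k)) else 0 := by
    unfold QQ
    refine Finset.sum_congr rfl fun k _ => Finset.sum_congr rfl fun I _ => ?_
    rw [← hinner k I, Finset.mul_sum]
    refine Finset.sum_congr rfl fun j _ => ?_
    ring
  rw [hstep]
  have hconj : ∀ I, conj (alt e I) = ∑ σ : Equiv.Perm (Fin p),
      if I = e ∘ σ then ((Equiv.Perm.sign σ : ℤ) : ℂ) else 0 := by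
    intro I
    unfold alt
    rw [map_sum]
    refine Finset.sum_congr rfl fun σ _ => ?_
    split_ifs
    · exact map_intCast (starRingEnd ℂ) _
    · exact map_zero _
  have hk : ∀ k : Fin p, ∑ I : Fin p → ι, conj (alt e I) *
      (∑ σ' : Equiv.Perm (Fin p), if ∀ l, l ≠ k → I l = e' (σ' l) then
        ((Equiv.Perm.sign σ' : ℤ) : ℂ) * M (I k) (e' (σ' k)) else 0) =
      ∑ σ : Equiv.Perm (Fin p), ∑ σ' : Equiv.Perm (Fin p),
      if ∀ l, l ≠ k → e (σ l) = e' (σ' l) then
        ((Equiv.Perm.sign σ : ℤ) : ℂ) * ((Equiv.Perm.sign σ' : ℤ) : ℂ) *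
          M (e (σ k)) (e' (σ' k)) else 0 := by
    intro k
    simp only [hconj, Finset.sum_mul]
    rw [Finset.sum_comm]
    refine Finset.sum_congr rfl fun σ _ => ?_
    rw [Finset.sum_eq_single (e ∘ σ)]
    · rw [if_pos rfl, Finset.mul_sum]
      refine Finset.sum_congr rfl fun σ' _ => ?_
      simp only [Function.comp_apply]
      split_ifs
      · ring
      · rw [mul_zero]
    · intro I _ hI
      rw [if_neg hI, zero_mul]
    · intro h
      exact absurd (Finset.mem_univ _) h
  simp only [hk]
  rw [Finset.sum_comm]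
  refine Finset.sum_congr rfl fun σ _ => ?_
  rw [Finset.sum_comm]

theorem QQ_alt_self (M : Matrix ι ι ℂ) {p : ℕ} {e : Fin p → ι} (he : Function.Injective e) :
    QQ M (alt e) (alt e) = (p.factorial : ℂ) * ∑ k, M (e k) (e k) := by
  classical
  rw [AltQ_expand]
  have h1 : ∀ σ : Equiv.Perm (Fin p), (∑ σ' : Equiv.Perm (Fin p), ∑ k : Fin p,
      if ∀ l, l ≠ k → e (σ l) = e (σ' l) then
        ((Equiv.Perm.sign σ : ℤ) : ℂ) * ((Equiv.Perm.sign σ' : ℤ) : ℂ) *
          M (e (σ k)) (e (σ' k)) else 0) = ∑ k, M (e k) (e k) := by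
    intro σ
    rw [Finset.sum_eq_single σ]
    · rw [← Equiv.sum_comp σ (fun k => M (e k) (e k))]
      refine Finset.sum_congr rfl fun k _ => ?_
      rw [if_pos (fun _ _ => rfl)]
      have h2 : ((Equiv.Perm.sign σ : ℤ) : ℂ) * ((Equiv.Perm.sign σ : ℤ) : ℂ) = 1 := by
        rw [← Int.cast_mul, ← Units.val_mul, Int.units_mul_self]
        simp
      rw [h2, one_mul]
    · intro σ' _ hσ'
      refine Finset.sum_eq_zero fun k _ => ?_
      rw [if_neg]
      intro h
      apply hσ'
      have h3 : ∀ l, l ≠ k → σ l = σ' l := fun l hl => he (h l hl)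
      have hk : σ k = σ' k := by
        by_contra hne
        obtain ⟨l, hl⟩ := σ'.surjective (σ k)
        by_cases hlk : l = k
        · subst hlk
          exact hne hl.symm
        · have h4 := h3 l hlk
          rw [hl] at h4
          exact hlk (σ.injective h4)
      ext l
      by_cases hl : l = k
      · rw [hl, hk]
      · rw [h3 l hl]
    · intro h
      exact absurd (Finset.mem_univ _) h
  simp only [h1]
  rw [Finset.sum_const, Finset.card_univ, Fintype.card_perm, Fintype.card_fin, nsmul_eq_mul]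

theorem QQ_alt_ne (M : Matrix ι ι ℂ) {p : ℕ} {e e' : Fin p → ι} (he : Function.Injective e)
    (h : 2 ≤ (Finset.univ.image e \ Finset.univ.image e').card) :
    QQ M (alt e) (alt e') = 0 := by
  classical
  rw [AltQ_expand]
  refine Finset.sum_eq_zero fun σ _ => Finset.sum_eq_zero fun σ' _ =>
    Finset.sum_eq_zero fun k _ => ?_
  rw [if_neg]
  intro hc
  have hsub : Finset.univ.image e \ Finset.univ.image e' ⊆ {e (σ k)} := by
    intro x hx
    rw [Finset.mem_sdiff, Finset.mem_image] at hx
    obtain ⟨⟨l, -, rfl⟩, h2⟩ := hx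
    rw [Finset.mem_singleton]
    by_contra hne
    apply h2
    rw [Finset.mem_image]
    have hl : σ⁻¹ l ≠ k := by
      intro h3
      apply hne
      rw [← h3]
      simp
    refine ⟨σ' (σ⁻¹ l), Finset.mem_univ _, ?_⟩
    rw [← hc _ hl]
    simp
  have := Finset.card_le_card hsub
  rw [Finset.card_singleton] at this
  omega

end Pool.Agent.XP
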