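import Pool.Agent.XP.Defs

/-! Linear algebra notions used in the proofs. -/

open scoped ComplexConjugate
open Complex

namespace Pool.Agent.XP

/-- The value at the tensor `c` of the form induced by `M` (orthonormal frame): `M` acts in one
slot, summed over the slots. -/
noncomputable def Q {ι : Type*} [Fintype ι] [DecidableEq ι] (M : Matrix ι ι ℂ) {p : ℕ}
    (c : (Fin p → ι) → ℂ) : ℂ :=
  ∑ k : Fin p, ∑ I : Fin p → ι, ∑ j : ι, conj (c I) * M (I k) j * c (Function.update I k j)

/-- The one particle density matrix of `c`. -/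
noncomputable def dens {ι : Type*} [Fintype ι] [DecidableEq ι] {p : ℕ}
    (c : (Fin p → ι) → ℂ) (i j : ι) : ℂ :=
  ∑ k : Fin p, ∑ I : Fin p → ι, if I k = i then conj (c I) * c (Function.update I k j) else 0

/-- The squared length of a tensor. -/
noncomputable def nsq {ι : Type*} [Fintype ι] {p : ℕ} (c : (Fin p → ι) → ℂ) : ℝ :=
  ∑ I : Fin p → ι, Complex.normSq (c I)

/-- The alternating tensor of `e 0 ∧ ... ∧ e (p-1)`: the sum of `sign σ` over the permutations
`σ` with `I = e ∘ σ`. -/
def alt {ι : Type*} [DecidableEq ι] {p : ℕ} (e : Fin p → ι) (I : Fin p → ι) : ℂ :=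
  ∑ σ : Equiv.Perm (Fin p), if I = e ∘ σ then ((Equiv.Perm.sign σ : ℤ) : ℂ) else 0

/-- The wedge product of a vector with a tensor. -/
def wedge {ι : Type*} {p : ℕ} (u : ι → ℂ) (c : (Fin p → ι) → ℂ) (I : Fin (p + 1) → ι) : ℂ :=
  ∑ k : Fin (p + 1), (-1) ^ (k : ℕ) * u (I k) * c (I ∘ k.succAbove)

/-- The number of `i` with `lam i > 0`. -/
noncomputable def msize {ι : Type*} [Fintype ι] (lam : ι → ℝ) : ℕ :=
  by classical exact (Finset.univ.filter fun i => 0 < lam i).card

/-- `∑ |v i|^2` over the `i` with `lam i > 0`. -/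
noncomputable def nn {ι : Type*} [Fintype ι] (lam : ι → ℝ) (v : ι → ℂ) : ℂ :=
  ∑ i, if 0 < lam i then v i * conj (v i) else 0

/-- The family of Hermitian forms which separates the density matrix `diag lam`. -/
noncomputable def fam {ι : Type*} [Fintype ι] [DecidableEq ι] (lam : ι → ℝ) (v : ι → ℂ) :
    Matrix ι ι ℂ :=
  Matrix.of fun i j =>
    (if 0 < lam i ∧ 0 < lam j then
      (msize lam : ℂ) * (v i * conj (v j)) * (((Real.sqrt (lam i) * Real.sqrt (lam j))⁻¹ : ℝ) : ℂ)
      else 0)
    + (if i = j then nn lam v * (if 0 < lam i then ((-(lam i)⁻¹ : ℝ) : ℂ) else 1) else 0)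

/-- A family of `p`-subsets of `Fin n` which covers every point equally often and in which any
two different members differ in at least two points. -/
structure Design (n p : ℕ) (B : Finset (Finset (Fin n))) (r : ℕ) : Prop where
  card : ∀ b ∈ B, b.card = p
  sep : ∀ b ∈ B, ∀ b' ∈ B, b ≠ b' → 2 ≤ (b \ b').card
  reg : ∀ i : Fin n, (B.filter fun b => i ∈ b).card = r
  pos : 0 < r

end Pool.Agent.XP
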