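import Pool.Agent.F057.Tensor
import Pool.Agent.XP.LDefs

/-!
MODULE Congr (size 3).
Proofs. `mpow_mul`: `∏ k, ∑ c, S (a k) c * T c (b k) = ∑ c : Fin p → ι, ∏ k, ...`
(`Finset.prod_univ_sum` / `Fintype.piFinset_univ`). `slot_congr`: induction on `p` with
`slot_succ'`, `mpow_succ'`, `Matrix.conjTranspose_kronecker`, `Matrix.mul_kronecker_mul`,
`Matrix.submatrix_mul_equiv` (and `mpow_mul`, `mpow_conjTranspose` for the `mpow` factors).
`sq_mulVec`: `sq_eq` and `Matrix.star_mulVec`, `Matrix.dotProduct_mulVec`.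
`anti_mulVec`: `∑ I, (∏ k, S (J (σ k)) (I k)) * c I`, substitute `I = I' ∘ σ`, the product becomes
`∏ k, S (J k) (I' k)`.
-/

open scoped ComplexConjugate
open Complex Matrix

namespace Pool.Agent.XP

open Pool.Agent.F057

variable {ι : Type*} [Fintype ι] [DecidableEq ι]

theorem mpow_mul (S T : Matrix ι ι ℂ) (p : ℕ) : mpow S p * mpow T p = mpow (S * T) p := by
  ext a b
  simp only [Matrix.mul_apply, mpow, Matrix.of_apply]
  rw [Finset.prod_univ_sum, Fintype.piFinset_univ]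
  refine Finset.sum_congr rfl fun c _ => ?_
  rw [Finset.prod_mul_distrib]

theorem mpow_one (p : ℕ) : mpow (1 : Matrix ι ι ℂ) p = 1 := by
  ext a b
  simp only [mpow, Matrix.of_apply]
  by_cases h : a = b
  · subst h
    simp
  · rw [Matrix.one_apply_ne h]
    obtain ⟨k, hk⟩ : ∃ k, a k ≠ b k := by
      by_contra hcon
      push Not at hcon
      exact h (funext hcon)
    exact Finset.prod_eq_zero (Finset.mem_univ k) (Matrix.one_apply_ne hk)

private theorem Congr_aux (S A : Matrix ι ι ℂ) (p : ℕ)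
    (B : Matrix (Fin p → ι) (Fin p → ι) ℂ) :
    (mpow S (p + 1))ᴴ * (Matrix.kronecker A B).submatrix (eqv ι p) (eqv ι p) * mpow S (p + 1) =
      (Matrix.kronecker (Sᴴ * A * S) ((mpow S p)ᴴ * B * mpow S p)).submatrix
        (eqv ι p) (eqv ι p) := by
  have hk : ∀ {α β : Type _} (X : Matrix α α ℂ) (Y : Matrix β β ℂ),
      Matrix.kronecker X Y = Matrix.kroneckerMap (fun x1 x2 => x1 * x2) X Y := fun _ _ => rfl
  rw [mpow_succ', hk, hk, hk, Matrix.conjTranspose_submatrix, Matrix.conjTranspose_kronecker,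
    Matrix.submatrix_mul_equiv, Matrix.submatrix_mul_equiv, ← Matrix.mul_kronecker_mul,
    ← Matrix.mul_kronecker_mul]

theorem slot_congr (S K H : Matrix ι ι ℂ) (p : ℕ) :
    (mpow S p)ᴴ * slot K H p * mpow S p = slot (Sᴴ * K * S) (Sᴴ * H * S) p := by
  induction p with
  | zero => simp [slot]
  | succ p ih =>
    rw [slot_succ', slot_succ', Matrix.mul_add, Matrix.add_mul, Congr_aux, Congr_aux, ih,
      mpow_conjTranspose, mpow_mul, mpow_mul]

theorem sq_mulVec {κ : Type*} [Fintype κ] [DecidableEq κ] (M N : Matrix κ κ ℂ) (c : κ → ℂ) :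
    sq M (N.mulVec c) (N.mulVec c) = sq (Nᴴ * M * N) c c := by
  rw [sq_eq, sq_eq, Matrix.star_mulVec, ← Matrix.dotProduct_mulVec, Matrix.mulVec_mulVec,
    Matrix.mulVec_mulVec, Matrix.mul_assoc]

theorem anti_mulVec (S : Matrix ι ι ℂ) {p : ℕ} {c : (Fin p → ι) → ℂ} (hc : Anti c) :
    Anti ((mpow S p).mulVec c) := by
  intro σ J
  simp only [Matrix.mulVec, dotProduct, mpow, Matrix.of_apply, Function.comp_apply]
  rw [Finset.mul_sum]
  rw [← Equiv.sum_comp (Equiv.arrowCongr σ.symm (Equiv.refl ι))]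
  refine Finset.sum_congr rfl fun I _ => ?_
  have h1 : (Equiv.arrowCongr σ.symm (Equiv.refl ι)) I = I ∘ σ := by
    funext k
    simp [Equiv.arrowCongr]
  rw [h1, hc σ I]
  have h2 : ∏ k, S (J (σ k)) ((I ∘ σ) k) = ∏ k, S (J k) (I k) :=
    Equiv.prod_comp σ (fun k => S (J k) (I k))
  rw [h2]
  ring

end Pool.Agent.XP
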