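import Pool.Agent.XP.AltQ

/-!
MODULE Crit (size 3).
Proof. `c = ∑ b ∈ B, alt (e_b)` with `e_b : Fin p → Fin n` the increasing enumeration of `b`
(`Finset.orderEmbOfFin b hb`, use `B.attach` or an `if h : b.card = p`). `Q M c = ∑ b b', QQ M
(alt e_b) (alt e_b')`; the terms `b ≠ b'` vanish by `QQ_alt_ne` and `Design.sep`
(`image e_b = b`), the terms `b = b'` give `p! * ∑ i ∈ b, M i i`; exchanging the sums, every `i`
occurs `r` times, so `Q M c = p! * r * trace M`. `κ = p! * r > 0`. `c ≠ 0` because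
`Q 1 c = κ * n ≠ 0`. `Anti c`: sum of `alt_anti`.
-/

open scoped ComplexConjugate
open Complex

namespace Pool.Agent.XP

private theorem Crit_sum {n p : ℕ} (M : Matrix (Fin n) (Fin n) ℂ) {β : Type*} (B : Finset β)
    (g : β → (Fin p → Fin n) → ℂ) :
    QQ M (fun I => ∑ b ∈ B, g b I) (fun I => ∑ b ∈ B, g b I) = ∑ b ∈ B, ∑ b' ∈ B, QQ M (g b) (g b') := by
  have h1 : ∀ b b', QQ M (g b) (g b') = ∑ x : Fin p × (Fin p → Fin n) × Fin n,
      conj (g b x.2.1) * M (x.2.1 x.1) x.2.2 * g b' (Function.update x.2.1 x.1 x.2.2) := by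
    intro b b'
    rw [QQ, Fintype.sum_prod_type]
    refine Finset.sum_congr rfl fun k _ => ?_
    rw [Fintype.sum_prod_type]
  have h2 : QQ M (fun I => ∑ b ∈ B, g b I) (fun I => ∑ b ∈ B, g b I) =
      ∑ x : Fin p × (Fin p → Fin n) × Fin n,
      conj (∑ b ∈ B, g b x.2.1) * M (x.2.1 x.1) x.2.2 *
        (∑ b ∈ B, g b (Function.update x.2.1 x.1 x.2.2)) := by
    rw [QQ, Fintype.sum_prod_type]
    refine Finset.sum_congr rfl fun k _ => ?_
    rw [Fintype.sum_prod_type]
  rw [h2]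
  simp only [h1]
  have h3 : ∀ x : Fin p × (Fin p → Fin n) × Fin n,
      conj (∑ b ∈ B, g b x.2.1) * M (x.2.1 x.1) x.2.2 *
        (∑ b ∈ B, g b (Function.update x.2.1 x.1 x.2.2)) =
      ∑ b ∈ B, ∑ b' ∈ B, conj (g b x.2.1) * M (x.2.1 x.1) x.2.2 *
        g b' (Function.update x.2.1 x.1 x.2.2) := by
    intro x
    rw [map_sum, Finset.sum_mul, Finset.sum_mul_sum]
  simp only [h3]
  rw [Finset.sum_comm]
  refine Finset.sum_congr rfl fun b _ => ?_
  rw [Finset.sum_comm]

theorem crit {n p r : ℕ} {B : Finset (Finset (Fin n))} (hB : Design n p B r) (hn : 1 ≤ n) :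
    ∃ c : (Fin p → Fin n) → ℂ, c ≠ 0 ∧ Anti c ∧ ∃ κ : ℝ, 0 < κ ∧
      ∀ M : Matrix (Fin n) (Fin n) ℂ, Q M c = (κ : ℂ) * M.trace := by
  classical
  let e : Finset (Fin n) → Fin p → Fin n := fun b =>
    if h : b.card = p then b.orderEmbOfFin h else fun _ => ⟨0, by omega⟩
  have he : ∀ b ∈ B, Function.Injective (e b) ∧ Finset.univ.image (e b) = b := by
    intro b hb
    have hc := hB.card b hb
    have h1 : e b = b.orderEmbOfFin hc := by
      simp only [e, dif_pos hc]
    rw [h1]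
    refine ⟨(b.orderEmbOfFin hc).injective, ?_⟩
    apply Finset.coe_injective
    rw [Finset.coe_image, Finset.coe_univ, Set.image_univ, Finset.range_orderEmbOfFin]
  set c : (Fin p → Fin n) → ℂ := fun I => ∑ b ∈ B, alt (e b) I with hc
  have hκ : (0 : ℝ) < (p.factorial * r : ℕ) := by
    have := Nat.mul_pos (Nat.factorial_pos p) hB.pos
    exact_mod_cast this
  have hQ : ∀ M : Matrix (Fin n) (Fin n) ℂ, Q M c = (((p.factorial * r : ℕ) : ℝ) : ℂ) * M.trace := by
    intro M
    have h0 : Q M c = QQ M c c := rfl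
    rw [h0, hc, Crit_sum]
    have h1 : ∀ b ∈ B, ∑ b' ∈ B, QQ M (alt (e b)) (alt (e b')) =
        (p.factorial : ℂ) * ∑ i ∈ b, M i i := by
      intro b hb
      rw [Finset.sum_eq_single b]
      · rw [QQ_alt_self M (he b hb).1]
        congr 1
        conv_rhs => rw [← (he b hb).2]
        rw [Finset.sum_image (fun x _ y _ h => (he b hb).1 h)]
      · intro b' hb' hne
        apply QQ_alt_ne M (he b hb).1
        rw [(he b hb).2, (he b' hb').2]
        exact hB.sep b hb b' hb' (Ne.symm hne)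
      · intro h
        exact absurd hb h
    rw [Finset.sum_congr rfl h1, ← Finset.mul_sum]
    have h2 : ∑ b ∈ B, ∑ i ∈ b, M i i = (r : ℂ) * M.trace := by
      have h3 : ∀ b ∈ B, ∑ i ∈ b, M i i = ∑ i, if i ∈ b then M i i else 0 := by
        intro b _
        rw [Finset.sum_ite_mem, Finset.univ_inter]
      rw [Finset.sum_congr rfl h3, Finset.sum_comm, Matrix.trace, Finset.mul_sum]
      refine Finset.sum_congr rfl fun i _ => ?_
      rw [← Finset.sum_filter, Finset.sum_const, hB.reg i, nsmul_eq_mul]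
      rfl
    rw [h2]
    push_cast
    ring
  refine ⟨c, ?_, ?_, ((p.factorial * r : ℕ) : ℝ), hκ, hQ⟩
  · intro h
    have h1 := hQ 1
    rw [Matrix.trace_one, Fintype.card_fin] at h1
    have h2 : Q (1 : Matrix (Fin n) (Fin n) ℂ) c = 0 := by
      rw [h]
      simp [Q]
    rw [h2] at h1
    have h3 : (((p.factorial * r : ℕ) : ℝ) : ℂ) * (n : ℂ) ≠ 0 := by
      apply mul_ne_zero
      · exact_mod_cast hκ.ne'
      · exact_mod_cast (by omega : n ≠ 0)
    exact h3 h1.symm
  · intro σ J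
    rw [hc]
    dsimp only
    rw [Finset.mul_sum]
    exact Finset.sum_congr rfl fun b _ => alt_anti (e b) σ J

end Pool.Agent.XP
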