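import Pool.Agent.F057.Defs

/-!
Definitions: antisymmetric tensors, RC-positivity of the exterior powers of a Hermitian bundle
(with the induced metrics), and the numerical condition of the theorem.
-/

open scoped ComplexConjugate Manifold ContDiff Bundle
open Complex

namespace Pool.Agent.XP

open Pool.Agent.F057

/-- `a` is an antisymmetric tensor. -/
def Anti {ι : Type*} {p : ℕ} (a : (Fin p → ι) → ℂ) : Prop :=
  ∀ (σ : Equiv.Perm (Fin p)) (J : Fin p → ι), a (J ∘ σ) = ((Equiv.Perm.sign σ : ℤ) : ℂ) * a J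

section

variable {V : Type*} [NormedAddCommGroup V] [NormedSpace ℂ V]
  {X : Type*} [TopologicalSpace X] [ChartedSpace V X]
  {F : Type*} [NormedAddCommGroup F] [NormedSpace ℂ F] [FiniteDimensional ℂ F]
  {E : X → Type*} [∀ x, AddCommGroup (E x)] [∀ x, Module ℂ (E x)]
  [∀ x, TopologicalSpace (E x)] [TopologicalSpace (Bundle.TotalSpace F E)]
  [FiberBundle F E] [VectorBundle ℂ F E]

/-- `(Λ^p E, Λ^p h)` is RC-positive at `q`: for each nonzero antisymmetric tensor `a` in the fibre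
at `q` of `E^⊗p` there is a `v ∈ T_q X` with `R(v, v̄, a, ā) > 0`, `R` the curvature of `h^⊗p`. -/
def RCPositiveAltAt (h : HermMetric V F E) (p : ℕ) (q : X) : Prop :=
  ∀ a : (Fin p → Fin (Module.finrank ℂ F)) → ℂ, a ≠ 0 → Anti a →
    ∃ v : V, 0 < (sq (curvature h p q v) a a).re

end

/-- The condition on `p` and `m`: `3 ≤ p ≤ m - 3`, or `p ∈ {2, m - 2}` and `m` is even. -/
def Cond (p m : ℕ) : Prop := (3 ≤ p ∧ p + 3 ≤ m) ∨ ((p = 2 ∨ p + 2 = m) ∧ Even m)

end Pool.Agent.XP
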