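import Pool.Agent.XP.LDefs

/-!
MODULE Dens (size 2).
Proofs: exchange of finite sums. `dens_conj`: for fixed `k` the pairs `(I, J)` with
`J = update I k j`, `I k = i` are the pairs with `I = update J k i`, `J k = j`; substitute
`I ↦ update I k j` in the sum (bijection between the tuples with `I k = i` and those with
`I k = j`).
-/

open scoped ComplexConjugate
open Complex

namespace Pool.Agent.XP

variable {ι : Type*} [Fintype ι] [DecidableEq ι] {p : ℕ}

theorem Q_eq_dens (M : Matrix ι ι ℂ) (c : (Fin p → ι) → ℂ) :
    Q M c = ∑ i, ∑ j, M i j * dens c i j := by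
  unfold Q dens
  have h1 : ∀ i j : ι, M i j * (∑ k : Fin p, ∑ I : Fin p → ι,
      if I k = i then conj (c I) * c (Function.update I k j) else 0)
      = ∑ k : Fin p, ∑ I : Fin p → ι,
        if I k = i then conj (c I) * M (I k) j * c (Function.update I k j) else 0 := by
    intro i j
    rw [Finset.mul_sum]
    refine Finset.sum_congr rfl fun k _ => ?_
    rw [Finset.mul_sum]
    refine Finset.sum_congr rfl fun I _ => ?_
    by_cases h : I k = i
    · simp only [h, if_true]
      ring
    · simp [h]
  simp only [h1]
  have h2 : ∀ i : ι, (∑ j, ∑ k : Fin p, ∑ I : Fin p → ι,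
        if I k = i then conj (c I) * M (I k) j * c (Function.update I k j) else 0)
      = ∑ k : Fin p, ∑ I : Fin p → ι, if I k = i then
        ∑ j, conj (c I) * M (I k) j * c (Function.update I k j) else 0 := by
    intro i
    rw [Finset.sum_comm]
    refine Finset.sum_congr rfl fun k _ => ?_
    rw [Finset.sum_comm]
    refine Finset.sum_congr rfl fun I _ => ?_
    by_cases h : I k = i
    · simp only [h, if_true]
    · simp [h]
  simp only [h2]
  symm
  rw [Finset.sum_comm]
  refine Finset.sum_congr rfl fun k _ => ?_
  rw [Finset.sum_comm]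
  refine Finset.sum_congr rfl fun I _ => ?_
  simp only [Finset.sum_ite_eq, Finset.mem_univ, if_true]

theorem dens_diag (c : (Fin p → ι) → ℂ) (i : ι) :
    dens c i i = ((∑ k : Fin p, ∑ I : Fin p → ι, if I k = i then normSq (c I) else 0 : ℝ) : ℂ) := by
  unfold dens
  push_cast
  refine Finset.sum_congr rfl fun k _ => ?_
  refine Finset.sum_congr rfl fun I _ => ?_
  by_cases h : I k = i
  · simp only [h, if_true]
    rw [← h, Function.update_eq_self, Complex.normSq_eq_conj_mul_self]
  · simp [h]

theorem dens_diag_re_nonneg (c : (Fin p → ι) → ℂ) (i : ι) : 0 ≤ (dens c i i).re := by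
  rw [dens_diag, Complex.ofReal_re]
  refine Finset.sum_nonneg fun k _ => Finset.sum_nonneg fun I _ => ?_
  split_ifs
  · exact Complex.normSq_nonneg _
  · exact le_refl _

theorem dens_diag_im (c : (Fin p → ι) → ℂ) (i : ι) : (dens c i i).im = 0 := by
  rw [dens_diag, Complex.ofReal_im]

theorem dens_conj (c : (Fin p → ι) → ℂ) (i j : ι) : conj (dens c i j) = dens c j i := by
  unfold dens
  rw [map_sum]
  refine Finset.sum_congr rfl fun k _ => ?_
  rw [map_sum, ← Finset.sum_filter (fun I : Fin p → ι => I k = j)]
  have h0 : (∑ I : Fin p → ι, conj (if I k = i then conj (c I) * c (Function.update I k j) else 0))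
      = ∑ I ∈ Finset.univ.filter (fun I : Fin p → ι => I k = i),
        c I * conj (c (Function.update I k j)) := by
    rw [Finset.sum_filter]
    refine Finset.sum_congr rfl fun I _ => ?_
    by_cases h : I k = i
    · simp [h]
    · simp [h]
  rw [h0]
  refine Finset.sum_bij' (fun I _ => Function.update I k j) (fun J _ => Function.update J k i)
    ?_ ?_ ?_ ?_ ?_
  · intro I hI
    simp
  · intro J hJ
    simp
  · intro I hI
    have : I k = i := by simpa using hI
    rw [← this]
    simp
  · intro J hJ
    have : J k = j := by simpa using hJ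
    rw [← this]
    simp
  · intro I hI
    have : I k = i := by simpa using hI
    have h2 : Function.update (Function.update I k j) k i = I := by
      rw [← this]
      simp
    rw [h2, mul_comm]

theorem trace_dens (c : (Fin p → ι) → ℂ) : ∑ i, dens c i i = (p : ℂ) * (nsq c : ℂ) := by
  simp only [dens_diag]
  rw [← Complex.ofReal_sum]
  have : (∑ i, ∑ k : Fin p, ∑ I : Fin p → ι, if I k = i then normSq (c I) else 0)
      = (p : ℝ) * nsq c := by
    rw [Finset.sum_comm]
    have h1 : ∀ k : Fin p, (∑ i, ∑ I : Fin p → ι, if I k = i then normSq (c I) else 0) = nsq c := by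
      intro k
      rw [Finset.sum_comm]
      unfold nsq
      refine Finset.sum_congr rfl fun I _ => ?_
      rw [Finset.sum_ite_eq]
      simp
    simp only [h1]
    simp
  rw [this]
  push_cast
  rfl

end Pool.Agent.XP
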