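import Pool.Agent.XP.DesC

/-!
MODULE DesA (size 3).
Proofs. full: `B = {univ}`. half: `B = {i < p}, {p ≤ i}`, `r = 1`. pair: `B` = all
`{2k, 2k+1}`, `r = 1`. compl: `B' = B.image compl`; `b'ᶜ \ bᶜ = b \ b'`; `r' = |B| - r > 0` since
otherwise every `b ∈ B` is everything and `p = n`.
`design_exists`: `p = n` full. `Cond`: if `3 ≤ p ≤ n - 3`: `2p + 1 ≤ n` cyc, `n = 2p` half, else
`n - p` satisfies `3 ≤ n - p`, `2 (n - p) + 1 ≤ n`: cyc for `n - p` and compl. `p = 2`, `n` even:
pair. `p + 2 = n`, `n` even: complement of pair.
-/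

namespace Pool.Agent.XP

theorem design_full {n : ℕ} : ∃ B, ∃ r, Design n n B r := by
  classical
  refine ⟨{Finset.univ}, 1, ?_, ?_, ?_, Nat.one_pos⟩
  · intro b hb
    rw [Finset.mem_singleton] at hb
    subst hb
    simp
  · intro b hb b' hb' h
    rw [Finset.mem_singleton] at hb hb'
    exact absurd (hb.trans hb'.symm) h
  · intro i
    have : (({Finset.univ} : Finset (Finset (Fin n))).filter fun b => i ∈ b) = {Finset.univ} := by
      ext b
      simp only [Finset.mem_filter, Finset.mem_singleton]
      constructor
      · exact fun h => h.1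
      · intro h
        exact ⟨h, by rw [h]; exact Finset.mem_univ i⟩
    rw [this, Finset.card_singleton]

private theorem desA_card_lt {n p : ℕ} (h : p ≤ n) :
    (Finset.univ.filter fun i : Fin n => i.val < p).card = p := by
  have : (Finset.univ.filter fun i : Fin n => i.val < p)
      = (Finset.univ : Finset (Fin p)).image (Fin.castLE h) := by
    ext i
    simp only [Finset.mem_filter, Finset.mem_univ, true_and, Finset.mem_image]
    constructor
    · intro hi
      exact ⟨⟨i.val, hi⟩, by ext; rfl⟩
    · rintro ⟨j, rfl⟩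
      exact j.2
  rw [this, Finset.card_image_of_injective _ (Fin.castLE_injective h)]
  simp

theorem design_half {p : ℕ} (hp : 2 ≤ p) : ∃ B, ∃ r, Design (2 * p) p B r := by
  classical
  obtain ⟨u, hu⟩ : ∃ u : Finset (Fin (2 * p)), u = Finset.univ.filter fun i => i.val < p :=
    ⟨_, rfl⟩
  have hmem : ∀ i, i ∈ u ↔ i.val < p := by
    intro i
    rw [hu]
    simp
  have hcu : u.card = p := by
    rw [hu]
    exact desA_card_lt (by omega)
  have hcu' : uᶜ.card = p := by
    rw [Finset.card_compl, hcu, Fintype.card_fin]
    omega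
  have hne : u ≠ uᶜ := by
    intro h
    have h0 : (⟨0, by omega⟩ : Fin (2 * p)) ∈ u := (hmem _).2 (by simp; omega)
    exact Finset.mem_compl.1 (h ▸ h0) h0
  refine ⟨{u, uᶜ}, 1, ?_, ?_, ?_, Nat.one_pos⟩
  · intro b hb
    rw [Finset.mem_insert, Finset.mem_singleton] at hb
    rcases hb with rfl | rfl
    · exact hcu
    · exact hcu'
  · intro b hb b' hb' h
    rw [Finset.mem_insert, Finset.mem_singleton] at hb hb'
    rcases hb with hb | hb <;> rcases hb' with hb' | hb'
    · exact absurd (hb.trans hb'.symm) h
    · rw [hb, hb']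
      have : u \ uᶜ = u := by
        ext x
        simp
      rw [this, hcu]
      exact hp
    · rw [hb, hb']
      have : uᶜ \ u = uᶜ := by
        ext x
        simp
      rw [this, hcu']
      exact hp
    · exact absurd (hb.trans hb'.symm) h
  · intro i
    by_cases hi : i ∈ u
    · have : (({u, uᶜ} : Finset (Finset (Fin (2 * p)))).filter fun b => i ∈ b) = {u} := by
        ext b
        simp only [Finset.mem_filter, Finset.mem_insert, Finset.mem_singleton]
        constructor
        · rintro ⟨h | h, h2⟩
          · exact h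
          · rw [h, Finset.mem_compl] at h2
            exact absurd hi h2
        · intro h
          exact ⟨Or.inl h, by rw [h]; exact hi⟩
      rw [this, Finset.card_singleton]
    · have : (({u, uᶜ} : Finset (Finset (Fin (2 * p)))).filter fun b => i ∈ b) = {uᶜ} := by
        ext b
        simp only [Finset.mem_filter, Finset.mem_insert, Finset.mem_singleton]
        constructor
        · rintro ⟨h | h, h2⟩
          · rw [h] at h2
            exact absurd h2 hi
          · exact h
        · intro h
          exact ⟨Or.inr h, by rw [h, Finset.mem_compl]; exact hi⟩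
      rw [this, Finset.card_singleton]

theorem design_pair {k : ℕ} : ∃ B, ∃ r, Design (2 * k) 2 B r := by
  classical
  obtain ⟨f, hf⟩ : ∃ f : ℕ → Finset (Fin (2 * k)), ∀ c i, i ∈ f c ↔ i.val / 2 = c :=
    ⟨fun c => Finset.univ.filter fun i => i.val / 2 = c, fun c i => by simp⟩
  have hcard : ∀ c, c < k → (f c).card = 2 := by
    intro c hc
    have : f c = {(⟨2 * c, by omega⟩ : Fin (2 * k)), ⟨2 * c + 1, by omega⟩} := by
      ext i
      rw [hf, Finset.mem_insert, Finset.mem_singleton, Fin.ext_iff, Fin.ext_iff]
      simp only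
      omega
    rw [this, Finset.card_pair]
    intro h
    rw [Fin.ext_iff] at h
    simp at h
  refine ⟨(Finset.range k).image f, 1, ?_, ?_, ?_, Nat.one_pos⟩
  · intro b hb
    obtain ⟨c, hc, rfl⟩ := Finset.mem_image.1 hb
    exact hcard c (Finset.mem_range.1 hc)
  · intro b hb b' hb' h
    obtain ⟨c, hc, rfl⟩ := Finset.mem_image.1 hb
    obtain ⟨c', hc', rfl⟩ := Finset.mem_image.1 hb'
    have hcc : c ≠ c' := fun h' => h (by rw [h'])
    have : f c \ f c' = f c := by
      ext x
      rw [Finset.mem_sdiff, hf, hf]
      constructor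
      · exact fun h => h.1
      · intro h
        exact ⟨h, fun h' => hcc (h.symm.trans h')⟩
    rw [this, hcard c (Finset.mem_range.1 hc)]
  · intro i
    have : (((Finset.range k).image f).filter fun b => i ∈ b) = {f (i.val / 2)} := by
      ext b
      rw [Finset.mem_filter, Finset.mem_image, Finset.mem_singleton]
      constructor
      · rintro ⟨⟨c, hc, rfl⟩, h2⟩
        rw [hf] at h2
        rw [h2]
      · intro h
        refine ⟨⟨i.val / 2, Finset.mem_range.2 ?_, h.symm⟩, ?_⟩
        · have := i.2
          omega
        · rw [h, hf]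
    rw [this, Finset.card_singleton]

theorem Design.compl {n p : ℕ} (h : ∃ B, ∃ r, Design n p B r) (hp : p < n) :
    ∃ B, ∃ r, Design n (n - p) B r := by
  classical
  obtain ⟨B, r, hD⟩ := h
  have hinj : Function.Injective (fun b : Finset (Fin n) => bᶜ) := compl_injective
  have hle : ∀ i : Fin n, (B.filter fun b => i ∉ b).card + r = B.card := by
    intro i
    rw [← hD.reg i, add_comm]
    exact Finset.card_filter_add_card_filter_not (s := B) (fun b => i ∈ b)
  have hr : r < B.card := by
    by_contra hcon
    have hle0 : ∀ i : Fin n, (B.filter fun b => i ∉ b).card = 0 := by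
      intro i
      have := hle i
      omega
    have hpos : 0 < B.card := by
      have h1 := hD.reg ⟨0, by omega⟩
      have h2 := Finset.card_filter_le B (fun b => (⟨0, by omega⟩ : Fin n) ∈ b)
      have h3 := hD.pos
      omega
    obtain ⟨b, hb⟩ := Finset.card_pos.1 hpos
    have huniv : b = Finset.univ := by
      ext i
      simp only [Finset.mem_univ, iff_true]
      by_contra hi
      have h1 : b ∈ B.filter fun b => i ∉ b := Finset.mem_filter.2 ⟨hb, hi⟩
      rw [Finset.card_eq_zero.1 (hle0 i)] at h1
      exact Finset.notMem_empty _ h1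
    have h1 := hD.card b hb
    rw [huniv, Finset.card_univ, Fintype.card_fin] at h1
    omega
  refine ⟨B.image fun b => bᶜ, B.card - r, ?_, ?_, ?_, by omega⟩
  · intro b hb
    obtain ⟨c, hc, rfl⟩ := Finset.mem_image.1 hb
    rw [Finset.card_compl, hD.card c hc, Fintype.card_fin]
  · intro b hb b' hb' h
    obtain ⟨c, hc, rfl⟩ := Finset.mem_image.1 hb
    obtain ⟨c', hc', rfl⟩ := Finset.mem_image.1 hb'
    have hcc : c' ≠ c := fun h' => h (by rw [h'])
    have : cᶜ \ c'ᶜ = c' \ c := by
      ext x
      simp only [Finset.mem_sdiff, Finset.mem_compl, not_not]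
      exact and_comm
    rw [this]
    exact hD.sep c' hc' c hc hcc
  · intro i
    have h1 : ((B.image fun b => bᶜ).filter fun b => i ∈ b)
        = (B.filter fun b => i ∉ b).image fun b => bᶜ := by
      ext b
      simp only [Finset.mem_filter, Finset.mem_image]
      constructor
      · rintro ⟨⟨c, hc, rfl⟩, h2⟩
        exact ⟨c, ⟨hc, by simpa using h2⟩, rfl⟩
      · rintro ⟨c, ⟨hc, h2⟩, rfl⟩
        exact ⟨⟨c, hc, rfl⟩, by simpa using h2⟩
    rw [h1, Finset.card_image_of_injective _ hinj]
    have := hle i
    omega

theorem design_exists {n p : ℕ} (hp : 1 ≤ p) (h : p = n ∨ (p < n ∧ Cond p n)) :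
    ∃ B, ∃ r, Design n p B r := by
  rcases h with h | ⟨hpn, hc⟩
  · rw [h]
    exact design_full
  rcases hc with ⟨h3, h4⟩ | ⟨h2 | h2, hev⟩
  · rcases lt_trichotomy (2 * p) n with hlt | heq | hgt
    · exact design_cyc h3 (by omega)
    · rw [← heq]
      exact design_half (by omega)
    · have hD : ∃ B, ∃ r, Design n (n - p) B r := design_cyc (by omega) (by omega)
      have := Design.compl hD (by omega)
      have hnp : n - (n - p) = p := by omega
      rw [hnp] at this
      exact this
  · obtain ⟨k, hk⟩ := hev
    have hk2 : n = 2 * k := by omega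
    rw [h2, hk2]
    exact design_pair
  · obtain ⟨k, hk⟩ := hev
    have hk2 : n = 2 * k := by omega
    have hD : ∃ B, ∃ r, Design n 2 B r := by
      rw [hk2]
      exact design_pair
    have := Design.compl hD (by omega)
    have hnp : n - 2 = p := by omega
    rw [hnp] at this
    exact this

end Pool.Agent.XP
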