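import Pool.Agent.XP.LDefs

/-!
MODULE DesC (size 4).
Proof. Base block `{0, ..., p-2} ∪ {p}`. For `s : Fin n` let
`b s = {i : Fin n | (i + s) % n < p - 1 ∨ (i + s) % n = p}` (natural numbers). `B` = the set of all
`b s`. Every `b s` has `p` elements (`i ↦ (i + s) % n` is a bijection). Every `i` is in exactly `p`
of the `b s`, `s < n` (symmetric argument), and the `b s` are pairwise different by `sep`, so
`r = p`. `sep`: for `s ≠ t` let `d = (t - s) mod n ∈ [1, n-1]`; one needs two `x` in the base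
(`x = (i + s) % n`) with `(x + d) % n` not in the base (`= (i + t) % n`):
 d = 1: x = p-2, p;   d = 2: x = p-3, p;   3 ≤ d ≤ p: x = p-2, p;
 p < d < n-p: x = 0, 1;   d = n-1: x = 0, p;   n-p ≤ d ≤ n-2: x = 0, 1.
(recall p ≥ 3 and n ≥ 2p+1.) You may use any other construction.
-/

namespace Pool.Agent.XP

private theorem DesC_mod {n a : ℕ} (h : a < n) : a % n = a := Nat.mod_eq_of_lt h

private theorem DesC_pair {n p : ℕ} (hp : 3 ≤ p) (hn : 2 * p + 1 ≤ n) (D : ℕ) (h1 : 1 ≤ D)
    (h2 : D < n) : ∃ x x' : ℕ, x < n ∧ x' < n ∧ x ≠ x' ∧ (x < p - 1 ∨ x = p) ∧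
      (x' < p - 1 ∨ x' = p) ∧ ¬ ((x + D) % n < p - 1 ∨ (x + D) % n = p) ∧
      ¬ ((x' + D) % n < p - 1 ∨ (x' + D) % n = p) := by
  by_cases c1 : D = 1
  · refine ⟨p - 2, p, by omega, by omega, by omega, by omega, by omega, ?_, ?_⟩
    · rw [DesC_mod (by omega)]; omega
    · rw [DesC_mod (by omega)]; omega
  by_cases c2 : D = 2
  · refine ⟨p - 3, p, by omega, by omega, by omega, by omega, by omega, ?_, ?_⟩
    · rw [DesC_mod (by omega)]; omega
    · rw [DesC_mod (by omega)]; omega
  by_cases c3 : D ≤ p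
  · refine ⟨p - 2, p, by omega, by omega, by omega, by omega, by omega, ?_, ?_⟩
    · rw [DesC_mod (by omega)]; omega
    · rw [DesC_mod (by omega)]; omega
  by_cases c4 : D = n - 1
  · refine ⟨0, p, by omega, by omega, by omega, by omega, by omega, ?_, ?_⟩
    · rw [DesC_mod (by omega)]; omega
    · have h3 : (p + D) % n = p - 1 := by
        have h4 : p + D = (p - 1) + n := by omega
        rw [h4, Nat.add_mod_right, DesC_mod (by omega)]
      rw [h3]; omega
  · refine ⟨0, 1, by omega, by omega, by omega, by omega, by omega, ?_, ?_⟩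
    · rw [DesC_mod (by omega)]; omega
    · rw [DesC_mod (by omega)]; omega

theorem design_cyc {n p : ℕ} (hp : 3 ≤ p) (hn : 2 * p + 1 ≤ n) :
    ∃ B, ∃ r, Design n p B r := by
  classical
  have : NeZero n := ⟨by omega⟩
  let A : Finset (Fin n) := (insert p (Finset.range (p - 1))).attachFin (by
    intro m hm
    rw [Finset.mem_insert, Finset.mem_range] at hm
    omega)
  have hA : ∀ x : Fin n, x ∈ A ↔ ((x : ℕ) < p - 1 ∨ (x : ℕ) = p) := by
    intro x
    rw [Finset.mem_attachFin, Finset.mem_insert, Finset.mem_range, or_comm]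
  have hAc : A.card = p := by
    rw [Finset.card_attachFin, Finset.card_insert_of_notMem, Finset.card_range]
    · omega
    · rw [Finset.mem_range]; omega
  let b : Fin n → Finset (Fin n) := fun s => Finset.univ.filter (fun i => i + s ∈ A)
  have hb : ∀ s i, i ∈ b s ↔ i + s ∈ A := by
    intro s i
    simp only [b, Finset.mem_filter, Finset.mem_univ, true_and]
  have hcard : ∀ s, (b s).card = p := by
    intro s
    rw [← hAc]
    refine Finset.card_bij (fun i _ => i + s) (fun i hi => (hb s i).1 hi) ?_ ?_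
    · intro i _ j _ h
      exact add_right_cancel h
    · intro x hx
      refine ⟨x - s, (hb s _).2 ?_, ?_⟩
      · rw [sub_add_cancel]; exact hx
      · rw [sub_add_cancel]
  have hsep : ∀ s t, s ≠ t → 2 ≤ (b s \ b t).card := by
    intro s t hst
    have hd : t - s ≠ 0 := fun h => hst (sub_eq_zero.1 h).symm
    obtain ⟨x, x', hx, hx', hne, hxA, hx'A, h3, h4⟩ := DesC_pair hp hn ((t - s : Fin n) : ℕ)
      (Nat.one_le_iff_ne_zero.2 fun h => hd (Fin.ext (by rw [h]; simp))) (t - s).isLt
    have key : ∀ (y : ℕ) (hy : y < n), (y < p - 1 ∨ y = p) →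
        ¬ ((y + ((t - s : Fin n) : ℕ)) % n < p - 1 ∨ (y + ((t - s : Fin n) : ℕ)) % n = p) →
        (⟨y, hy⟩ - s : Fin n) ∈ b s \ b t := by
      intro y hy h5 h6
      rw [Finset.mem_sdiff, hb, hb, sub_add_cancel, hA, hA]
      refine ⟨h5, ?_⟩
      have h7 : (⟨y, hy⟩ - s + t : Fin n) = ⟨y, hy⟩ + (t - s) := by
        rw [sub_add_eq_add_sub, add_sub_assoc]
      rw [h7, Fin.val_add]
      exact h6
    have h5 := key x hx hxA h3
    have h6 := key x' hx' hx'A h4
    refine Finset.one_lt_card.2 ⟨_, h5, _, h6, fun h => hne ?_⟩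
    have h7 := sub_left_injective h
    exact Fin.mk.inj_iff.1 h7
  have hinj : Function.Injective b := by
    intro s t h
    by_contra hst
    have h1 := hsep s t hst
    rw [h, sdiff_self] at h1
    simp at h1
  refine ⟨Finset.univ.image b, p, ?_, ?_, ?_, by omega⟩
  · intro c hc
    obtain ⟨s, -, rfl⟩ := Finset.mem_image.1 hc
    exact hcard s
  · intro c hc c' hc' hne
    obtain ⟨s, -, rfl⟩ := Finset.mem_image.1 hc
    obtain ⟨t, -, rfl⟩ := Finset.mem_image.1 hc'
    exact hsep s t fun h => hne (by rw [h])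
  · intro i
    have h1 : (Finset.univ.image b).filter (fun c => i ∈ c) =
        (Finset.univ.filter (fun s => i ∈ b s)).image b := by
      rw [Finset.filter_image]
    rw [h1, Finset.card_image_of_injective _ hinj]
    conv_rhs => rw [← hAc]
    refine Finset.card_bij (fun s _ => i + s) ?_ ?_ ?_
    · intro s hs
      rw [Finset.mem_filter] at hs
      exact (hb s i).1 hs.2
    · intro s _ t _ h
      exact add_left_cancel h
    · intro x hx
      refine ⟨x - i, ?_, ?_⟩
      · rw [Finset.mem_filter, hb, add_sub_cancel]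
        exact ⟨Finset.mem_univ _, hx⟩
      · rw [add_sub_cancel]

end Pool.Agent.XP
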