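import Mathlib

/-!
MODULE Frame (size 1).
Proof. `H = Bᴴ * B` (`CStarAlgebra.nonneg_iff_eq_star_mul_self.mp hH.posSemidef.nonneg`, needs
`open scoped MatrixOrder`; see `F057/Diag.lean`, theorem `diag_functional`), `B` is invertible as
`H` is; `S = B⁻¹`.
-/

open scoped ComplexConjugate ComplexOrder MatrixOrder
open Complex Matrix

namespace Pool.Agent.XP

theorem exists_frame {ι : Type*} [Fintype ι] [DecidableEq ι] {H : Matrix ι ι ℂ} (hH : H.PosDef) :
    ∃ S : Matrix ι ι ℂ, Sᴴ * H * S = 1 := by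
  obtain ⟨B, hB⟩ := CStarAlgebra.nonneg_iff_eq_star_mul_self.mp hH.posSemidef.nonneg
  rw [Matrix.star_eq_conjTranspose] at hB
  have hu : IsUnit H := hH.isUnit
  have hBu : IsUnit B := by
    rw [Matrix.isUnit_iff_isUnit_det] at hu ⊢
    rw [hB, Matrix.det_mul] at hu
    exact isUnit_of_mul_isUnit_right hu
  have hdet : IsUnit B.det := (Matrix.isUnit_iff_isUnit_det B).1 hBu
  refine ⟨B⁻¹, ?_⟩
  rw [hB, Matrix.conjTranspose_nonsing_inv, ← Matrix.mul_assoc,
    Matrix.nonsing_inv_mul _ (by rw [Matrix.det_conjTranspose]; exact hdet.star), Matrix.one_mul,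
    Matrix.mul_nonsing_inv _ hdet]

end Pool.Agent.XP
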