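import Pool.Agent.XP.Dens

/-!
MODULE NCa (size 3).
Proofs. `core_one`: `c` is a vector `x i = c (fun _ => i)`, `dens c i j = conj (x i) * x j`. Off
diagonal zero and `|x i|^2 = t` for all `i`: with two different indices `t = 0`, so `c = 0`.
`core_two`: with the matrix `C i j = c ![i, j]` (antisymmetric), `dens c i j = 2 * ∑ l, conj (C i l)
* C j l`. If `C.det = 0` there is a nonzero `y` with `y ᵥ* C = 0`; then `0 = ∑ i j, conj (y i) * y j *
dens c i j = t * ∑ |y i|^2`, so `t = 0` and `C = 0`, `c = 0`. And `C.det = Cᵀ.det = (-C).det =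
-C.det` as `m` is odd.
`anti_zero_of_lt`: no injective map `Fin p → Fin m`; swap two equal entries.
-/

open scoped ComplexConjugate
open Complex

namespace Pool.Agent.XP

theorem core_one {m : ℕ} (hm : 2 ≤ m) {c : (Fin 1 → Fin m) → ℂ} (hc0 : c ≠ 0) {t : ℝ}
    (hd : ∀ i j, dens c i j = if i = j then (t : ℂ) else 0) : False := by
  have hfun : ∀ (I : Fin 1 → Fin m) (i : Fin m), I 0 = i → I = fun _ => i := by
    intro I i h
    funext a
    rw [← h, Subsingleton.elim a 0]
  have key : ∀ i j, dens c i j = conj (c fun _ => i) * c (fun _ => j) := by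
    intro i j
    unfold dens
    rw [Fin.sum_univ_one, Finset.sum_eq_single (fun _ => i)]
    · rw [if_pos rfl]
      congr 2
      exact hfun _ _ (Function.update_self _ _ _)
    · intro I _ hne
      rw [if_neg]
      exact fun h => hne (hfun I i h)
    · intro h
      exact absurd (Finset.mem_univ _) h
  have h01 := hd ⟨0, by omega⟩ ⟨1, by omega⟩
  rw [key, if_neg (by simp)] at h01
  have ht : (t : ℂ) = 0 := by
    rcases mul_eq_zero.1 h01 with h | h
    · have h2 := hd ⟨0, by omega⟩ ⟨0, by omega⟩
      rw [key, if_pos rfl, h, zero_mul] at h2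
      exact h2.symm
    · have h2 := hd ⟨1, by omega⟩ ⟨1, by omega⟩
      rw [key, if_pos rfl, h, mul_zero] at h2
      exact h2.symm
  apply hc0
  funext I
  have h2 := hd (I 0) (I 0)
  rw [key, if_pos rfl, ht, mul_eq_zero, map_eq_zero, or_self] at h2
  rw [hfun I (I 0) rfl, h2]
  rfl

private theorem NCa_sum2 {m : ℕ} (f : (Fin 2 → Fin m) → ℂ) :
    ∑ I : Fin 2 → Fin m, f I = ∑ a, ∑ b, f ![a, b] := by
  rw [← (finTwoArrowEquiv (Fin m)).symm.sum_comp, Fintype.sum_prod_type]
  rfl

private theorem NCa_swap {m : ℕ} {c : (Fin 2 → Fin m) → ℂ} (hc : Anti c) (i j : Fin m) :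
    c ![j, i] = -c ![i, j] := by
  have h := hc (Equiv.swap 0 1) ![i, j]
  have h1 : (![i, j] ∘ (Equiv.swap (0 : Fin 2) 1)) = ![j, i] := by
    funext a
    fin_cases a <;> simp
  rw [h1, Equiv.Perm.sign_swap (by decide)] at h
  rw [h]
  simp

private theorem NCa_dens {m : ℕ} {c : (Fin 2 → Fin m) → ℂ} (hc : Anti c) (i j : Fin m) :
    dens c i j = 2 * ∑ l, conj (c ![i, l]) * c ![j, l] := by
  unfold dens
  rw [Fin.sum_univ_two, NCa_sum2, NCa_sum2]
  have h0 : ∀ a b : Fin m, Function.update ![a, b] 0 j = ![j, b] := by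
    intro a b; funext x; fin_cases x <;> simp
  have h1 : ∀ a b : Fin m, Function.update ![a, b] 1 j = ![a, j] := by
    intro a b; funext x; fin_cases x <;> simp
  have e0 : ∑ a, ∑ b, (if (![a, b] : Fin 2 → Fin m) 0 = i then
      conj (c ![a, b]) * c (Function.update ![a, b] 0 j) else 0) =
      ∑ l, conj (c ![i, l]) * c ![j, l] := by
    rw [Finset.sum_eq_single i]
    · apply Finset.sum_congr rfl
      intro b _
      rw [if_pos (by simp), h0]
    · intro a _ hne
      apply Finset.sum_eq_zero
      intro b _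
      rw [if_neg (by simpa using hne)]
    · intro h; exact absurd (Finset.mem_univ _) h
  have e1 : ∑ a, ∑ b, (if (![a, b] : Fin 2 → Fin m) 1 = i then
      conj (c ![a, b]) * c (Function.update ![a, b] 1 j) else 0) =
      ∑ l, conj (c ![i, l]) * c ![j, l] := by
    apply Finset.sum_congr rfl
    intro a _
    rw [Finset.sum_eq_single i]
    · rw [if_pos (by simp), h1, NCa_swap hc i a, NCa_swap hc j a, map_neg]
      ring
    · intro b _ hne
      rw [if_neg (by simpa using hne)]
    · intro h; exact absurd (Finset.mem_univ _) h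
  rw [e0, e1]
  ring

theorem core_two {m : ℕ} (hm : Odd m) {c : (Fin 2 → Fin m) → ℂ} (hc0 : c ≠ 0) (hc : Anti c)
    {t : ℝ} (hd : ∀ i j, dens c i j = if i = j then (t : ℂ) else 0) : False := by
  let C : Matrix (Fin m) (Fin m) ℂ := Matrix.of fun i j => c ![i, j]
  have hT : C.transpose = -C := by
    ext i j
    exact NCa_swap hc i j
  have hdet : C.det = 0 := by
    have h1 : C.det = -C.det := by
      conv_lhs => rw [← Matrix.det_transpose, hT, Matrix.det_neg, Fintype.card_fin, hm.neg_one_pow]
      ring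
    have h2 : (2 : ℂ) * C.det = 0 := by linear_combination h1
    simpa using h2
  obtain ⟨y, hy0, hy⟩ := Matrix.exists_vecMul_eq_zero_iff.2 hdet
  have hyl : ∀ l, ∑ i, y i * c ![i, l] = 0 := fun l => congrFun hy l
  have hsum : ∑ i, ∑ j, conj (y i) * y j * (∑ l, conj (c ![i, l]) * c ![j, l]) = 0 := by
    have h1 : ∑ i, ∑ j, conj (y i) * y j * (∑ l, conj (c ![i, l]) * c ![j, l]) =
        ∑ l, (∑ i, conj (y i * c ![i, l])) * (∑ j, y j * c ![j, l]) := by
      have e : ∀ l, (∑ i, conj (y i * c ![i, l])) * (∑ j, y j * c ![j, l]) =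
          ∑ i, ∑ j, conj (y i * c ![i, l]) * (y j * c ![j, l]) := fun l =>
        Finset.sum_mul_sum _ _ _ _
      simp only [e]
      symm
      rw [Finset.sum_comm]
      apply Finset.sum_congr rfl
      intro i _
      rw [Finset.sum_comm]
      apply Finset.sum_congr rfl
      intro j _
      rw [Finset.mul_sum]
      apply Finset.sum_congr rfl
      intro l _
      rw [map_mul]
      ring
    rw [h1]
    apply Finset.sum_eq_zero
    intro l _
    rw [hyl l, mul_zero]
  have ht : (t : ℂ) = 0 := by
    have h1 : ∑ i, ∑ j, conj (y i) * y j * dens c i j = 0 := by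
      have h2 : ∑ i, ∑ j, conj (y i) * y j * dens c i j =
          2 * ∑ i, ∑ j, conj (y i) * y j * (∑ l, conj (c ![i, l]) * c ![j, l]) := by
        rw [Finset.mul_sum]
        apply Finset.sum_congr rfl
        intro i _
        rw [Finset.mul_sum]
        apply Finset.sum_congr rfl
        intro j _
        rw [NCa_dens hc]
        ring
      rw [h2, hsum, mul_zero]
    have h3 : ∑ i, ∑ j, conj (y i) * y j * dens c i j = t * ((∑ i, normSq (y i) : ℝ) : ℂ) := by
      push_cast
      rw [Finset.mul_sum]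
      apply Finset.sum_congr rfl
      intro i _
      rw [Finset.sum_eq_single i]
      · rw [hd, if_pos rfl, normSq_eq_conj_mul_self]
        ring
      · intro j _ hne
        rw [hd, if_neg hne.symm, mul_zero]
      · intro h; exact absurd (Finset.mem_univ _) h
    rw [h3, mul_eq_zero] at h1
    rcases h1 with h1 | h1
    · exact h1
    · exfalso
      apply hy0
      have h4 : (∑ i, normSq (y i) : ℝ) = 0 := by exact_mod_cast h1
      rw [Finset.sum_eq_zero_iff_of_nonneg (fun i _ => normSq_nonneg _)] at h4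
      funext i
      exact normSq_eq_zero.1 (h4 i (Finset.mem_univ _))
  apply hc0
  funext I
  have h1 := hd (I 0) (I 0)
  rw [NCa_dens hc, if_pos rfl, ht] at h1
  have h2 : ((∑ l, normSq (c ![I 0, l]) : ℝ) : ℂ) = 0 := by
    push_cast
    simp only [normSq_eq_conj_mul_self]
    simpa using h1
  have h3 : (∑ l, normSq (c ![I 0, l]) : ℝ) = 0 := by exact_mod_cast h2
  rw [Finset.sum_eq_zero_iff_of_nonneg (fun i _ => normSq_nonneg _)] at h3
  have h4 := normSq_eq_zero.1 (h3 (I 1) (Finset.mem_univ _))
  have h5 : I = ![I 0, I 1] := by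
    funext x; fin_cases x <;> simp
  rw [h5, h4]
  rfl

theorem anti_zero_of_lt {m p : ℕ} (h : m < p) {c : (Fin p → Fin m) → ℂ} (hc : Anti c) :
    c = 0 := by
  funext J
  have hni : ¬ Function.Injective J := by
    intro hinj
    have := Fintype.card_le_of_injective J hinj
    simp at this
    omega
  rw [Function.Injective] at hni
  push Not at hni
  obtain ⟨a, b, hab, hne⟩ := hni
  have h1 := hc (Equiv.swap a b) J
  have h2 : J ∘ (Equiv.swap a b) = J := by
    funext x
    rw [Function.comp_apply, Equiv.swap_apply_def]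
    split_ifs with h3 h4
    · rw [h3, hab]
    · rw [h4, hab]
    · rfl
  rw [h2, Equiv.Perm.sign_swap hne] at h1
  have h3 : c J = -c J := by
    conv_lhs => rw [h1]
    simp
  have h4 : (2 : ℂ) * c J = 0 := by linear_combination h3
  simpa using h4

end Pool.Agent.XP
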