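import Pool.Agent.XP.LDefs

/-!
MODULE Top (size 2).
Proofs. `anti_not_inj`: if `I k = I l` with `k ≠ l`, apply `Anti` to `swap k l`:
`I ∘ swap k l = I`, sign `-1`, so `2 * c I = 0`.
`Q_top`: a tuple `I : Fin n → Fin n` with `c I ≠ 0` is injective, hence a permutation
(`Finite.injective_iff_surjective`), and `update I k j` is injective only if `j = I k` (otherwise
the value `j` is already taken at another place). So only `j = I k` contributes and
`∑ k, M (I k) (I k) = trace M`.
-/

open scoped ComplexConjugate
open Complex

namespace Pool.Agent.XP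

theorem anti_not_inj {ι : Type*} {p : ℕ} {c : (Fin p → ι) → ℂ} (hc : Anti c) {I : Fin p → ι}
    (hI : ¬ Function.Injective I) : c I = 0 := by
  classical
  unfold Function.Injective at hI
  push Not at hI
  obtain ⟨k, l, hkl, hne⟩ := hI
  have h1 := hc (Equiv.swap k l) I
  have h2 : I ∘ (Equiv.swap k l) = I := by
    funext x
    simp only [Function.comp]
    by_cases hx : x = k
    · rw [hx, Equiv.swap_apply_left, hkl]
    · by_cases hx' : x = l
      · rw [hx', Equiv.swap_apply_right, hkl]
      · rw [Equiv.swap_apply_of_ne_of_ne hx hx']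
  rw [h2, Equiv.Perm.sign_swap hne] at h1
  have h3 : c I = -c I := by
    conv_lhs => rw [h1]
    simp
  linear_combination (1 / 2 : ℂ) * h3

theorem Q_top {n : ℕ} (M : Matrix (Fin n) (Fin n) ℂ) {c : (Fin n → Fin n) → ℂ} (hc : Anti c) :
    Q M c = M.trace * (nsq c : ℂ) := by
  classical
  unfold Q nsq
  rw [Finset.sum_comm]
  push_cast
  rw [Finset.mul_sum]
  refine Finset.sum_congr rfl fun I _ => ?_
  by_cases hI : Function.Injective I
  · have hb : Function.Bijective I := Finite.injective_iff_bijective.1 hI
    have h1 : ∀ k : Fin n, ∑ j, conj (c I) * M (I k) j * c (Function.update I k j) =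
        M (I k) (I k) * (Complex.normSq (c I) : ℂ) := by
      intro k
      rw [Finset.sum_eq_single (I k)]
      · rw [Function.update_eq_self, ← Complex.mul_conj]
        ring
      · intro j _ hj
        obtain ⟨l, hl⟩ := hb.2 j
        have hlk : l ≠ k := fun h => hj (by rw [← hl, h])
        rw [anti_not_inj hc (I := Function.update I k j), mul_zero]
        intro hinj
        apply hlk
        apply hinj
        rw [Function.update_self, Function.update_of_ne hlk, hl]
      · intro h
        exact absurd (Finset.mem_univ _) h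
    rw [Finset.sum_congr rfl fun k _ => h1 k, ← Finset.sum_mul]
    congr 1
    unfold Matrix.trace
    exact hb.sum_comp fun i => M i i
  · rw [anti_not_inj hc hI]
    simp

theorem nsq_pos {ι : Type*} [Fintype ι] {p : ℕ} {c : (Fin p → ι) → ℂ} (hc : c ≠ 0) :
    0 < nsq c := by
  classical
  have h1 : ∃ I, c I ≠ 0 := by
    by_contra h
    push Not at h
    exact hc (funext h)
  obtain ⟨I, hI⟩ := h1
  unfold nsq
  exact Finset.sum_pos' (fun J _ => Complex.normSq_nonneg _)
    ⟨I, Finset.mem_univ _, Complex.normSq_pos.2 hI⟩

end Pool.Agent.XP
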