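import Pool.Agent.XP.Red
import Pool.Agent.XP.Frame
import Pool.Agent.XP.Top
import Pool.Agent.XP.Crit
import Pool.Agent.XP.DesA
import Pool.Agent.XP.Gram

open scoped ComplexConjugate Manifold ContDiff Bundle ComplexOrder
open Complex Matrix

namespace Pool.Agent.XP

open Pool.Agent.F057

variable {V : Type*} [NormedAddCommGroup V] [NormedSpace ℂ V]
  {X : Type*} [TopologicalSpace X] [ChartedSpace V X]
  {F : Type*} [NormedAddCommGroup F] [NormedSpace ℂ F] [FiniteDimensional ℂ F]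
  {E : X → Type*} [∀ x, AddCommGroup (E x)] [∀ x, Module ℂ (E x)]
  [∀ x, TopologicalSpace (E x)] [TopologicalSpace (Bundle.TotalSpace F E)]
  [FiberBundle F E] [VectorBundle ℂ F E]

theorem lin_pos {n p : ℕ} (hp : 1 ≤ p) (h : p = n ∨ (p < n ∧ Cond p n)) {α : Type*}
    (R : α → Matrix (Fin n) (Fin n) ℂ)
    (hR : ∀ c : (Fin p → Fin n) → ℂ, c ≠ 0 → Anti c → ∃ v, 0 < (Q (R v) c).re) :
    ∀ c : (Fin n → Fin n) → ℂ, c ≠ 0 → Anti c → ∃ v, 0 < (Q (R v) c).re := by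
  intro c hc0 hc
  have hn : 1 ≤ n := by omega
  obtain ⟨B, r, hB⟩ := design_exists hp h
  obtain ⟨d, hd0, hd, κ, hκ, hQ⟩ := crit hB hn
  obtain ⟨v, hv⟩ := hR d hd0 hd
  refine ⟨v, ?_⟩
  rw [hQ] at hv
  rw [Q_top _ hc, mul_comm, Complex.re_ofReal_mul]
  rw [Complex.re_ofReal_mul] at hv
  exact mul_pos (nsq_pos hc0) (by nlinarith)

theorem pos (h : HermMetric V F E) (q : X) {p : ℕ} (hp : 1 ≤ p)
    (hpn : p = Module.finrank ℂ F ∨ (p < Module.finrank ℂ F ∧ Cond p (Module.finrank ℂ F)))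
    (hR : RCPositiveAltAt h p q) : RCPositiveAltAt h (Module.finrank ℂ F) q := by
  obtain ⟨S, hS⟩ := exists_frame (gram_posDef h q)
  have key := fun k => rcAlt_iff (gram_contDiffAt h q) (gram_posDef h q) hS k
  exact (key _).2 (lin_pos hp hpn _ ((key p).1 hR))

end Pool.Agent.XP
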