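import Pool.Agent.XP.Slot
import Pool.Agent.XP.Congr

/-!
MODULE Red (size 3).
Proof. `curv_tpow hH pH p : curv (tpow H p) z v = slot (curv H z v) (H z) p` (F057/Tensor).
`S` is invertible (`Sᴴ * H z` is a left inverse), put `T = S⁻¹`; `mpow S p * mpow T p = 1` by
`mpow_mul`, `mpow_one`. (→): for `c` take `a = (mpow S p).mulVec c`: `a ≠ 0` (apply `mpow T p`),
`Anti a` by `anti_mulVec`, and `sq (slot K (H z) p) a a = sq (slot (Sᴴ K S) 1 p) c c = Q (Sᴴ K S) c`
by `sq_mulVec`, `slot_congr`, `hS`, `sq_slot_one`. (←): for `a` take `c = (mpow T p).mulVec a`, so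
that `a = (mpow S p).mulVec c`, and use the same computation.
-/

open scoped ComplexConjugate ContDiff ComplexOrder
open Complex Matrix

namespace Pool.Agent.XP

open Pool.Agent.F057

theorem rcAlt_iff {V : Type*} [NormedAddCommGroup V] [NormedSpace ℂ V]
    {ι : Type*} [Fintype ι] [DecidableEq ι] {H : V → Matrix ι ι ℂ} {z : V}
    (hH : ∀ i j, ContDiffAt ℝ 2 (fun w => H w i j) z) (pH : (H z).PosDef)
    {S : Matrix ι ι ℂ} (hS : Sᴴ * H z * S = 1) (p : ℕ) :
    (∀ a : (Fin p → ι) → ℂ, a ≠ 0 → Anti a →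
        ∃ v : V, 0 < (sq (curv (tpow H p) z v) a a).re) ↔
      (∀ c : (Fin p → ι) → ℂ, c ≠ 0 → Anti c →
        ∃ v : V, 0 < (Q (Sᴴ * curv H z v * S) c).re) := by
  have hTS : (Sᴴ * H z) * S = 1 := hS
  have hST : S * (Sᴴ * H z) = 1 := mul_eq_one_comm.1 hTS
  have key : ∀ (c : (Fin p → ι) → ℂ) (v : V),
      sq (curv (tpow H p) z v) ((mpow S p).mulVec c) ((mpow S p).mulVec c) =
        Q (Sᴴ * curv H z v * S) c := by
    intro c v
    rw [curv_tpow hH pH p, sq_mulVec, slot_congr, hS, sq_slot_one]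
  have m1 : mpow S p * mpow (Sᴴ * H z) p = 1 := by rw [mpow_mul, hST, mpow_one]
  have m2 : mpow (Sᴴ * H z) p * mpow S p = 1 := by rw [mpow_mul, hTS, mpow_one]
  constructor
  · intro h c hc hA
    obtain ⟨v, hv⟩ := h ((mpow S p).mulVec c) (by
      intro h0
      apply hc
      have h1 : (mpow (Sᴴ * H z) p).mulVec ((mpow S p).mulVec c) = c := by
        rw [Matrix.mulVec_mulVec, m2, Matrix.one_mulVec]
      rw [← h1, h0, Matrix.mulVec_zero]) (anti_mulVec S hA)
    refine ⟨v, ?_⟩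
    rw [key] at hv
    exact hv
  · intro h a ha hA
    have h1 : (mpow S p).mulVec ((mpow (Sᴴ * H z) p).mulVec a) = a := by
      rw [Matrix.mulVec_mulVec, m1, Matrix.one_mulVec]
    obtain ⟨v, hv⟩ := h ((mpow (Sᴴ * H z) p).mulVec a) (by
      intro h0
      apply ha
      rw [← h1, h0, Matrix.mulVec_zero]) (anti_mulVec _ hA)
    refine ⟨v, ?_⟩
    rw [← key, h1] at hv
    exact hv

end Pool.Agent.XP
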