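import Pool.Agent.F057.Tensor
import Pool.Agent.XP.LDefs

/-!
MODULE Slot (size 3).
Proof. `slot_apply`: induction on `p`. For `p + 1` unfold `slot` (it is defined by recursion in
`F057/Tensor.lean`), split the sum with `Fin.sum_univ_succ`, and use
`mpow H p (tail a) (tail b) = ∏ k, H (a k.succ) (b k.succ)`; the product over
`Finset.univ.erase k` is best handled as `∏ l, if l = k then 1 else H (a l) (b l)`.
`sq_slot_one`: insert `slot_apply` with `H = 1`. `∏ l ∈ univ.erase k, (1 : Matrix) (a l) (b l)` is
`1` if `b = Function.update a k (b k)` and `0` otherwise; so the sum over `b` becomes the sum over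
`j = b k` with `b = Function.update a k j`.
-/

set_option linter.unusedSectionVars false

open scoped ComplexConjugate
open Complex

namespace Pool.Agent.XP

open Pool.Agent.F057

variable {ι : Type*} [Fintype ι] [DecidableEq ι]

private theorem Slot_erase {p : ℕ} (f : Fin p → ℂ) (k : Fin p) :
    ∏ l ∈ Finset.univ.erase k, f l = ∏ l, if l = k then 1 else f l := by
  rw [← Finset.mul_prod_erase Finset.univ (fun l => if l = k then 1 else f l) (Finset.mem_univ k)]
  simp only [if_true, one_mul]
  refine Finset.prod_congr rfl (fun l hl => ?_)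
  rw [if_neg (Finset.ne_of_mem_erase hl)]

omit [Fintype ι] [DecidableEq ι] in
private theorem Slot_apply' (K H : Matrix ι ι ℂ) (p : ℕ) (a b : Fin p → ι) :
    slot K H p a b = ∑ k, K (a k) (b k) * ∏ l ∈ Finset.univ.erase k, H (a l) (b l) := by
  induction p with
  | zero =>
    rw [Finset.univ_eq_empty, Finset.sum_empty]
    rfl
  | succ p ih =>
    have h1 : slot K H (p + 1) a b = K (a 0) (b 0) * mpow H p (Fin.tail a) (Fin.tail b) +
        H (a 0) (b 0) * slot K H p (Fin.tail a) (Fin.tail b) := rfl
    have h2 : mpow H p (Fin.tail a) (Fin.tail b) = ∏ l, H (a (Fin.succ l)) (b (Fin.succ l)) := rfl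
    rw [h1, ih, Fin.sum_univ_succ, h2]
    congr 1
    · rw [Slot_erase, Fin.prod_univ_succ]
      simp only [if_true, one_mul]
      congr 1
    · rw [Finset.mul_sum]
      refine Finset.sum_congr rfl (fun k _ => ?_)
      rw [Slot_erase (fun l : Fin (p + 1) => H (a l) (b l)), Fin.prod_univ_succ,
        if_neg (Fin.succ_ne_zero k).symm, Slot_erase]
      have h3 : ∀ l : Fin p, (if Fin.succ l = Fin.succ k then (1 : ℂ) else
          H (a (Fin.succ l)) (b (Fin.succ l))) =
          if l = k then 1 else H (Fin.tail a l) (Fin.tail b l) := by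
        intro l
        by_cases h : l = k
        · rw [if_pos h, if_pos (congrArg Fin.succ h)]
        · rw [if_neg h, if_neg (fun h' => h (Fin.succ_injective _ h'))]
          rfl
      rw [Finset.prod_congr rfl (fun l _ => h3 l)]
      have h4 : K (Fin.tail a k) (Fin.tail b k) = K (a (Fin.succ k)) (b (Fin.succ k)) := rfl
      rw [h4]
      ring

theorem slot_apply (K H : Matrix ι ι ℂ) (p : ℕ) (a b : Fin p → ι) :
    slot K H p a b = ∑ k, K (a k) (b k) * ∏ l ∈ Finset.univ.erase k, H (a l) (b l) :=
  Slot_apply' K H p a b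

private theorem Slot_sum {p : ℕ} (a : Fin p → ι) (k : Fin p) (g : (Fin p → ι) → ℂ) :
    ∑ b, g b * ∏ l ∈ Finset.univ.erase k, (1 : Matrix ι ι ℂ) (a l) (b l) =
      ∑ j, g (Function.update a k j) := by
  have hP1 : ∀ j, ∏ l ∈ Finset.univ.erase k, (1 : Matrix ι ι ℂ) (a l)
      (Function.update a k j l) = 1 := by
    intro j
    refine Finset.prod_eq_one (fun l hl => ?_)
    rw [Function.update_of_ne (Finset.ne_of_mem_erase hl), Matrix.one_apply_eq]
  have hP0 : ∀ b : Fin p → ι, b ∉ Finset.univ.image (Function.update a k) →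
      ∏ l ∈ Finset.univ.erase k, (1 : Matrix ι ι ℂ) (a l) (b l) = 0 := by
    intro b hb
    by_contra hne
    apply hb
    rw [Finset.mem_image]
    refine ⟨b k, Finset.mem_univ _, ?_⟩
    funext l
    by_cases hl : l = k
    · rw [hl, Function.update_self]
    · rw [Function.update_of_ne hl]
      by_contra hab
      apply hne
      refine Finset.prod_eq_zero (Finset.mem_erase.mpr ⟨hl, Finset.mem_univ l⟩) ?_
      exact Matrix.one_apply_ne hab
  rw [← Finset.sum_subset (Finset.subset_univ (Finset.univ.image (Function.update a k)))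
    (fun b _ hb => by rw [hP0 b hb, mul_zero]),
    Finset.sum_image (fun x _ y _ h => Function.update_injective a k h)]
  refine Finset.sum_congr rfl (fun j _ => ?_)
  rw [hP1, mul_one]

theorem sq_slot_one (K : Matrix ι ι ℂ) (p : ℕ) (c : (Fin p → ι) → ℂ) :
    sq (slot K 1 p) c c = Q K c := by
  unfold F057.sq Q
  conv_rhs => rw [Finset.sum_comm]
  refine Finset.sum_congr rfl (fun a _ => ?_)
  have h1 : ∀ b : Fin p → ι, conj (c a) * slot K 1 p a b * c b =
      ∑ k, (conj (c a) * K (a k) (b k) * c b) *
        ∏ l ∈ Finset.univ.erase k, (1 : Matrix ι ι ℂ) (a l) (b l) := by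
    intro b
    rw [slot_apply, Finset.mul_sum, Finset.sum_mul]
    refine Finset.sum_congr rfl (fun k _ => ?_)
    ring
  rw [Finset.sum_congr rfl (fun b _ => h1 b), Finset.sum_comm]
  refine Finset.sum_congr rfl (fun k _ => ?_)
  rw [Slot_sum a k (fun b => conj (c a) * K (a k) (b k) * c b)]
  refine Finset.sum_congr rfl (fun j _ => ?_)
  rw [Function.update_self]

end Pool.Agent.XP
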