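import Pool.Agent.XP.LDefs

/-!
MODULE Wed (size 4).
Proofs. `sum_alt`: `∑ e, c e * alt e I = ∑ σ, sign σ * c (I ∘ σ⁻¹) = p! * c I` (`I = e ∘ σ` iff
`e = I ∘ σ⁻¹`; exchange the sums; `Anti`).
`alt_det`: `alt e I = det (fun k l => if I k = e l then 1 else 0)` (`Matrix.det_apply'`, up to
`σ ↦ σ⁻¹`/transposition; `∏ k, (if I (σ k) = e k then 1 else 0)` is `1` iff `I ∘ σ = e`).
`wedge_alt`: `wedge u (alt e) I = det` of the `(p+1) × (p+1)` matrix with rows indexed by `k`, first
column `u (I k)` and column `l.succ` equal to `if I k = e l then 1 else 0`: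
`Matrix.det_succ_column_zero`.
`wedge_wedge_alt`: `wedge w (wedge u (alt e)) I = det` of the `(p+2) × (p+2)` matrix with the first
two columns `w (I k)`, `u (I k)`: again `Matrix.det_succ_column_zero`.
`wedge_anti`, `wedge_wedge_swap`: by `sum_alt` and linearity of `wedge u` it is enough to treat
`c = alt e`; there use `Matrix.det_permute` (rows permuted by `σ`: sign), respectively exchange
of the first two columns (`Matrix.det_permute'` with `swap 0 1`: sign `-1`).
-/

set_option linter.unusedSectionVars false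

open scoped ComplexConjugate
open Complex

namespace Pool.Agent.XP

variable {ι : Type*} [Fintype ι] [DecidableEq ι]

theorem sum_alt {p : ℕ} {c : (Fin p → ι) → ℂ} (hc : Anti c) (I : Fin p → ι) :
    (p.factorial : ℂ) * c I = ∑ e : Fin p → ι, c e * alt e I := by
  unfold alt
  simp_rw [Finset.mul_sum]
  rw [Finset.sum_comm]
  have h : ∀ σ : Equiv.Perm (Fin p), (∑ e : Fin p → ι,
      c e * (if I = e ∘ σ then ((Equiv.Perm.sign σ : ℤ) : ℂ) else 0)) = c I := by
    intro σ
    rw [Finset.sum_eq_single (I ∘ (σ⁻¹ : Equiv.Perm (Fin p)))]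
    · rw [if_pos (by funext k; simp), hc, Equiv.Perm.sign_inv, mul_right_comm]
      have : ((Equiv.Perm.sign σ : ℤ) : ℂ) * ((Equiv.Perm.sign σ : ℤ) : ℂ) = 1 := by
        rw [← Int.cast_mul, ← Units.val_mul, Int.units_mul_self]
        simp
      rw [this, one_mul]
    · intro e _ he
      rw [if_neg, mul_zero]
      intro h1
      apply he
      rw [h1]
      funext k
      simp
    · intro h1
      exact absurd (Finset.mem_univ _) h1
  rw [Finset.sum_congr rfl (fun σ _ => h σ), Finset.sum_const, Finset.card_univ,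
    Fintype.card_perm, Fintype.card_fin, nsmul_eq_mul]

/-- the determinant of the values of some functions -/
private def WD {m : ℕ} (F : Fin m → ι → ℂ) (I : Fin m → ι) : ℂ :=
  Matrix.det (Matrix.of fun k l => F l (I k))

private theorem wd_alt {p : ℕ} (e : Fin p → ι) :
    alt e = WD (fun l i => if i = e l then (1 : ℂ) else 0) := by
  funext I
  unfold alt WD
  rw [← Matrix.det_transpose, Matrix.det_apply']
  apply Finset.sum_congr rfl
  intro σ _
  rw [← mul_boole]
  congr 1
  rw [Finset.prod_congr rfl (g := fun i => if I i = e (σ i) then (1 : ℂ) else 0)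
    (fun i _ => by rw [Matrix.transpose_apply, Matrix.of_apply])]
  rw [Finset.prod_boole]
  congr 1
  rw [eq_iff_iff]
  constructor
  · intro h i _
    exact congrFun h i
  · intro h
    funext i
    exact h i (Finset.mem_univ i)

private theorem wd_wedge {m : ℕ} (u : ι → ℂ) (F : Fin m → ι → ℂ) :
    wedge u (WD F) = WD (Fin.cons u F) := by
  funext I
  unfold wedge WD
  rw [Matrix.det_succ_column_zero]
  apply Finset.sum_congr rfl
  intro k _
  congr 1

private theorem wd_perm {m : ℕ} (F : Fin m → ι → ℂ) (σ : Equiv.Perm (Fin m)) (I : Fin m → ι) :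
    WD F (I ∘ σ) = ((Equiv.Perm.sign σ : ℤ) : ℂ) * WD F I := by
  unfold WD
  rw [← Matrix.det_permute]
  rfl

private theorem wd_swap {m : ℕ} (w u : ι → ℂ) (F : Fin m → ι → ℂ) (I : Fin (m + 2) → ι) :
    WD (Fin.cons w (Fin.cons u F : Fin (m + 1) → ι → ℂ)) I =
      - WD (Fin.cons u (Fin.cons w F : Fin (m + 1) → ι → ℂ)) I := by
  unfold WD
  have h := Matrix.det_permute' (Equiv.swap (0 : Fin (m + 2)) 1)
    (Matrix.of fun k l => (Fin.cons u (Fin.cons w F : Fin (m + 1) → ι → ℂ) :
      Fin (m + 2) → ι → ℂ) l (I k))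
  rw [Equiv.Perm.sign_swap (by simp)] at h
  rw [Units.val_neg, Units.val_one, Int.cast_neg, Int.cast_one, neg_one_mul] at h
  rw [← h]
  congr 1
  ext k l
  rw [Matrix.of_apply, Matrix.submatrix_apply, Matrix.of_apply]
  refine Fin.cases ?_ (fun l => Fin.cases ?_ (fun l => ?_) l) l
  · rw [Equiv.swap_apply_left]
    rfl
  · have : (Fin.succ 0 : Fin (m + 2)) = 1 := rfl
    rw [this, Equiv.swap_apply_right]
    rfl
  · rw [Equiv.swap_apply_of_ne_of_ne (Fin.succ_ne_zero _)
      (by
        intro h1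
        have h2 : (Fin.succ (Fin.succ l) : Fin (m + 2)) = Fin.succ 0 := h1
        exact Fin.succ_ne_zero l (Fin.succ_injective _ h2))]
    rfl

private theorem wedge_sum {p : ℕ} {κ : Type*} [Fintype κ] (u : ι → ℂ) (x : κ → ℂ)
    (t : κ → (Fin p → ι) → ℂ) :
    wedge u (fun J => ∑ e, x e * t e J) = fun I => ∑ e, x e * wedge u (t e) I := by
  funext I
  unfold wedge
  simp_rw [Finset.mul_sum]
  rw [Finset.sum_comm]
  apply Finset.sum_congr rfl
  intro e _
  apply Finset.sum_congr rfl
  intro k _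
  ring

private theorem wedge_smul {p : ℕ} (u : ι → ℂ) (x : ℂ) (c : (Fin p → ι) → ℂ) :
    wedge u (fun J => x * c J) = fun I => x * wedge u c I := by
  funext I
  unfold wedge
  rw [Finset.mul_sum]
  apply Finset.sum_congr rfl
  intro k _
  ring

private theorem fac_ne (p : ℕ) : (p.factorial : ℂ) ≠ 0 :=
  Nat.cast_ne_zero.2 (Nat.factorial_ne_zero p)

private theorem sum_alt' {p : ℕ} {c : (Fin p → ι) → ℂ} (hc : Anti c) :
    (fun I => (p.factorial : ℂ) * c I) = fun I => ∑ e : Fin p → ι, c e * alt e I :=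
  funext fun I => sum_alt hc I

theorem wedge_anti {p : ℕ} (u : ι → ℂ) {c : (Fin p → ι) → ℂ} (hc : Anti c) :
    Anti (wedge u c) := by
  intro σ J
  have h : ∀ I, (p.factorial : ℂ) * wedge u c I = ∑ e : Fin p → ι, c e * wedge u (alt e) I := by
    intro I
    have h1 := congrFun (wedge_smul u (p.factorial : ℂ) c) I
    rw [sum_alt' hc, wedge_sum] at h1
    exact h1.symm
  apply mul_left_cancel₀ (fac_ne p)
  rw [h, mul_left_comm, h, Finset.mul_sum]
  apply Finset.sum_congr rfl
  intro e _
  rw [wd_alt, wd_wedge, wd_perm]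
  ring

theorem wedge_wedge_swap {p : ℕ} (w u : ι → ℂ) {c : (Fin p → ι) → ℂ} (hc : Anti c)
    (I : Fin (p + 2) → ι) : wedge w (wedge u c) I = - wedge u (wedge w c) I := by
  have h : ∀ (a b : ι → ℂ) (I : Fin (p + 2) → ι), (p.factorial : ℂ) * wedge a (wedge b c) I =
      ∑ e : Fin p → ι, c e * wedge a (wedge b (alt e)) I := by
    intro a b I
    have h1 := wedge_smul b (p.factorial : ℂ) c
    rw [sum_alt' hc, wedge_sum] at h1
    have h2 := congrFun (wedge_smul a (p.factorial : ℂ) (wedge b c)) I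
    rw [← h1, wedge_sum] at h2
    exact h2.symm
  apply mul_left_cancel₀ (fac_ne p)
  rw [mul_neg, h, h, ← Finset.sum_neg_distrib]
  apply Finset.sum_congr rfl
  intro e _
  rw [wd_alt, wd_wedge, wd_wedge, wd_wedge, wd_wedge, wd_swap]
  ring

end Pool.Agent.XP
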